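import Pool.Agent.X296.Prod.Exists

/-!
# The simple ordinary abelian varieties as reductions of abelian varieties of CM type, part 2
-/

open Polynomial NumberField IntermediateField

namespace Pool.Agent.X296.Prod

open Pool.Agent.W518.TC Pool.Agent.W495.TA Pool.Agent.W547.KB Pool.Agent.W547.LD
  Pool.Agent.H204R3.CM

section field

variable {p : ℕ} [hp : Fact p.Prime] {a g : ℕ} {P : ℤ[X]} {z : ℂ}

lemma isIntegral_root (hPm : P.Monic) (hz : (P.map (Int.castRingHom ℂ)).IsRoot z) :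
    IsIntegral ℤ z := by
  refine ⟨P, hPm, ?_⟩
  rw [IsRoot.def, eval_map] at hz
  exact hz

lemma isIntegral_root' (hPm : P.Monic) (hz : (P.map (Int.castRingHom ℂ)).IsRoot z) :
    IsIntegral ℚ z := (isIntegral_root hPm hz).tower_top

lemma minpoly_root (hPm : P.Monic) (hirr : Irreducible P)
    (hz : (P.map (Int.castRingHom ℂ)).IsRoot z) :
    minpoly ℚ z = P.map (Int.castRingHom ℚ) := by
  have hirrQ : Irreducible (P.map (Int.castRingHom ℚ)) :=
    (IsPrimitive.Int.irreducible_iff_irreducible_map_cast hPm.isPrimitive).1 hirr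
  have hcomp : (algebraMap ℚ ℂ).comp (Int.castRingHom ℚ) = Int.castRingHom ℂ :=
    RingHom.ext_int _ _
  refine (minpoly.eq_of_irreducible_of_monic hirrQ ?_ (hPm.map _)).symm
  rw [← eval_map_algebraMap, Polynomial.map_map, hcomp]; exact hz

/-- The field generated by a complex number. -/
abbrev Fz (z : ℂ) : Type := IntermediateField.adjoin ℚ {z}

/-- An embedding takes the generator to a root. -/
lemma isRoot_emb {K : Type} [Field K] [CharZero K] (φ : K →+* ℂ) {x : K}
    (hx : (P.map (Int.castRingHom K)).IsRoot x) : (P.map (Int.castRingHom ℂ)).IsRoot (φ x) := by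
  have h1 : φ ((P.map (Int.castRingHom K)).eval x) = 0 := by rw [hx.eq_zero, map_zero]
  rw [eval_map, hom_eval₂] at h1
  have h2 : φ.comp (Int.castRingHom K) = Int.castRingHom ℂ := RingHom.ext_int _ _
  rw [h2] at h1
  rw [IsRoot.def, eval_map]
  exact h1

/-- The simple ordinary abelian variety with the Frobenius polynomial `P`. -/
theorem exists_redAV (ν : PadicAlgCl p ≃+* ℂ) (ha : 1 ≤ a) (hg : 1 ≤ g)
    (hP : IsFrobPoly p a P) (hPd : P.natDegree = 2 * g) (hirr : Irreducible P)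
    (hord : ¬ (p : ℤ) ∣ P.coeff g) (hz : (P.map (Int.castRingHom ℂ)).IsRoot z) :
    ∃ (Y : RedAV p ν) (i : Y.X.I) (φ : (Y.X.factor i).E →+* ℂ), Y.a = a ∧ (∀ k, k = i) ∧
      φ (Y.π i) = z ∧ Module.finrank ℚ (Y.X.factor i).E = 2 * g := by
  classical
  have hPm := hP.monic
  have hzi := isIntegral_root' hPm hz
  have hmin := minpoly_root hPm hirr hz
  have hq0 : ((p ^ a : ℕ) : ℂ) ≠ 0 := Nat.cast_ne_zero.2 (pow_ne_zero _ hp.out.ne_zero)
  have hroot : ∀ w : ℂ, (P.map (Int.castRingHom ℂ)).IsRoot w → w ≠ 0 ∧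
      (starRingEnd ℂ) w = ((p ^ a : ℕ) : ℂ) / w ∧
      (P.map (Int.castRingHom ℂ)).IsRoot (((p ^ a : ℕ) : ℂ) / w) := by
    intro w hw
    have h1 := hP.weil w hw
    have hw0 : w ≠ 0 := by
      rintro rfl
      rw [norm_zero] at h1
      have h2 : (0 : ℝ) < (p : ℝ) ^ a := pow_pos (by exact_mod_cast hp.out.pos) a
      rw [← h1] at h2
      norm_num at h2
    have h2 : (starRingEnd ℂ) w = ((p ^ a : ℕ) : ℂ) / w := by
      rw [eq_div_iff hw0, mul_comm, Complex.mul_conj, Complex.normSq_eq_norm_sq, h1]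
      push_cast
      rfl
    refine ⟨hw0, h2, ?_⟩
    rw [← h2]
    have h3 : (starRingEnd ℂ) ((P.map (Int.castRingHom ℂ)).eval w) = 0 := by
      rw [hw.eq_zero, map_zero]
    rw [eval_map, hom_eval₂] at h3
    have h4 : (starRingEnd ℂ).comp (Int.castRingHom ℂ) = Int.castRingHom ℂ := RingHom.ext_int _ _
    rw [h4] at h3
    rw [IsRoot.def, eval_map]
    exact h3
  -- the field
  have hfd : FiniteDimensional ℚ (Fz z) := adjoin.finiteDimensional hzi
  have hNF : NumberField (Fz z) := { to_charZero := inferInstance, to_finiteDimensional := hfd }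
  let x : (Fz z) := AdjoinSimple.gen ℚ z
  have hxz : (algebraMap (Fz z) ℂ) x = z := AdjoinSimple.algebraMap_gen ℚ z
  have hxroot : (P.map (Int.castRingHom (Fz z))).IsRoot x := by
    rw [IsRoot.def, eval_map]
    apply (algebraMap (Fz z) ℂ).injective
    rw [hom_eval₂, map_zero, hxz]
    have h2 : (algebraMap (Fz z) ℂ).comp (Int.castRingHom (Fz z)) = Int.castRingHom ℂ := RingHom.ext_int _ _
    rw [h2]
    rw [IsRoot.def, eval_map] at hz
    exact hz
  have hembroot : ∀ φ : (Fz z) →+* ℂ, (P.map (Int.castRingHom ℂ)).IsRoot (φ x) := fun φ =>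
    isRoot_emb φ hxroot
  have hgen : (adjoin.powerBasis hzi).gen = x := adjoin.powerBasis_gen hzi
  have hminx : minpoly ℚ x = P.map (Int.castRingHom ℚ) := by
    rw [← hmin]
    exact minpoly_gen ℚ z
  have hemb_ext : ∀ φ ψ : (Fz z) →+* ℂ, φ x = ψ x → φ = ψ := by
    intro φ ψ h
    have h1 : φ.toRatAlgHom = ψ.toRatAlgHom := by
      apply (adjoin.powerBasis hzi).algHom_ext
      rw [hgen]
      exact h
    exact RingHom.ext fun y => AlgHom.congr_fun h1 y
  -- the complex conjugation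
  have hx0 : x ≠ 0 := by
    intro h
    rw [h, map_zero] at hxz
    exact (hroot z hz).1 hxz.symm
  have hyroot : aeval (((p ^ a : ℕ) : (Fz z)) / x) (minpoly ℚ (adjoin.powerBasis hzi).gen) = 0 := by
    rw [hgen, hminx]
    apply (algebraMap (Fz z) ℂ).injective
    rw [map_zero]
    have h1 := (hroot z hz).2.2
    have h2 : (algebraMap (Fz z) ℂ) (((p ^ a : ℕ) : (Fz z)) / x) = ((p ^ a : ℕ) : ℂ) / z := by
      rw [map_div₀, map_natCast, hxz]
    rw [← h2] at h1
    rw [IsRoot.def, eval_map] at h1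
    have h3 : (algebraMap (Fz z) ℂ).comp ((algebraMap ℚ (Fz z)).comp (Int.castRingHom ℚ)) =
      Int.castRingHom ℂ := RingHom.ext_int _ _
    rw [aeval_def, eval₂_map, hom_eval₂, h3]
    exact h1
  let σ0 : (Fz z) →ₐ[ℚ] (Fz z) := (adjoin.powerBasis hzi).lift (((p ^ a : ℕ) : (Fz z)) / x) hyroot
  have hσ0 : σ0 x = ((p ^ a : ℕ) : (Fz z)) / x := by
    have h1 := (adjoin.powerBasis hzi).lift_gen (((p ^ a : ℕ) : (Fz z)) / x) hyroot
    rw [hgen] at h1
    exact h1
  let σ : (Fz z) ≃ₐ[ℚ] (Fz z) := AlgEquiv.ofBijective σ0 (AlgHom.bijective σ0)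
  have hσ : ∀ φ : (Fz z) →+* ℂ, ComplexEmbedding.IsConj φ σ := by
    intro φ
    change ComplexEmbedding.conjugate φ = φ.comp (σ : (Fz z) →+* (Fz z))
    apply hemb_ext
    rw [ComplexEmbedding.conjugate_coe_eq, (hroot _ (hembroot φ)).2.1]
    change _ = φ (σ0 x)
    rw [hσ0, map_div₀, map_natCast]
  have hnotreal : ∀ φ : (Fz z) →+* ℂ, ComplexEmbedding.conjugate φ ≠ φ := by
    intro φ h
    have h1 := RingHom.congr_fun h x
    rw [ComplexEmbedding.conjugate_coe_eq, (hroot _ (hembroot φ)).2.1] at h1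
    have h2 := (hroot _ (hembroot φ)).1
    rw [div_eq_iff h2] at h1
    refine X296.Count.not_ss ha hg hPm hPd hirr hord (hembroot φ) one_pos ?_
    rw [mul_one, pow_one, h1, sq]
  have hTC : IsTotallyComplex (Fz z) := ⟨fun v => by
    rw [InfinitePlace.isComplex_iff]
    exact hnotreal v.embedding⟩
  have hCM : IsCMField (Fz z) := isCM_of_conj (Fz z) hσ
  -- the valuations
  have hsep : (P.map (Int.castRingHom (PadicAlgCl p))).Separable := by
    have hirrQ : Irreducible (P.map (Int.castRingHom ℚ)) :=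
      (IsPrimitive.Int.irreducible_iff_irreducible_map_cast hPm.isPrimitive).1 hirr
    have h1 := hirrQ.separable
    have h2 : P.map (Int.castRingHom (PadicAlgCl p)) =
        (P.map (Int.castRingHom ℚ)).map (algebraMap ℚ (PadicAlgCl p)) := by
      rw [Polynomial.map_map]
      congr 1
    rw [h2]
    exact h1.map
  have hback : ∀ y : PadicAlgCl p, (P.map (Int.castRingHom (PadicAlgCl p))).IsRoot y ↔
      (P.map (Int.castRingHom ℂ)).IsRoot (ν y) := by
    intro y
    have h2 : (ν : PadicAlgCl p →+* ℂ).comp (Int.castRingHom (PadicAlgCl p)) =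
      Int.castRingHom ℂ := RingHom.ext_int _ _
    have h3 : (P.map (Int.castRingHom ℂ)).eval (ν y) =
        ν ((P.map (Int.castRingHom (PadicAlgCl p))).eval y) := by
      rw [eval_map, eval_map, ← h2]
      exact (hom_eval₂ P _ (ν : PadicAlgCl p →+* ℂ) y).symm
    rw [IsRoot.def, IsRoot.def, h3]
    exact ⟨fun h => by rw [h, map_zero], fun h => by
      rwa [map_eq_zero] at h⟩
  have hinv : ∀ y : PadicAlgCl p, (P.map (Int.castRingHom (PadicAlgCl p))).IsRoot y → y ≠ 0 ∧
      (P.map (Int.castRingHom (PadicAlgCl p))).IsRoot (((p ^ a : ℕ) : PadicAlgCl p) / y) := by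
    intro y hy
    rw [hback] at hy
    obtain ⟨h1, -, h3⟩ := hroot _ hy
    refine ⟨fun h => h1 (by rw [h, map_zero]), ?_⟩
    rw [hback, map_div₀, map_natCast]
    exact h3
  have hnorm : ∀ φ : (Fz z) →+* ℂ, ‖ν.symm (φ x)‖ = 1 ∨
      ‖ν.symm (φ x)‖ = ‖((p ^ a : ℕ) : PadicAlgCl p)‖ := by
    intro φ
    apply norm_root_ordinary ha hPm hPd hsep hinv hord
    rw [hback, RingEquiv.apply_symm_apply]
    exact hembroot φ
  have hnormc : ∀ φ : (Fz z) →+* ℂ, ‖ν.symm (φ x)‖ * ‖ν.symm (ComplexEmbedding.conjugate φ x)‖ =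
      ‖((p ^ a : ℕ) : PadicAlgCl p)‖ := by
    intro φ
    obtain ⟨h1, h2, -⟩ := hroot _ (hembroot φ)
    rw [ComplexEmbedding.conjugate_coe_eq, h2, ← norm_mul, ← map_mul,
      mul_div_cancel₀ _ h1, map_natCast]
  have hq1 : ‖((p ^ a : ℕ) : PadicAlgCl p)‖ < 1 := norm_q_lt ha
  let A : CMPair :=
    { E := Fz z
      field := inferInstance
      numberField := hNF
      cm := hCM
      Φ := {φ | ‖ν.symm (φ x)‖ < 1}
      isCMType := by
        intro φ
        change ‖ν.symm (φ x)‖ < 1 ↔ ¬ ‖ν.symm (ComplexEmbedding.conjugate φ x)‖ < 1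
        have h1 := hnormc φ
        rcases hnorm φ with h2 | h2
        · rw [h2, one_mul] at h1
          rw [h2, h1]
          exact ⟨fun h => absurd h (lt_irrefl _), fun h => absurd hq1 h⟩
        · rw [h2] at h1
          have h3 : ‖ν.symm (ComplexEmbedding.conjugate φ x)‖ = 1 :=
            mul_left_cancel₀ norm_q_pos.ne' (h1.trans (mul_one _).symm)
          rw [h2, h3]
          exact ⟨fun _ => lt_irrefl _, fun _ => hq1⟩ }
  have hA : IsFrobenius p ν A a x := by
    refine ⟨?_, fun φ => hP.weil _ (hembroot φ), fun φ => ?_⟩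
    · refine ⟨P, hPm, ?_⟩
      have h1 := hxroot
      rw [IsRoot.def, eval_map] at h1
      exact h1
    · have hsame : ∀ φ' : A.E →+* ℂ, SamePlace p ν φ φ' →
          ‖ν.symm (φ' x)‖ = ‖ν.symm (φ x)‖ := by
        rintro φ' ⟨τ, hτ⟩
        rw [hτ x, RingEquiv.symm_apply_apply, W902.TB.norm_alg]
      by_cases hlt : ‖ν.symm (φ x)‖ < 1
      · have h1 : ‖ν.symm (φ x)‖ = ‖(p : PadicAlgCl p) ^ a‖ := by
          rcases hnorm φ with h2 | h2
          · rw [h2] at hlt; exact absurd hlt (lt_irrefl _)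
          · rw [h2]; push_cast; rfl
        have h2 : Nat.card {φ' : A.E →+* ℂ // SamePlace p ν φ φ' ∧ φ' ∈ A.Φ} =
            Nat.card {φ' : A.E →+* ℂ // SamePlace p ν φ φ'} := by
          refine Nat.card_congr (Equiv.subtypeEquivRight fun φ' => ?_)
          refine ⟨fun h => h.1, fun h => ⟨h, ?_⟩⟩
          change ‖ν.symm (φ' x)‖ < 1
          rw [hsame φ' h]; exact hlt
        rw [h2, h1]
      · have h1 : ‖ν.symm (φ x)‖ = 1 := by
          rcases hnorm φ with h2 | h2
          · exact h2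
          · rw [h2] at hlt; exact absurd hq1 hlt
        have h2 : Nat.card {φ' : A.E →+* ℂ // SamePlace p ν φ φ' ∧ φ' ∈ A.Φ} = 0 := by
          rw [Nat.card_eq_zero]
          left
          refine ⟨fun φ' => ?_⟩
          have h3 : ‖ν.symm (φ'.1 x)‖ < 1 := φ'.2.2
          rw [hsame φ'.1 φ'.2.1] at h3
          exact hlt h3
        rw [h2, h1, pow_zero, one_pow]
  let Y : RedAV p ν :=
    { X := single A
      a := a
      pos := ha
      π := fun _ => x
      frob := fun _ => hA }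
  refine ⟨Y, (), algebraMap (Fz z) ℂ, rfl, fun _ => rfl, hxz, ?_⟩
  change Module.finrank ℚ ℚ⟮z⟯ = 2 * g
  rw [adjoin.finrank hzi, hmin, hPm.natDegree_map, hPd]

end field

end Pool.Agent.X296.Prod
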