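import Mathlib
import Pool.Agent.W495.FM.HomDefs

/-!
# Abelian varieties whose simple factors are supersingular or belong to a set of Frobenius
polynomials over a fixed finite field
-/

namespace Pool.Agent.X296.Prod

open Polynomial Pool.Agent.W495.TA Pool.Agent.W495.FM

/-- Each simple factor of the abelian variety `Y` (over an algebraic closure) is supersingular or
isogenous to a power of a simple abelian variety over the field with `p ^ a` elements whose
Frobenius polynomial belongs to the set `S`: for a complex embedding `φ` of the CM field of the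
factor, with `s` times the degree `Y.a` of the ground field of `Y` equal to `t` times `a`, the
number `φ (π) ^ s`, for the Frobenius endomorphism `π` of the factor, is `z ^ t` for a root `z` of
`P`, with a `P` in `S`. -/
def OfMembers {p : ℕ} [Fact p.Prime] {ν : PadicAlgCl p ≃+* ℂ} (a : ℕ) (S : Set ℤ[X])
    (Y : RedAV p ν) : Prop :=
  ∀ i : Y.X.I, (∃ s : ℕ, 0 < s ∧ (Y.π i) ^ (2 * s) = ((p : (Y.X.factor i).E) ^ Y.a) ^ s) ∨
    ∃ P ∈ S, ∃ (φ : (Y.X.factor i).E →+* ℂ) (z : ℂ) (s t : ℕ),
      (P.map (Int.castRingHom ℂ)).IsRoot z ∧ 0 < s ∧ 0 < t ∧ Y.a * s = a * t ∧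
        φ (Y.π i) ^ s = z ^ t

/-- The groups of motivic and of `ℓ`-adic homology of `X` are those of an abelian variety `Y` whose
simple factors are supersingular or belong to the set `S` of Frobenius polynomials over the field
with `p ^ a` elements. -/
def IsAbelianOfMembers {p : ℕ} [Fact p.Prime] (ν : PadicAlgCl p ≃+* ℂ) (a : ℕ) (S : Set ℤ[X])
    {Ω V : Type} [Field Ω] [CharZero Ω] (T : Homology Ω V) (X : V) : Prop :=
  ∃ (Y : RedAV p ν) (C : Cycles Ω Y) (D : Motivic C) (g : ℕ), OfMembers a S Y ∧ IsChow C ∧
    IsMotivic D ∧ IsAbelian T X D g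

end Pool.Agent.X296.Prod
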