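import Pool.Agent.X296.Prod.Complex
import Pool.Agent.X296.Prod.MembersDefs
import Pool.Agent.TH170.GS.Rel
import Pool.Agent.TH170.MF.Field

/-!
# Relations between the Frobenius eigenvalues of abelian varieties with factors in a good set
-/

open Polynomial NumberField Finset

namespace Pool.Agent.X296.Prod

open Pool.Agent.W518.DN Pool.Agent.W518.TC Pool.Agent.X296.Count Pool.Agent.W495.TA
  Pool.Agent.TH117 Pool.Agent.TH170.GS

/-- The complex conjugate of a root is a root. -/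
lemma isRoot_conj {P : ℤ[X]} {z : ℂ} (hz : (P.map (Int.castRingHom ℂ)).IsRoot z) :
    (P.map (Int.castRingHom ℂ)).IsRoot ((starRingEnd ℂ) z) := by
  have h1 : (starRingEnd ℂ) ((P.map (Int.castRingHom ℂ)).eval z) = 0 := by
    rw [hz.eq_zero, map_zero]
  rw [eval_map, hom_eval₂] at h1
  have h2 : (starRingEnd ℂ).comp (Int.castRingHom ℂ) = Int.castRingHom ℂ := RingHom.ext_int _ _
  rw [h2] at h1
  rw [IsRoot.def, eval_map]
  exact h1

/-- The image of a root by an automorphism is a root. -/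
lemma isRoot_aut {P : ℤ[X]} {z : ℂ} (σ : ℂ ≃+* ℂ) (hz : (P.map (Int.castRingHom ℂ)).IsRoot z) :
    (P.map (Int.castRingHom ℂ)).IsRoot (σ z) := by
  have h1 : (σ : ℂ →+* ℂ) ((P.map (Int.castRingHom ℂ)).eval z) = 0 := by
    rw [hz.eq_zero, map_zero]
  rw [eval_map, hom_eval₂] at h1
  have h2 : (σ : ℂ →+* ℂ).comp (Int.castRingHom ℂ) = Int.castRingHom ℂ := RingHom.ext_int _ _
  rw [h2] at h1
  rw [IsRoot.def, eval_map]
  exact h1

lemma conj_eq_div {p a : ℕ} {z : ℂ} (h : ‖z‖ ^ 2 = (p : ℝ) ^ a) (hz : z ≠ 0) :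
    (starRingEnd ℂ) z = ((p ^ a : ℕ) : ℂ) / z := by
  rw [eq_div_iff hz, mul_comm, Complex.mul_conj, Complex.normSq_eq_norm_sq, h]
  push_cast
  rfl

variable {p : ℕ} [hp : Fact p.Prime] {ν : PadicAlgCl p ≃+* ℂ}

/-- All relations between the Frobenius eigenvalues of an abelian variety whose simple factors are
supersingular or belong to a good set are elementary. -/
theorem elementary_of_members {a : ℕ} (ha : 1 ≤ a) {S : Set ℤ[X]} (hS : GoodSet p a S)
    {Y : RedAV p ν} (hY : OfMembers a S Y) : BL.HasElementaryRelations Y := by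
  classical
  intro e he
  have hq0 : ((p ^ a : ℕ) : ℂ) ≠ 0 := Nat.cast_ne_zero.2 (pow_ne_zero _ hp.out.ne_zero)
  have hp1 : (1 : ℝ) < p := by exact_mod_cast hp.out.one_lt
  let ss : Y.X.I → Prop := fun k =>
    ∃ s : ℕ, 0 < s ∧ Y.π k ^ (2 * s) = ((p : (Y.X.factor k).E) ^ Y.a) ^ s
  have hroot0 : ∀ P ∈ S, ∀ z : ℂ, (P.map (Int.castRingHom ℂ)).IsRoot z →
      ‖z‖ ^ 2 = (p : ℝ) ^ a ∧ z ≠ 0 := by
    intro P hP z hz
    obtain ⟨g, hg⟩ := hS.good P hP
    have h1 := hg.frob.weil z hz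
    refine ⟨h1, ?_⟩
    rintro rfl
    rw [norm_zero] at h1
    have h2 : (0 : ℝ) < (p : ℝ) ^ a := by positivity
    rw [← h1] at h2
    norm_num at h2
  have hY1 : ∀ k, ¬ ss k → ∃ P ∈ S, ∃ (s t : ℕ), 0 < s ∧ 0 < t ∧ Y.a * s = a * t ∧
      ∀ ψ : (Y.X.factor k).E →+* ℂ, ∃ z : ℂ, (P.map (Int.castRingHom ℂ)).IsRoot z ∧
        ψ (Y.π k) ^ s = z ^ t := by
    intro k hk
    obtain ⟨P, hP, φ, z, s, t, hz, hs, ht, hst, h⟩ := (hY k).resolve_left hk
    refine ⟨P, hP, s, t, hs, ht, hst, fun ψ => ?_⟩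
    obtain ⟨σ, hσ⟩ := Pool.Agent.TH170.MF.exists_comp_eq (Y.X.factor k).E φ ψ
    refine ⟨σ z, isRoot_aut σ hz, ?_⟩
    rw [← hσ, ← map_pow σ z, ← h, map_pow]
    rfl
  choose P hPS s t hs ht hst hroot using hY1
  choose zz hzz1 hzz2 using hroot
  -- uniqueness of the root
  have huniq : ∀ k (hk : ¬ ss k) (ψ : (Y.X.factor k).E →+* ℂ) (z : ℂ),
      ((P k hk).map (Int.castRingHom ℂ)).IsRoot z → ψ (Y.π k) ^ s k hk = z ^ t k hk →
      z = zz k hk ψ := by
    intro k hk ψ z hz h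
    obtain ⟨g, hg⟩ := hS.good _ (hPS k hk)
    exact hg.abs (t k hk) (ht k hk) z _ hz (hzz1 k hk ψ) (by rw [← h, hzz2])
  -- the set of roots
  let X : Type := {z : ℂ // ∃ k, ∃ hk : ¬ ss k, ((P k hk).map (Int.castRingHom ℂ)).IsRoot z}
  have hXfin : Finite X := by
    have h1 : Set.Finite {z : ℂ | ∃ k, ∃ hk : ¬ ss k,
        ((P k hk).map (Int.castRingHom ℂ)).IsRoot z} := by
      have h2 : {z : ℂ | ∃ k, ∃ hk : ¬ ss k, ((P k hk).map (Int.castRingHom ℂ)).IsRoot z} ⊆
          ⋃ k, ⋃ hk : ¬ ss k, {z : ℂ | ((P k hk).map (Int.castRingHom ℂ)).IsRoot z} := by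
        rintro z ⟨k, hk, h⟩
        exact Set.mem_iUnion.2 ⟨k, Set.mem_iUnion.2 ⟨hk, h⟩⟩
      refine Set.Finite.subset (Set.finite_iUnion fun k => Set.finite_iUnion fun hk => ?_) h2
      obtain ⟨g, hg⟩ := hS.good _ (hPS k hk)
      exact finite_setOf_isRoot (hg.frob.monic.map _).ne_zero
    exact h1
  let _ : Fintype X := Fintype.ofFinite X
  let inv : X → X := fun z => ⟨((p ^ a : ℕ) : ℂ) / z.1, by
    obtain ⟨k, hk, h⟩ := z.2
    obtain ⟨h1, h2⟩ := hroot0 _ (hPS k hk) _ h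
    rw [← conj_eq_div h1 h2]
    exact ⟨k, hk, isRoot_conj h⟩⟩
  have hinv : ∀ z, inv (inv z) = z := by
    intro z
    apply Subtype.ext
    obtain ⟨k, hk, h⟩ := z.2
    obtain ⟨h1, h2⟩ := hroot0 _ (hPS k hk) _ h
    change ((p ^ a : ℕ) : ℂ) / (((p ^ a : ℕ) : ℂ) / z.1) = z.1
    field_simp
  have hfix : ∀ z, inv z ≠ z := by
    intro z hz
    obtain ⟨k, hk, h⟩ := z.2
    obtain ⟨h1, h2⟩ := hroot0 _ (hPS k hk) _ h
    have h3 : ((p ^ a : ℕ) : ℂ) / z.1 = z.1 := congrArg Subtype.val hz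
    refine hS.nss _ (hPS k hk) _ h 1 one_pos ?_
    rw [div_eq_iff h2] at h3
    rw [h3]; ring
  let F : BL.Emb Y → Option X := fun w =>
    if h : ss w.1 then none else some ⟨zz w.1 h w.2, w.1, h, hzz1 w.1 h w.2⟩
  have hF1 : ∀ w, ss w.1 → F w = none := fun w h => dif_pos h
  have hF2 : ∀ w (h : ¬ ss w.1), F w = some ⟨zz w.1 h w.2, w.1, h, hzz1 w.1 h w.2⟩ :=
    fun w h => dif_neg h
  have hF3 : ∀ w z, F w = some z → ∃ h : ¬ ss w.1, z.1 = zz w.1 h w.2 := by
    intro w z hz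
    by_cases h : ss w.1
    · rw [hF1 w h] at hz; exact absurd hz (by simp)
    · rw [hF2 w h] at hz
      exact ⟨h, by rw [← Option.some.inj hz]⟩
  have hFc : ∀ w z, F w = some z → F (conjE w) = some (inv z) := by
    intro w z hz
    obtain ⟨h, hz'⟩ := hF3 w z hz
    rw [hF2 (conjE w) h]
    congr 1
    apply Subtype.ext
    change zz w.1 h (ComplexEmbedding.conjugate w.2) = ((p ^ a : ℕ) : ℂ) / z.1
    obtain ⟨h1, h2⟩ := hroot0 _ (hPS w.1 h) _ (hzz1 w.1 h w.2)
    rw [hz', ← conj_eq_div h1 h2]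
    symm
    refine huniq w.1 h _ _ (isRoot_conj (hzz1 w.1 h w.2)) ?_
    rw [← map_pow (starRingEnd ℂ), ← hzz2 w.1 h w.2, map_pow]
    rfl
  -- the deviations
  have hdev : ∀ w z, F w = some z → ∀ σ : ℂ ≃+* ℂ,
      (a : ℝ) * dev Y σ w = Y.a * (2 * (- Real.logb p ‖ν.symm (σ z.1)‖) - a) := by
    intro w z hz σ
    obtain ⟨h, hz'⟩ := hF3 w z hz
    have h1 := congrArg (fun x => Real.logb p ‖ν.symm (σ x)‖) (hzz2 w.1 h w.2)
    simp only [map_pow, norm_pow, Real.logb_pow] at h1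
    have h2 : ((Y.a : ℝ)) * s w.1 h = a * t w.1 h := by exact_mod_cast hst w.1 h
    have hs0 : (s w.1 h : ℝ) ≠ 0 := Nat.cast_ne_zero.2 (hs w.1 h).ne'
    have ht0 : (t w.1 h : ℝ) ≠ 0 := Nat.cast_ne_zero.2 (ht w.1 h).ne'
    rw [hz']
    unfold dev
    change (a : ℝ) * (2 * (- Real.logb p ‖ν.symm (σ (w.2 (Y.π w.1)))‖) - Y.a) = _
    set A := Real.logb p ‖ν.symm (σ (w.2 (Y.π w.1)))‖
    set B := Real.logb p ‖ν.symm (σ (zz w.1 h w.2))‖
    have h3 : (a : ℝ) * A = Y.a * B := by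
      apply mul_left_cancel₀ ht0
      calc (t w.1 h : ℝ) * (a * A) = (a * t w.1 h) * A := by ring
        _ = (Y.a * s w.1 h) * A := by rw [h2]
        _ = Y.a * (s w.1 h * A) := by ring
        _ = Y.a * (t w.1 h * B) := by rw [h1]
        _ = t w.1 h * (Y.a * B) := by ring
    linear_combination (-2) * h3
  have hdevinv : ∀ (z : X) (σ : ℂ ≃+* ℂ),
      (2 * (- Real.logb p ‖ν.symm (σ (inv z).1)‖) - (a : ℝ)) =
        - (2 * (- Real.logb p ‖ν.symm (σ z.1)‖) - a) := by
    intro z σ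
    obtain ⟨k, hk, h⟩ := z.2
    obtain ⟨h1, h2⟩ := hroot0 _ (hPS k hk) _ h
    have h3 : ν.symm (σ (inv z).1) * ν.symm (σ z.1) = ν.symm (p : ℂ) ^ a := by
      change ν.symm (σ (((p ^ a : ℕ) : ℂ) / z.1)) * ν.symm (σ z.1) = _
      rw [← map_mul, ← map_mul, div_mul_cancel₀ _ h2, map_natCast, ← map_pow]
      push_cast
      rfl
    have h4 := congrArg (fun x => Real.logb p ‖x‖) h3
    simp only [norm_mul, norm_pow, norm_symm_p] at h4
    have h5 : ‖ν.symm (σ z.1)‖ ≠ 0 := by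
      rw [norm_ne_zero_iff]
      exact (_root_.map_ne_zero _).2 ((_root_.map_ne_zero _).2 h2)
    have h6 : ‖ν.symm (σ (inv z).1)‖ ≠ 0 := by
      intro h6
      rw [norm_eq_zero] at h6
      rw [h6, zero_mul] at h3
      have h7 : ν.symm (p : ℂ) ≠ 0 := (_root_.map_ne_zero _).2 (Nat.cast_ne_zero.2 hp.out.ne_zero)
      exact pow_ne_zero a h7 h3.symm
    rw [Real.logb_mul h6 h5, Real.logb_pow, Real.logb_inv, Real.logb_self_eq_one hp1] at h4
    linarith
  -- the relation
  let κ : Type := {Q : ℤ[X] // ∃ k, ∃ hk : ¬ ss k, Q = P k hk}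
  have hκfin : Finite κ := by
    have h1 : Set.Finite {Q : ℤ[X] | ∃ k, ∃ hk : ¬ ss k, Q = P k hk} := by
      have h2 : {Q : ℤ[X] | ∃ k, ∃ hk : ¬ ss k, Q = P k hk} ⊆
          ⋃ k, ⋃ hk : ¬ ss k, {P k hk} := by
        rintro Q ⟨k, hk, h⟩
        exact Set.mem_iUnion.2 ⟨k, Set.mem_iUnion.2 ⟨hk, h⟩⟩
      exact Set.Finite.subset (Set.finite_iUnion fun k => Set.finite_iUnion fun hk =>
        Set.finite_singleton _) h2
    exact h1
  let _ : Fintype κ := Fintype.ofFinite κ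
  let val : X → ℂ := Subtype.val
  let E : X → ℕ := fun z => ∑ w, if F w = some z then e w else 0
  have hbal : ∀ z : X, E z = E (inv z) := by
    obtain ⟨s0, hs0, hrel⟩ := he
    -- a common exponent
    have hn : ∀ k, ∃ n : ℕ, 0 < n ∧ (∀ h : ¬ ss k, n = s k h) ∧
        (ss k → Y.π k ^ (2 * n) = ((p : (Y.X.factor k).E) ^ Y.a) ^ n) := by
      intro k
      by_cases h : ss k
      · obtain ⟨n, hn, h1⟩ := h
        exact ⟨n, hn, fun h => absurd ⟨n, hn, h1⟩ h, fun _ => h1⟩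
      · exact ⟨s k h, hs k h, fun _ => rfl, fun h' => absurd h' h⟩
    choose n hn0 hn1 hn2 using hn
    set N : ℕ := ∏ k, n k with hN
    have hNpos : 0 < N := Finset.prod_pos fun k _ => hn0 k
    have hdvd : ∀ k, n k ∣ N := fun k => Finset.dvd_prod_of_mem _ (Finset.mem_univ k)
    let r : BL.Emb Y → ℂ := fun w => (F w).elim ((p ^ a : ℕ) : ℂ) fun z => z.1 ^ 2
    have hr : ∀ w, BL.eig Y w ^ (2 * N * a) = r w ^ (N * Y.a) := by
      intro w
      obtain ⟨m, hm⟩ := hdvd w.1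
      by_cases h : ss w.1
      · have h1 : r w = ((p ^ a : ℕ) : ℂ) := by
          simp only [r, hF1 w h, Option.elim_none]
        have h2 := congrArg w.2 (hn2 w.1 h)
        rw [map_pow, map_pow, map_pow, map_natCast] at h2
        rw [h1, hm]
        calc BL.eig Y w ^ (2 * (n w.1 * m) * a) = (w.2 (Y.π w.1) ^ (2 * n w.1)) ^ (m * a) := by
              rw [← pow_mul]; congr 1; ring
          _ = (((p : ℂ) ^ Y.a) ^ n w.1) ^ (m * a) := by rw [h2]
          _ = ((p ^ a : ℕ) : ℂ) ^ (n w.1 * m * Y.a) := by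
              push_cast
              rw [← pow_mul, ← pow_mul, ← pow_mul]
              congr 1; ring
      · have h1 : r w = zz w.1 h w.2 ^ 2 := by
          simp only [r, hF2 w h, Option.elim_some]
        rw [h1, hm, hn1 w.1 h]
        calc BL.eig Y w ^ (2 * (s w.1 h * m) * a) =
              (w.2 (Y.π w.1) ^ s w.1 h) ^ (2 * m * a) := by
              rw [← pow_mul]; congr 1; ring
          _ = (zz w.1 h w.2 ^ t w.1 h) ^ (2 * m * a) := by rw [hzz2]
          _ = zz w.1 h w.2 ^ (2 * m * (a * t w.1 h)) := by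
              rw [← pow_mul]; congr 1; ring
          _ = (zz w.1 h w.2 ^ 2) ^ (s w.1 h * m * Y.a) := by
              rw [← hst, ← pow_mul]; congr 1; ring
    set n0 : ℕ := ∑ w, if F w = none then e w else 0 with hn0'
    have hsum : ∑ w, e w = n0 + ∑ z, E z := by
      have h1 : ∀ w, e w = (if F w = none then e w else 0) +
          ∑ z : X, (if F w = some z then e w else 0) := by
        intro w
        rcases hw : F w with _ | z
        · simp
        · simp only [Option.some_inj, reduceCtorEq, if_false, zero_add]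
          rw [Finset.sum_ite_eq Finset.univ z, if_pos (Finset.mem_univ _)]
      calc ∑ w, e w = ∑ w, ((if F w = none then e w else 0) +
          ∑ z : X, (if F w = some z then e w else 0)) := Finset.sum_congr rfl fun w _ => h1 w
        _ = n0 + ∑ z, E z := by
          rw [Finset.sum_add_distrib, Finset.sum_comm]
    have hprodr : ∏ w, r w ^ e w = ((p ^ a : ℕ) : ℂ) ^ n0 * ∏ z : X, z.1 ^ (2 * E z) := by
      have h1 : ∀ w, r w ^ e w = (((p ^ a : ℕ) : ℂ) ^ (if F w = none then e w else 0)) *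
          ∏ z : X, z.1 ^ (2 * (if F w = some z then e w else 0)) := by
        intro w
        rcases hw : F w with _ | z
        · simp [r, hw]
        · simp only [Option.some_inj, reduceCtorEq, if_false, pow_zero, one_mul]
          have h2 : ∀ z' : X, z'.1 ^ (2 * (if z = z' then e w else 0)) =
              if z = z' then z'.1 ^ (2 * e w) else 1 := by
            intro z'
            split_ifs <;> simp
          rw [Finset.prod_congr rfl fun z' _ => h2 z', Finset.prod_ite_eq Finset.univ z,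
            if_pos (Finset.mem_univ _)]
          simp only [r, hw, Option.elim_some]
          rw [← pow_mul]
      rw [Finset.prod_congr rfl fun w _ => h1 w, Finset.prod_mul_distrib, Finset.prod_comm,
        Finset.prod_pow_eq_pow_sum]
      congr 1
      refine Finset.prod_congr rfl fun z _ => ?_
      rw [Finset.prod_pow_eq_pow_sum, ← Finset.mul_sum]
    set R : Multiset ℂ := ∑ z : X, Multiset.replicate (2 * E z) z.1 with hR
    have hRprod : R.prod = ∏ z : X, z.1 ^ (2 * E z) := by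
      rw [hR, Multiset.prod_sum]
      exact Finset.prod_congr rfl fun z _ => Multiset.prod_replicate _ _
    have hcount : ∀ z : X, R.count z.1 = 2 * E z := by
      intro z
      rw [hR, Multiset.count_sum']
      rw [Finset.sum_eq_single z]
      · rw [Multiset.count_replicate, if_pos rfl]
      · intro z' _ hz'
        rw [Multiset.count_replicate, if_neg (fun h => hz' (Subtype.ext h))]
      · intro h
        exact absurd (Finset.mem_univ _) h
    have hrel2 : R.prod ^ (N * Y.a * s0) =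
        (((p ^ a : ℕ) : ℂ) ^ (∑ z, E z)) ^ (N * Y.a * s0) := by
      have h1 : (∏ w, BL.eig Y w ^ e w) ^ (2 * s0 * (N * a)) =
          (∏ w, r w ^ e w) ^ (N * Y.a * s0) := by
        rw [← Finset.prod_pow, ← Finset.prod_pow]
        refine Finset.prod_congr rfl fun w _ => ?_
        calc (BL.eig Y w ^ e w) ^ (2 * s0 * (N * a)) =
            (BL.eig Y w ^ (2 * N * a)) ^ (e w * s0) := by
              rw [← pow_mul, ← pow_mul]; congr 1; ring
          _ = (r w ^ (N * Y.a)) ^ (e w * s0) := by rw [hr]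
          _ = (r w ^ e w) ^ (N * Y.a * s0) := by
              rw [← pow_mul, ← pow_mul]; congr 1; ring
      have h2 : (∏ w, BL.eig Y w ^ e w) ^ (2 * s0 * (N * a)) =
          (((p ^ a : ℕ) : ℂ) ^ (n0 + ∑ z, E z)) ^ (N * Y.a * s0) := by
        rw [pow_mul, hrel, hsum]
        push_cast
        rw [← pow_mul, ← pow_mul, ← pow_mul, ← pow_mul]
        congr 1; ring
      rw [h1, hprodr, ← hRprod, pow_add, mul_pow, mul_pow] at h2
      exact mul_left_cancel₀ (pow_ne_zero _ (pow_ne_zero _ hq0)) h2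
    intro z
    obtain ⟨k, hk, hz⟩ := z.2
    have h1 := hS.bal κ (fun Q => Q.1) Subtype.val_injective
      (fun Q => by
        obtain ⟨k, hk, h⟩ := Q.2
        change Q.1 ∈ S
        rw [h]; exact hPS k hk) R (by
        intro w hw
        rw [hR, Multiset.mem_sum] at hw
        obtain ⟨z', _, hz'⟩ := hw
        have h2 := Multiset.eq_of_mem_replicate hz'
        obtain ⟨k', hk', h3⟩ := z'.2
        exact ⟨⟨P k' hk', k', hk', rfl⟩, by rw [h2]; exact h3⟩) (∑ z, E z) (N * Y.a * s0)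
      (Nat.mul_pos (Nat.mul_pos hNpos Y.pos) hs0) hrel2 ⟨P k hk, k, hk, rfl⟩ z.1 hz
    have h2 := hcount (inv z)
    change R.count (((p ^ a : ℕ) : ℂ) / z.1) = 2 * E (inv z) at h2
    rw [hcount, h2] at h1
    omega
  refine mem_of_symm _ F inv hinv hfix ?_ ?_ ?_ (fun w => (e w : ℤ)) ?_
  · intro w hw
    apply single_mem
    by_contra h
    have h1 := hF2 w h
    rw [hw] at h1
    exact absurd h1 (by simp)
  · intro w w' z hz hz'
    refine pair_mem w w' fun σ => ?_
    have ha0 : (a : ℝ) ≠ 0 := Nat.cast_ne_zero.2 (by omega)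
    apply mul_left_cancel₀ ha0
    rw [mul_zero, mul_add, hdev w z hz, hdev w' (inv z) hz', hdevinv]
    ring
  · intro w z hz
    exact ⟨conjE w, hFc w z hz⟩
  · intro z
    have h1 : ((E z : ℕ) : ℤ) = ((E (inv z) : ℕ) : ℤ) := by rw [hbal z]
    simp only [E] at h1
    push_cast at h1
    exact h1

end Pool.Agent.X296.Prod
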