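import Pool.Agent.X296.Prod.MembersDefs
import Pool.Agent.TH117.GN.Main
import Pool.Agent.TH117.GN.Wt

/-!
# Schemes over finite fields generated by abelian varieties with factors in a given set
-/

open Polynomial

namespace Pool.Agent.X296.Prod

open Pool.Agent.W495.TA Pool.Agent.W495.FM Pool.Agent.TH117 Pool.Agent.TH117.GN

variable {p : ℕ} [Fact p.Prime] {ν : PadicAlgCl p ≃+* ℂ} {a : ℕ} {S : Set ℤ[X]}

theorem powers_self (Y : RedAV p ν) : BL.IsPowersTimesSupersingular Y Y := fun i =>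
  Or.inr ⟨i, RingHom.id _, 1, 1, one_pos, one_pos, rfl, rfl⟩

theorem tb_members (h : ∀ Y : RedAV p ν, OfMembers a S Y → BL.HasElementaryRelations Y)
    {Ω V : Type} [Field Ω] [IsAlgClosed Ω] [CharZero Ω] {T : Homology Ω V} (hT : IsHomology T)
    {X : V} (hX : Generated T (IsAbelianOfMembers ν a S T) X) : TB T X := by
  refine tb_generated hT (fun X hX => ?_) hX
  obtain ⟨Y, C, D, g, h1, hC, hD, hX⟩ := hX
  exact tb_abelian hT hC (tateHolds_elem (h Y h1) (powers_self Y) hC) hD hX

theorem onto_members (h : ∀ Y : RedAV p ν, OfMembers a S Y → BL.HasElementaryRelations Y)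
    {Ω V : Type} [Field Ω] [IsAlgClosed Ω] [CharZero Ω] {T : Homology Ω V} (hT : IsHomology T)
    (hW : HasWeights T) {X : V} (hX : Spread T (Generated T (IsAbelianOfMembers ν a S T)) X)
    (i : ℤ) : IsOnto T X i :=
  onto_spread hT hW (fun _ h1 i => ((tb_members h hT h1).iso hT i).1) hX i

theorem iso_members (h : ∀ Y : RedAV p ν, OfMembers a S Y → BL.HasElementaryRelations Y)
    {Ω V : Type} [Field Ω] [IsAlgClosed Ω] [CharZero Ω] {T : Homology Ω V} (hT : IsHomology T)
    (hW : HasWeights T) {X : V} (hX : Generated T (IsAbelianOfMembers ν a S T) X)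
    {Z U : V} {d : ℤ} (h1 : IsTriple T Z X U) (hZ : HasDimLE T Z d) {i : ℤ} (hi : d ≤ i) :
    IsIso T U i :=
  iso_opened hT hW h1 (onto_of_dim hT hZ hi) ((tb_members h hT hX).iso hT i)

end Pool.Agent.X296.Prod
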