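import Pool.Agent.Y137.SF.Defs2

/-!
# Elementary relations
-/

namespace Pool.Agent.X296.Prod

open Module Pool.Agent.W495.TA Pool.Agent.TH117.BL Pool.Agent.Y137.SF

variable {p : ℕ} [Fact p.Prime] {ν : PadicAlgCl p ≃+* ℂ}

theorem goodS_of_good {Z : RedAV p ν} {S : Set Z.X.I} (h : IsGoodSet Z S) : IsGoodSetS Z S := by
  classical
  rcases h with ⟨h1, h2⟩ | ⟨h1, h2⟩
  · refine Or.inr ⟨?_, fun i hi k hk hexc => ?_⟩
    · convert h1
    · obtain ⟨e1, e2, e3⟩ := hexc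
      refine h2 i hi k hk ?_ ⟨Or.inr ⟨e1, e2⟩, e3⟩
      rintro rfl
      omega
  · exact Or.inl ⟨h1, fun i hi k hk _ _ hN => h2 i hi k hk hN⟩

theorem elementaryS_of_elementary {Z : RedAV p ν} (h : HasElementaryRelations Z) :
    HasElementaryRelationsS Z := by
  intro e he
  refine AddSubgroup.closure_mono ?_ (h e he)
  rintro d ⟨n, h1, h2, h3⟩
  refine ⟨n, h1, ?_, h3⟩
  rcases h2 with h2 | ⟨S, hS, h2⟩ | h2
  · exact Or.inl h2
  · exact Or.inr (Or.inl ⟨S, goodS_of_good hS, h2⟩)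
  · exact Or.inr (Or.inr h2)

end Pool.Agent.X296.Prod
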