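import Pool.Agent.X296.Count.Flip

/-!
# The inertia group at a prime acts by flips of one pair of roots
-/

set_option linter.unusedSectionVars false
set_option linter.style.haveILetI false

namespace Pool.Agent.X296.Prod

open Polynomial NumberField Pool.Agent.W518.DN Pool.Agent.X296.Count

section

variable {L : Type} [Field L] [NumberField L] [IsGalois ℚ L]

/-- **The inertia group at `Q` acts on the roots through flips of one pair.** -/
theorem inertia_flip (l : ℕ) [hl : Fact l.Prime] (Q : Ideal (𝓞 L)) [hQ : Q.IsMaximal]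
    (hlQ : (l : 𝓞 L) ∈ Q) (q : ℕ) (hq : q ≠ 0) (g : ℕ) (h : ℤ[X]) (hm : h.Monic)
    (hd : h.natDegree = g) (hs : (h.map (Int.castRingHom L)).Splits)
    (hPs : ((lift (q : ℤ) g h).map (Int.castRingHom L)).Splits)
    (hl2 : l ≠ 2) (hlq : ¬ l ∣ q) (r : ℤ)
    (hr : (l : ℤ) ^ 2 ∣ r ^ 2 - 4 * q) (h0 : (l : ℤ) ∣ h.eval r)
    (h1 : ¬ (l : ℤ) ^ 2 ∣ h.eval r)
    (hsep : (h.map (Int.castRingHom (ZMod l))).Separable) (hnr : ¬ (l : ℤ) ∣ h.eval (-r)) :
    ∃ π0 : L, ((lift (q : ℤ) g h).map (Int.castRingHom L)).IsRoot π0 ∧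
      (∀ σ ∈ Q.inertia (L ≃ₐ[ℚ] L), ∀ π : L,
        ((lift (q : ℤ) g h).map (Int.castRingHom L)).IsRoot π →
        (π + q / π ≠ π0 + q / π0 → σ π = π)) ∧
      (∀ σ ∈ Q.inertia (L ≃ₐ[ℚ] L), σ π0 = π0 ∨ σ π0 = q / π0) ∧
      ∃ σ ∈ Q.inertia (L ≃ₐ[ℚ] L), σ π0 = q / π0 := by
  classical
  let _ : Field (𝓞 L ⧸ Q) := Ideal.Quotient.field Q
  let f : 𝓞 L →+* (𝓞 L ⧸ Q) := Ideal.Quotient.mk Q
  have hfQ : ∀ x : 𝓞 L, f x = 0 ↔ x ∈ Q := fun x => Ideal.Quotient.eq_zero_iff_mem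
  have hchar : CharP (𝓞 L ⧸ Q) l := by
    obtain ⟨c, hc⟩ := CharP.exists (𝓞 L ⧸ Q)
    have h1 : ((l : ℕ) : 𝓞 L ⧸ Q) = 0 := by
      have : f (l : 𝓞 L) = 0 := Ideal.Quotient.eq_zero_iff_mem.2 hlQ
      rwa [map_natCast] at this
    have h2 : c ∣ l := (CharP.cast_eq_zero_iff _ c l).1 h1
    rcases (Nat.dvd_prime hl.out).1 h2 with h3 | h3
    · subst h3
      exact absurd rfl (CharP.char_ne_one (𝓞 L ⧸ Q) 1)
    · subst h3; exact hc
  let j : ZMod l →+* (𝓞 L ⧸ Q) := ZMod.castHom dvd_rfl _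
  have hint0 : ∀ n : ℤ, ((n : ℤ) : 𝓞 L ⧸ Q) = 0 ↔ (l : ℤ) ∣ n := fun n =>
    CharP.intCast_eq_zero_iff _ l n
  have hfn : ∀ n : ℤ, f (n : 𝓞 L) = ((n : ℤ) : 𝓞 L ⧸ Q) := fun n => map_intCast f n
  have hlZ : Prime (l : ℤ) := Nat.prime_iff_prime_int.1 hl.out
  -- `l` does not divide `r`
  have hlr : ¬ (l : ℤ) ∣ r := by
    intro hlr
    have e1 : (l : ℤ) ∣ 4 * q := by
      have e2 : (l : ℤ) ∣ r ^ 2 - 4 * q := (dvd_pow_self _ two_ne_zero).trans hr
      have e3 : (l : ℤ) ∣ r ^ 2 := (hlr.trans (dvd_pow_self _ two_ne_zero))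
      have := dvd_sub e3 e2
      simpa using this
    rcases hlZ.dvd_or_dvd e1 with e2 | e2
    · have e3 : (l : ℤ) ∣ 2 ^ 2 := by simpa using e2
      have e4 := hlZ.dvd_of_dvd_pow e3
      have e5 : l ∣ 2 := by exact_mod_cast e4
      exact hl2 ((Nat.prime_dvd_prime_iff_eq hl.out Nat.prime_two).1 e5)
    · exact hlq (by exact_mod_cast e2)
  have hl2' : ¬ (l : ℤ) ∣ 2 := by
    intro e4
    have e5 : l ∣ 2 := by exact_mod_cast e4
    exact hl2 ((Nat.prime_dvd_prime_iff_eq hl.out Nat.prime_two).1 e5)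
  -- roots
  obtain ⟨R, hRL, hRk⟩ := roots_reduction h hm hs f
  have hnodup : (R.map f).Nodup := by
    rw [← hRk]
    have e1 : h.map (Int.castRingHom (𝓞 L ⧸ Q)) = (h.map (Int.castRingHom (ZMod l))).map j := by
      rw [Polynomial.map_map]; congr 1; exact RingHom.ext_int _ _
    rw [e1]
    exact nodup_roots (hsep.map)
  have hinj : ∀ a ∈ R, ∀ b ∈ R, f a = f b → a = b := fun a ha b hb hab =>
    Multiset.inj_on_of_nodup_map hnodup a ha b hb hab
  have hRnodup : R.Nodup := Multiset.Nodup.of_map f hnodup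
  have hmemR : ∀ b : 𝓞 L, b ∈ R ↔ (h.map (Int.castRingHom L)).IsRoot (b : L) := by
    intro b
    rw [← mem_roots (hm.map _).ne_zero, ← hRL, Multiset.mem_map]
    constructor
    · intro hb; exact ⟨b, hb, rfl⟩
    · rintro ⟨b', hb', e⟩
      rwa [RingOfIntegers.coe_injective e] at hb'
  have hevk : ∀ n : ℤ, (h.map (Int.castRingHom (𝓞 L ⧸ Q))).eval (n : 𝓞 L ⧸ Q) =
      ((h.eval n : ℤ) : 𝓞 L ⧸ Q) := by
    intro n
    have := eval_intCast_map (Int.castRingHom (𝓞 L ⧸ Q)) h n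
    rw [this]; simp
  obtain ⟨b0, hb0, hb0r⟩ : ∃ b0 ∈ R, f b0 = (r : 𝓞 L ⧸ Q) := by
    have : (r : 𝓞 L ⧸ Q) ∈ R.map f := by
      rw [← hRk, mem_roots (hm.map _).ne_zero, IsRoot.def, hevk, hint0]
      exact h0
    exact Multiset.mem_map.1 this
  -- the product formula
  have hprodO : h.map (Int.castRingHom (𝓞 L)) = (R.map fun x => X - C x).prod := by
    apply map_injective (algebraMap (𝓞 L) L) (RingOfIntegers.coe_injective)
    rw [Polynomial.map_map, Polynomial.map_multiset_prod, Multiset.map_map]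
    have h2 : (algebraMap (𝓞 L) L).comp (Int.castRingHom (𝓞 L)) = Int.castRingHom L :=
      RingHom.ext_int _ _
    rw [h2, hs.eq_prod_roots, (hm.map _).leadingCoeff, C_1, one_mul, ← hRL, Multiset.map_map]
    congr 1
    refine Multiset.map_congr rfl fun x _ => ?_
    simp
  set c : 𝓞 L := ((R.erase b0).map fun b => (r : 𝓞 L) - b).prod with hc
  have hfac : ((h.eval r : ℤ) : 𝓞 L) = ((r : 𝓞 L) - b0) * c := by
    have e1 : (h.map (Int.castRingHom (𝓞 L))).eval (r : 𝓞 L) = ((h.eval r : ℤ) : 𝓞 L) := by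
      have := eval_intCast_map (Int.castRingHom (𝓞 L)) h r
      rw [this]; simp
    rw [← e1, hprodO, eval_multiset_prod, Multiset.map_map]
    have e2 : (R.map ((fun p => eval (r : 𝓞 L) p) ∘ fun x => X - C x)) =
        R.map fun b => (r : 𝓞 L) - b := by
      refine Multiset.map_congr rfl fun x _ => ?_
      simp
    rw [e2, ← Multiset.cons_erase hb0, Multiset.map_cons, Multiset.prod_cons]
  have hcQ : c ∉ Q := by
    intro hcon
    rw [← hfQ, hc, map_multiset_prod, Multiset.prod_eq_zero_iff, Multiset.map_map] at hcon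
    obtain ⟨b, hb, hb'⟩ := Multiset.mem_map.1 hcon
    simp only [Function.comp_apply, map_sub] at hb'
    have e1 : f b = f b0 := by
      rw [hb0r, ← sub_eq_zero.1 hb', hfn]
    have e2 := (hRnodup.mem_erase_iff).1 hb
    exact e2.1 (hinj b e2.2 b0 hb0 e1)
  -- the inertia group fixes the roots of `h`
  have hIn : ∀ σ ∈ Q.inertia (L ≃ₐ[ℚ] L), ∀ x : 𝓞 L, ∃ x' : 𝓞 L, (x' : L) = σ (x : L) ∧
      f x' = f x := by
    intro σ hσ x
    refine ⟨σ • x, rfl, ?_⟩
    have := hσ x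
    exact Ideal.Quotient.eq.2 this
  have hfixb : ∀ σ ∈ Q.inertia (L ≃ₐ[ℚ] L), ∀ b ∈ R, σ (b : L) = b := by
    intro σ hσ b hb
    obtain ⟨b', hb', hfb'⟩ := hIn σ hσ b
    have e1 : (h.map (Int.castRingHom L)).IsRoot (b' : L) := by
      rw [hb']
      have h2 : (h.map (Int.castRingHom L)) = (h.map (Int.castRingHom L)).map (σ : L →+* L) := by
        rw [Polynomial.map_map]; congr 1; exact RingHom.ext_int _ _
      rw [h2]
      exact ((hmemR b).1 hb).map
    have e2 := hinj b' ((hmemR b').2 e1) b hb hfb'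
    rw [← hb', e2]
  have hPm : (lift (q : ℤ) g h).Monic := (lift_monic _ _ _ hm hd).1
  have hint : ∀ x : L, ((lift (q : ℤ) g h).map (Int.castRingHom L)).IsRoot x →
      ∃ x' : 𝓞 L, (x' : L) = x := by
    intro x hx
    have : IsIntegral ℤ x := by
      refine ⟨_, hPm, ?_⟩
      rw [IsRoot.def, eval_map] at hx
      have h0 : algebraMap ℤ L = Int.castRingHom L := RingHom.ext_int _ _
      rw [h0]; exact hx
    exact ⟨⟨x, this⟩, rfl⟩
  -- the data of a root
  have hdata : ∀ π : L, ((lift (q : ℤ) g h).map (Int.castRingHom L)).IsRoot π →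
      π ≠ 0 ∧ ∃ a a' b : 𝓞 L, (a : L) = π ∧ (a' : L) = q / π ∧ (b : L) = π + q / π ∧
        b ∈ R ∧ a + a' = b ∧ a * a' = (q : 𝓞 L) := by
    intro π hπ
    obtain ⟨hπ0, hπ', hy⟩ := root_symm hm hd hq hπ
    obtain ⟨a, ha⟩ := hint _ hπ
    obtain ⟨a', ha'⟩ := hint _ hπ'
    have hbL : ((a + a' : 𝓞 L) : L) = π + q / π := by
      rw [show ((a + a' : 𝓞 L) : L) = (a : L) + (a' : L) from rfl, ha, ha']
    refine ⟨hπ0, a, a', a + a', ha, ha', hbL, ?_, rfl, ?_⟩
    · rw [hmemR, hbL]; exact hy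
    · apply RingOfIntegers.ext
      rw [show ((a * a' : 𝓞 L) : L) = (a : L) * (a' : L) from rfl, ha, ha',
        show (((q : ℕ) : 𝓞 L) : L) = (q : L) from rfl]
      field_simp
  have hσq : ∀ σ : L ≃ₐ[ℚ] L, σ (q : L) = q := fun σ => map_natCast σ q
  -- other pairs are fixed
  have hother : ∀ σ ∈ Q.inertia (L ≃ₐ[ℚ] L), ∀ π : L,
      ((lift (q : ℤ) g h).map (Int.castRingHom L)).IsRoot π → π + q / π ≠ b0 → σ π = π := by
    intro σ hσ π hπ hne
    obtain ⟨hπ0, a, a', b, ha, ha', hb, hbR, hsum, hprod⟩ := hdata π hπ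
    have hσb : σ (π + q / π) = π + q / π := by rw [← hb]; exact hfixb σ hσ b hbR
    have hσπ : σ π = π ∨ σ π = q / π := by
      have h1 : (σ π - π) * (σ π - q / π) = 0 := by
        have h2 : π ^ 2 - (π + q / π) * π + q = 0 := by field_simp; ring
        have h3 := congrArg σ h2
        rw [map_add, map_sub, map_pow, map_mul, hσb, hσq, map_zero] at h3
        have h4 : (σ π - π) * (σ π - q / π) = σ π ^ 2 - (π + q / π) * σ π + q := by
          field_simp; ring
        rw [h4, h3]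
      rcases mul_eq_zero.1 h1 with h2 | h2
      · left; exact sub_eq_zero.1 h2
      · right; exact sub_eq_zero.1 h2
    rcases hσπ with h2 | h2
    · exact h2
    · exfalso
      obtain ⟨a'', ha'', hfa''⟩ := hIn σ hσ a
      have e1 : a'' = a' := by
        apply RingOfIntegers.ext
        rw [ha'', ha, h2, ha']
      rw [e1] at hfa''
      have e2 : f b ^ 2 = 4 * f (q : 𝓞 L) := by
        rw [← hsum, ← hprod, map_add, map_mul, hfa'']; ring
      have e3 : ((r : ℤ) : 𝓞 L ⧸ Q) ^ 2 = 4 * f (q : 𝓞 L) := by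
        have e4 : ((r ^ 2 - 4 * q : ℤ) : 𝓞 L ⧸ Q) = 0 := by
          rw [hint0]
          exact (dvd_pow_self _ two_ne_zero).trans hr
        push_cast at e4
        rw [map_natCast]
        exact sub_eq_zero.1 e4
      have e5 : (f b - r) * (f b + r) = 0 := by
        have : (f b - r) * (f b + r) = f b ^ 2 - (r : 𝓞 L ⧸ Q) ^ 2 := by ring
        rw [this, e2, e3, sub_self]
      rcases mul_eq_zero.1 e5 with e6 | e6
      · have e7 : f b = f b0 := by rw [hb0r]; exact sub_eq_zero.1 e6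
        have e8 := hinj b hbR b0 hb0 e7
        apply hne
        rw [← hb, e8]
      · have e7 : f b = ((-r : ℤ) : 𝓞 L ⧸ Q) := by
          push_cast
          exact eq_neg_of_add_eq_zero_left e6
        have e8 : f b ∈ (h.map (Int.castRingHom (𝓞 L ⧸ Q))).roots := by
          rw [hRk]; exact Multiset.mem_map_of_mem _ hbR
        rw [e7, mem_roots (hm.map _).ne_zero, IsRoot.def, hevk, hint0] at e8
        exact hnr e8
  -- a root above `b0`
  obtain ⟨π0, hπ0r, hπ0b⟩ : ∃ π0 : L, ((lift (q : ℤ) g h).map (Int.castRingHom L)).IsRoot π0 ∧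
      π0 + q / π0 = b0 := by
    obtain ⟨z, hz⟩ := IsAlgClosed.exists_root
      (X ^ 2 - C (algebraMap L (AlgebraicClosure L) b0) * X + C (q : AlgebraicClosure L)) (by
      have : (X ^ 2 - C (algebraMap L (AlgebraicClosure L) b0) * X +
          C (q : AlgebraicClosure L) : (AlgebraicClosure L)[X]).degree = 2 := by
        compute_degree!
      rw [this]; norm_num)
    simp only [IsRoot.def, eval_add, eval_sub, eval_pow, eval_X, eval_mul, eval_C] at hz
    have hqA : (q : AlgebraicClosure L) ≠ 0 := by exact_mod_cast hq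
    have hz0 : z ≠ 0 := by
      rintro rfl
      simp at hz
      exact hq hz
    have hzb : z + q / z = algebraMap L (AlgebraicClosure L) b0 := by
      field_simp
      linear_combination hz
    have hroot : ((lift (q : ℤ) g h).map (Int.castRingHom (AlgebraicClosure L))).IsRoot z := by
      rw [lift_map, IsRoot.def, lift_eval _ _ _ (by rw [hm.natDegree_map, hd]) z hz0]
      have e1 : (Int.castRingHom (AlgebraicClosure L)) (q : ℤ) = (q : AlgebraicClosure L) := by simp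
      rw [e1, hzb]
      have e2 : h.map (Int.castRingHom (AlgebraicClosure L)) =
          (h.map (Int.castRingHom L)).map (algebraMap L (AlgebraicClosure L)) := by
        rw [Polynomial.map_map]
        congr 1
      rw [e2, eval_map_algebraMap, aeval_algebraMap_apply]
      have e3 : aeval (b0 : L) (h.map (Int.castRingHom L)) = 0 := by
        rw [coe_aeval_eq_eval]
        exact (hmemR b0).1 hb0
      rw [e3, map_zero, mul_zero]
    have e1 : (lift (q : ℤ) g h).map (Int.castRingHom (AlgebraicClosure L)) =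
        ((lift (q : ℤ) g h).map (Int.castRingHom L)).map (algebraMap L (AlgebraicClosure L)) := by
      rw [Polynomial.map_map]
      congr 1
    rw [e1] at hroot
    have e3 : z ∈ (((lift (q : ℤ) g h).map (Int.castRingHom L)).map
        (algebraMap L (AlgebraicClosure L))).roots := by
      rw [mem_roots ((hPm.map _).map _).ne_zero]; exact hroot
    rw [hPs.roots_map] at e3
    obtain ⟨π0, hπ0, rfl⟩ := Multiset.mem_map.1 e3
    refine ⟨π0, (mem_roots (hPm.map _).ne_zero).1 hπ0, ?_⟩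
    apply (algebraMap L (AlgebraicClosure L)).injective
    rw [← hzb, map_add, map_div₀, map_natCast]
  obtain ⟨hπ00, a0, a0', b0', ha0, ha0', hb0', hb0'R, hsum, hprod⟩ := hdata π0 hπ0r
  have hbb : b0' = b0 := by
    apply RingOfIntegers.ext
    rw [hb0', hπ0b]
  rw [hbb] at hsum
  have hex : ∃ σ ∈ Q.inertia (L ≃ₐ[ℚ] L), σ π0 ≠ π0 := by
    by_contra hcon
    push Not at hcon
    obtain ⟨n, hn⟩ := h0
    obtain ⟨s, hs'⟩ := hr
    have hln : ¬ (l : ℤ) ∣ n := by
      rintro ⟨t, rfl⟩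
      apply h1
      rw [hn]
      exact ⟨t, by ring⟩
    have hfix0 : ∀ σ ∈ Q.inertia (L ≃ₐ[ℚ] L), σ ((a0 - a0' : 𝓞 L) : L) = ((a0 - a0' : 𝓞 L) : L) := by
      intro σ hσ
      rw [show ((a0 - a0' : 𝓞 L) : L) = (a0 : L) - (a0' : L) from rfl, ha0, ha0', map_sub, map_div₀,
        hσq, hcon σ hσ]
    have hfixc : ∀ σ ∈ Q.inertia (L ≃ₐ[ℚ] L), σ (c : L) = c := by
      intro σ hσ
      have e1 : ((c : 𝓞 L) : L) =
          (Multiset.map (fun b : 𝓞 L => (r : L) - (b : L)) (R.erase b0)).prod := by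
        change algebraMap (𝓞 L) L c = _
        rw [hc, map_multiset_prod, Multiset.map_map]
        congr 1
      rw [e1, map_multiset_prod, Multiset.map_map]
      congr 1
      refine Multiset.map_congr rfl fun b hb => ?_
      simp only [Function.comp_apply, map_sub, map_intCast]
      rw [hfixb σ hσ b (Multiset.mem_of_mem_erase hb)]
    have hfixu : ∀ σ ∈ Q.inertia (L ≃ₐ[ℚ] L),
        σ ((-(n : 𝓞 L) * (b0 + (r : 𝓞 L)) + (l : 𝓞 L) * (s : 𝓞 L) * c : 𝓞 L) : L) =
          ((-(n : 𝓞 L) * (b0 + (r : 𝓞 L)) + (l : 𝓞 L) * (s : 𝓞 L) * c : 𝓞 L) : L) := by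
      intro σ hσ
      have e1 : ((-(n : 𝓞 L) * (b0 + (r : 𝓞 L)) + (l : 𝓞 L) * (s : 𝓞 L) * c : 𝓞 L) : L) =
          -(n : L) * ((b0 : L) + (r : L)) + (l : L) * (s : L) * (c : L) := by
        simp
      rw [e1]
      simp only [map_add, map_mul, map_neg, map_intCast, map_natCast]
      rw [hfixb σ hσ b0 hb0, hfixc σ hσ]
    refine ram_contra Q hlQ (a0 - a0') c _ hfix0 hfixc hfixu hcQ ?_ ?_
    · intro hcon2
      rw [← hfQ] at hcon2
      have e1 : f (l : 𝓞 L) = 0 := (hfQ _).2 hlQ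
      have e2 : f (-(n : 𝓞 L) * (b0 + (r : 𝓞 L)) + (l : 𝓞 L) * (s : 𝓞 L) * c) =
          ((-(n * (2 * r)) : ℤ) : 𝓞 L ⧸ Q) := by
        simp only [map_add, map_mul, map_neg]
        rw [e1, hb0r, hfn, hfn]
        push_cast; ring
      rw [e2, hint0, dvd_neg] at hcon2
      rcases hlZ.dvd_or_dvd hcon2 with e3 | e3
      · exact hln e3
      · rcases hlZ.dvd_or_dvd e3 with e4 | e4
        · exact hl2' e4
        · exact hlr e4
    · have e1 : (a0 - a0') ^ 2 = b0 ^ 2 - 4 * (q : 𝓞 L) := by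
        rw [← hsum, ← hprod]; ring
      have e2 : (r : 𝓞 L) ^ 2 - 4 * (q : 𝓞 L) = (l : 𝓞 L) ^ 2 * (s : 𝓞 L) := by
        have := congrArg (fun z : ℤ => (z : 𝓞 L)) hs'
        push_cast at this
        exact this
      have e3 : ((r : 𝓞 L) - b0) * c = (l : 𝓞 L) * (n : 𝓞 L) := by
        rw [← hfac, hn]; push_cast; ring
      rw [e1]
      linear_combination (-(b0 + (r : 𝓞 L))) * e3 + c * e2
  have hstep : ∀ σ ∈ Q.inertia (L ≃ₐ[ℚ] L), σ π0 = π0 ∨ σ π0 = q / π0 := by
    intro σ hσ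
    have hσb : σ (b0 : L) = b0 := hfixb σ hσ b0 hb0
    have h1 : (σ π0 - π0) * (σ π0 - q / π0) = 0 := by
      have h2 : π0 ^ 2 - (b0 : L) * π0 + q = 0 := by rw [← hπ0b]; field_simp; ring
      have h3 := congrArg σ h2
      rw [map_add, map_sub, map_pow, map_mul, hσb, hσq, map_zero] at h3
      have h4 : (σ π0 - π0) * (σ π0 - q / π0) = σ π0 ^ 2 - (π0 + q / π0) * σ π0 + q := by
        field_simp; ring
      rw [h4, hπ0b, h3]
    rcases mul_eq_zero.1 h1 with h2 | h2
    · left; exact sub_eq_zero.1 h2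
    · right; exact sub_eq_zero.1 h2
  obtain ⟨σ, hσ, hσne⟩ := hex
  refine ⟨π0, hπ0r, ?_, hstep, σ, hσ, (hstep σ hσ).resolve_left hσne⟩
  intro σ hσ π hπ hne
  rw [hπ0b] at hne
  exact hother σ hσ π hπ hne

end

end Pool.Agent.X296.Prod
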