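import Pool.Agent.X296.Prod.Indep
import Pool.Agent.X296.Prod.Flip

/-!
# Multiplicative relations between the roots of several polynomials are balanced
-/

set_option linter.unusedSectionVars false

open Polynomial NumberField Pool.Agent.W518.TC Pool.Agent.W518.DN Pool.Agent.X296.Count

namespace Pool.Agent.X296.Prod

variable {L : Type} [Field L] [NumberField L] [IsGalois ℚ L]

lemma ss_iff {q : ℕ} (hq : (q : L) ≠ 0) (z : L) : SS q z ↔ Tor (z ^ 2 / q) := by
  unfold SS Tor
  refine exists_congr fun t => and_congr_right fun _ => ?_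
  rw [div_pow, div_eq_one_iff_eq (pow_ne_zero _ hq)]

variable {κ : Type} [Fintype κ]

theorem balanced {q : ℕ} {g : κ → ℕ} {h : κ → ℤ[X]} (hq : q ≠ 0) (hm : ∀ i, (h i).Monic)
    (hd : ∀ i, (h i).natDegree = g i)
    (hPirr : ∀ i, Irreducible ((lift (q : ℤ) (g i) (h i)).map (Int.castRingHom ℚ)))
    (hdisj : ∀ i j, i ≠ j → ∀ z : L, ((lift (q : ℤ) (g i) (h i)).map (Int.castRingHom L)).IsRoot z →
      ¬ ((lift (q : ℤ) (g j) (h j)).map (Int.castRingHom L)).IsRoot z)
    (π0 : κ → L) (hroot0 : ∀ i, ((lift (q : ℤ) (g i) (h i)).map (Int.castRingHom L)).IsRoot (π0 i))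
    (hflip : ∀ i, ∃ σ : L ≃ₐ[ℚ] L, σ (π0 i) = q / π0 i ∧
      (∀ k, σ (π0 k) = π0 k ∨ σ (π0 k) = q / π0 k) ∧
      ∀ k (π : L), ((lift (q : ℤ) (g k) (h k)).map (Int.castRingHom L)).IsRoot π →
        π + q / π ≠ π0 k + q / π0 k → σ π = π)
    (hss : ∀ k, ¬ SS q (π0 k))
    (hne : ∀ i j, i ≠ j → (∃ γ : L ≃ₐ[ℚ] L, γ (π0 i) = π0 i ∧ γ (π0 j) ≠ π0 j) ∨
      ∃ γ : L ≃ₐ[ℚ] L, γ (π0 j) = π0 j ∧ γ (π0 i) ≠ π0 i)
    (R : Multiset L)
    (hR : ∀ π ∈ R, (∃ i, ((lift (q : ℤ) (g i) (h i)).map (Int.castRingHom L)).IsRoot π) ∨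
      (π ≠ 0 ∧ SS q π))
    (m s : ℕ) (hs : 0 < s) (hprod : R.prod ^ s = ((q : L) ^ m) ^ s) [DecidableEq L] (i : κ) (π : L)
    (hπ : ((lift (q : ℤ) (g i) (h i)).map (Int.castRingHom L)).IsRoot π) :
    SS q π ∨ R.count π = R.count (q / π) := by
  classical
  have hq0 : (q : L) ≠ 0 := by exact_mod_cast hq
  have hmapq : ∀ σ : L ≃ₐ[ℚ] L, σ (q : L) = q := fun σ => map_natCast σ q
  have h00 : ∀ k, π0 k ≠ 0 := fun k => (root_symm (hm k) (hd k) hq (hroot0 k)).1
  have hcomp : (algebraMap ℚ L).comp (Int.castRingHom ℚ) = Int.castRingHom L :=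
    RingHom.ext_int _ _
  have hmapP : ∀ (ρ : L ≃ₐ[ℚ] L) (j : κ) (z : L),
      ((lift (q : ℤ) (g j) (h j)).map (Int.castRingHom L)).IsRoot z →
      ((lift (q : ℤ) (g j) (h j)).map (Int.castRingHom L)).IsRoot (ρ z) := by
    intro ρ j z hz
    have h2 : ((lift (q : ℤ) (g j) (h j)).map (Int.castRingHom L))
        = ((lift (q : ℤ) (g j) (h j)).map (Int.castRingHom L)).map (ρ : L →+* L) := by
      rw [Polynomial.map_map]; congr 1; exact RingHom.ext_int _ _
    rw [h2]
    exact hz.map
  -- roots with equal trace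
  have htr : ∀ z w : L, z ≠ 0 → w ≠ 0 → z + q / z = w + q / w → z = w ∨ z = q / w := by
    intro z w hz hw hzw
    have h2 : (z - w) * (z - q / w) = 0 := by
      have e2 : (z - w) * (z - q / w) = z ^ 2 - (w + q / w) * z + q := by
        field_simp; ring
      rw [e2, ← hzw]
      field_simp
      ring
    rcases mul_eq_zero.1 h2 with h3 | h3
    · left; exact sub_eq_zero.1 h3
    · right; exact sub_eq_zero.1 h3
  -- the independence theorem applies
  have hindep := indep q hq0 π0 h00 (by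
    intro i
    obtain ⟨σ, h1, h2, h3⟩ := hflip i
    refine ⟨σ, h1, h2, fun k γ => ?_⟩
    by_cases h4 : γ (π0 k) + q / γ (π0 k) = π0 k + q / π0 k
    · rcases htr _ _ ((map_ne_zero γ).2 (h00 k)) (h00 k) h4 with h5 | h5
      · left; exact h5
      · right; left; exact h5
    · right; right
      exact h3 k _ (hmapP γ k _ (hroot0 k)) h4) (fun k => by rw [← ss_iff hq0]; exact hss k) hne
  -- move `π0 i` to `π`
  obtain ⟨hπ0, hπ', hy⟩ := root_symm (hm i) (hd i) hq hπ
  have hPm : ∀ i, (lift (q : ℤ) (g i) (h i)).Monic := fun i =>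
    (lift_monic _ _ _ (hm i) (hd i)).1
  have hmin : ∀ z : L, ((lift (q : ℤ) (g i) (h i)).map (Int.castRingHom L)).IsRoot z →
      minpoly ℚ z = (lift (q : ℤ) (g i) (h i)).map (Int.castRingHom ℚ) := by
    intro z hz
    refine (minpoly.eq_of_irreducible_of_monic (hPirr i) ?_ ((hPm i).map _)).symm
    rw [← eval_map_algebraMap, Polynomial.map_map, hcomp]; exact hz
  obtain ⟨τ, hτ⟩ : ∃ τ : L ≃ₐ[ℚ] L, τ (π0 i) = π := by
    refine minpoly.exists_algEquiv_of_root (K := ℚ) (x := π0 i) (y := π)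
      (Algebra.IsAlgebraic.isAlgebraic π) ?_
    rw [hmin π hπ, ← eval_map_algebraMap, Polynomial.map_map, hcomp]
    exact hroot0 i
  obtain ⟨σ, hσi, hσp, hσo⟩ := hflip i
  -- the multiplicities
  set fl : κ → Prop := fun k => σ (π0 k) = q / π0 k with hfl
  have hns : ∀ k, ¬ SS q (τ (π0 k)) := by
    intro k hk
    rw [ss_iff hq0] at hk
    apply hss k
    rw [ss_iff hq0]
    have h1 := hk.map (τ.symm : L →+* L)
    have h2 : (τ.symm : L →+* L) (τ (π0 k) ^ 2 / q) = π0 k ^ 2 / q := by
      change τ.symm _ = _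
      rw [map_div₀, map_pow, AlgEquiv.symm_apply_apply, hmapq]
    rwa [h2] at h1
  have hne0 : ∀ k, (q : L) / π0 k ≠ π0 k := by
    intro k h
    apply hss k
    refine ⟨1, one_pos, ?_⟩
    rw [div_eq_iff (h00 k)] at h
    rw [pow_one, pow_one, h]; ring
  have hneτ : ∀ k, (q : L) / τ (π0 k) ≠ τ (π0 k) := by
    intro k h
    apply hne0 k
    apply τ.injective
    rw [map_div₀, hmapq]; exact h
  have hτ0 : ∀ k, τ (π0 k) ≠ 0 := fun k => (map_ne_zero τ).2 (h00 k)
  let σ' : L ≃ₐ[ℚ] L := (τ.symm.trans σ).trans τ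
  have hσ'def : ∀ z, σ' z = τ (σ (τ.symm z)) := fun z => rfl
  set f : L → L := fun z => z / σ' z with hf
  set δ : L → κ → ℤ := fun z k => if fl k then
      ((if z = τ (π0 k) then 1 else 0) - (if z = q / τ (π0 k) then 1 else 0)) else 0 with hδ
  -- the factor of one root
  have hfac : ∀ z, ((∃ i, ((lift (q : ℤ) (g i) (h i)).map (Int.castRingHom L)).IsRoot z) ∨
      (z ≠ 0 ∧ SS q z)) → Tor (f z / ∏ k, (τ (π0 k) ^ 2 / q) ^ δ z k) := by
    intro z hz
    by_cases hzz : ∃ k, z = τ (π0 k) ∨ z = q / τ (π0 k)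
    · obtain ⟨k, hk⟩ := hzz
      have hroot : ∀ j, ((lift (q : ℤ) (g j) (h j)).map (Int.castRingHom L)).IsRoot (τ (π0 j)) :=
        fun j => hmapP τ j _ (hroot0 j)
      have hroot' : ∀ j, ((lift (q : ℤ) (g j) (h j)).map (Int.castRingHom L)).IsRoot
          (q / τ (π0 j)) := fun j => (root_symm (hm j) (hd j) hq (hroot j)).2.1
      have hzk : ((lift (q : ℤ) (g k) (h k)).map (Int.castRingHom L)).IsRoot z := by
        rcases hk with rfl | rfl
        · exact hroot k
        · exact hroot' k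
      have hprod1 : ∏ j, (τ (π0 j) ^ 2 / (q : L)) ^ δ z j = (τ (π0 k) ^ 2 / q) ^ δ z k := by
        refine Finset.prod_eq_single k (fun j _ hj => ?_) (fun h => absurd (Finset.mem_univ k) h)
        have h1 : z ≠ τ (π0 j) := by
          rintro rfl
          exact hdisj k j (Ne.symm hj) _ hzk (hroot j)
        have h2 : z ≠ q / τ (π0 j) := by
          rintro rfl
          exact hdisj k j (Ne.symm hj) _ hzk (hroot' j)
        have h3 : δ z j = 0 := by simp [hδ, h1, h2]
        rw [h3, zpow_zero]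
      rw [hprod1]
      have hX : Tor (1 : L) := Tor.one
      have hu0 : τ (π0 k) ^ 2 / (q : L) ≠ 0 := div_ne_zero (pow_ne_zero _ (hτ0 k)) hq0
      have hσ1 : ¬ fl k → σ' (τ (π0 k)) = τ (π0 k) := by
        intro h
        rw [hσ'def, AlgEquiv.symm_apply_apply, (hσp k).resolve_right h]
      have hσ2 : fl k → σ' (τ (π0 k)) = q / τ (π0 k) := by
        intro h
        rw [hσ'def, AlgEquiv.symm_apply_apply]
        rw [show σ (π0 k) = q / π0 k from h, map_div₀, hmapq]
      have h4 : f z / (τ (π0 k) ^ 2 / (q : L)) ^ δ z k = 1 := by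
        by_cases hflk : fl k
        · rcases hk with rfl | rfl
          · have h5 : δ (τ (π0 k)) k = 1 := by
              simp [hδ, hflk, Ne.symm (hneτ k)]
            rw [h5, zpow_one, hf]
            dsimp only
            rw [hσ2 hflk]
            have := hτ0 k
            field_simp
          · have h5 : δ (q / τ (π0 k)) k = -1 := by
              simp [hδ, hflk, hneτ k]
            rw [h5, zpow_neg, zpow_one, hf]
            dsimp only
            rw [map_div₀, hmapq, hσ2 hflk]
            have := hτ0 k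
            field_simp
        · have h5 : δ z k = 0 := by simp [hδ, hflk]
          rw [h5, zpow_zero, div_one, hf]
          dsimp only
          rcases hk with rfl | rfl
          · rw [hσ1 hflk, div_self (hτ0 k)]
          · rw [map_div₀, hmapq, hσ1 hflk, div_self (div_ne_zero hq0 (hτ0 k))]
      rw [h4]; exact hX
    · push Not at hzz
      have h3 : ∀ k, δ z k = 0 := by
        intro k
        simp [hδ, (hzz k).1, (hzz k).2]
      have h4 : ∏ k, (τ (π0 k) ^ 2 / (q : L)) ^ δ z k = 1 :=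
        Finset.prod_eq_one fun k _ => by rw [h3 k, zpow_zero]
      rw [h4, div_one]
      rcases hz with ⟨j, hj⟩ | ⟨hz0, hz1⟩
      · have hz0 := (root_symm (hm j) (hd j) hq hj).1
        have h5 : σ' z = z := by
          rw [hσ'def]
          have h6 : σ (τ.symm z) = τ.symm z := by
            refine hσo j _ (hmapP τ.symm j z hj) ?_
            intro h7
            rcases htr _ _ ((map_ne_zero τ.symm).2 hz0) (h00 j) h7 with h8 | h8
            · apply (hzz j).1
              rw [← h8, AlgEquiv.apply_symm_apply]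
            · apply (hzz j).2
              have := congrArg τ h8
              rw [AlgEquiv.apply_symm_apply, map_div₀, hmapq] at this
              exact this
          rw [h6, AlgEquiv.apply_symm_apply]
        rw [hf]
        dsimp only
        rw [h5, div_self hz0]
        exact Tor.one
      · rw [ss_iff hq0] at hz1
        have h5 := hz1.div (hz1.map (σ' : L →+* L))
        have h6 : z ^ 2 / q / (σ' : L →+* L) (z ^ 2 / q) = (f z) ^ 2 := by
          change _ / σ' _ = _
          have h7 : σ' z ≠ 0 := (map_ne_zero σ').2 hz0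
          rw [map_div₀, map_pow, hmapq, hf]
          dsimp only
          field_simp
        rw [h6] at h5
        obtain ⟨n, hn, h7⟩ := h5
        exact ⟨2 * n, by positivity, by rw [pow_mul]; exact h7⟩
  -- all of `R`
  set c : Multiset L → κ → ℤ := fun R k => if fl k then
      ((R.count (τ (π0 k)) : ℤ) - R.count (q / τ (π0 k))) else 0 with hc
  have hall : ∀ R : Multiset L, (∀ z ∈ R,
      (∃ i, ((lift (q : ℤ) (g i) (h i)).map (Int.castRingHom L)).IsRoot z) ∨ (z ≠ 0 ∧ SS q z)) →
      Tor ((R.prod / σ' R.prod) / ∏ k, (τ (π0 k) ^ 2 / q) ^ c R k) := by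
    intro R
    induction R using Multiset.induction_on with
    | empty =>
      intro _
      have h1 : ∀ k, c 0 k = 0 := fun k => by simp [hc]
      simp only [h1, zpow_zero, Finset.prod_const_one, Multiset.prod_zero, map_one, div_one]
      exact Tor.one
    | cons z R ih =>
      intro hzR
      have h1 := hfac z (hzR z (Multiset.mem_cons_self _ _))
      have h2 := ih fun w hw => hzR w (Multiset.mem_cons_of_mem hw)
      have h3 := h1.mul h2
      have h4 : ∀ k, c (z ::ₘ R) k = δ z k + c R k := by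
        intro k
        have hcc : ∀ x : L, ((Multiset.count x (z ::ₘ R) : ℕ) : ℤ) =
            (if z = x then 1 else 0) + (Multiset.count x R : ℕ) := by
          intro x
          rw [Multiset.count_cons]
          by_cases hx : z = x
          · rw [if_pos hx, if_pos hx.symm]; push_cast; ring
          · rw [if_neg hx, if_neg (Ne.symm hx)]; push_cast; ring
        by_cases hk : fl k
        · simp only [hc, hδ, if_pos hk, hcc]; ring
        · simp only [hc, hδ, if_neg hk]; ring
      have hu0 : ∀ k, τ (π0 k) ^ 2 / (q : L) ≠ 0 := fun k =>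
        div_ne_zero (pow_ne_zero _ (hτ0 k)) hq0
      have h5 : ∏ k, (τ (π0 k) ^ 2 / (q : L)) ^ c (z ::ₘ R) k =
          (∏ k, (τ (π0 k) ^ 2 / (q : L)) ^ δ z k) * ∏ k, (τ (π0 k) ^ 2 / (q : L)) ^ c R k := by
        rw [← Finset.prod_mul_distrib]
        refine Finset.prod_congr rfl fun k _ => ?_
        rw [h4, zpow_add₀ (hu0 k)]
      have h6 : (z ::ₘ R).prod / σ' (z ::ₘ R).prod / ∏ k, (τ (π0 k) ^ 2 / (q : L)) ^ c (z ::ₘ R) k
          = (f z / ∏ k, (τ (π0 k) ^ 2 / q) ^ δ z k) *
            (R.prod / σ' R.prod / ∏ k, (τ (π0 k) ^ 2 / q) ^ c R k) := by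
        rw [h5, Multiset.prod_cons, map_mul, hf]
        dsimp only
        rw [mul_div_mul_comm, mul_div_mul_comm]
      rw [h6]; exact h3
  have hT1 : Tor (R.prod / (q : L) ^ m) := by
    refine ⟨s, hs, ?_⟩
    rw [div_pow, hprod, div_self (pow_ne_zero _ (pow_ne_zero _ hq0))]
  have hT2 : Tor (R.prod / σ' R.prod) := by
    have h1 := hT1.div (hT1.map (σ' : L →+* L))
    have h2 : R.prod / (q : L) ^ m / (σ' : L →+* L) (R.prod / (q : L) ^ m) =
        R.prod / σ' R.prod := by
      change _ / σ' _ = _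
      rw [map_div₀, map_pow, hmapq]
      have := pow_ne_zero m hq0
      rw [div_div_div_cancel_right₀ this]
    rwa [h2] at h1
  have hT3 : Tor (∏ k, (τ (π0 k) ^ 2 / (q : L)) ^ c R k) := by
    have h1 := hT2.div (hall R hR)
    have h2 : R.prod / σ' R.prod ≠ 0 := by
      obtain ⟨n, hn, h3⟩ := hT2
      intro h4
      rw [h4, zero_pow hn.ne'] at h3
      exact zero_ne_one h3
    have h3 : R.prod / σ' R.prod / (R.prod / σ' R.prod / ∏ k, (τ (π0 k) ^ 2 / (q : L)) ^ c R k) =
        ∏ k, (τ (π0 k) ^ 2 / (q : L)) ^ c R k := by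
      rw [div_div_cancel₀ h2]
    rwa [h3] at h1
  have hT4 : Tor (∏ k, (π0 k ^ 2 / (q : L)) ^ c R k) := by
    have h1 := hT3.map (τ.symm : L →+* L)
    have h2 : (τ.symm : L →+* L) (∏ k, (τ (π0 k) ^ 2 / (q : L)) ^ c R k) =
        ∏ k, (π0 k ^ 2 / (q : L)) ^ c R k := by
      change τ.symm _ = _
      rw [map_prod]
      refine Finset.prod_congr rfl fun k _ => ?_
      rw [map_zpow₀, map_div₀, map_pow, AlgEquiv.symm_apply_apply, hmapq]
    rwa [h2] at h1
  have hc0 := hindep _ (c R) rfl hT4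
  right
  have h1 := congrFun hc0 i
  have h2 : fl i := hσi
  simp only [hc, h2, if_true, Pi.zero_apply, hτ] at h1
  have h3 : (R.count π : ℤ) = R.count ((q : L) / π) := by linarith
  exact_mod_cast h3

end Pool.Agent.X296.Prod
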