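import Pool.Agent.X296.Prod.Main

/-!
# Balanced relations between complex roots
-/

open Polynomial NumberField

namespace Pool.Agent.X296.Prod

open Pool.Agent.W518.DN Pool.Agent.W518.TC Pool.Agent.X296.Count

/-- A multiset of images is the image of a multiset. -/
lemma exists_lift {A B : Type} (f : A → B) (T : A → Prop) (R : Multiset B)
    (h : ∀ z ∈ R, ∃ x, T x ∧ f x = z) : ∃ R' : Multiset A, R'.map f = R ∧ ∀ x ∈ R', T x := by
  induction R using Multiset.induction_on with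
  | empty => exact ⟨0, rfl, fun x hx => absurd hx (Multiset.notMem_zero x)⟩
  | cons z R ih =>
    obtain ⟨x, hx, rfl⟩ := h z (Multiset.mem_cons_self _ _)
    obtain ⟨R', h1, h2⟩ := ih fun w hw => h w (Multiset.mem_cons_of_mem hw)
    refine ⟨x ::ₘ R', by rw [Multiset.map_cons, h1], fun y hy => ?_⟩
    rcases Multiset.mem_cons.1 hy with rfl | hy
    · exact hx
    · exact h2 y hy

open IntermediateField in
/-- **Balanced relations, complex version.** -/
theorem balanced_complex {κ : Type} [Fintype κ] (p : ℕ) [hp : Fact p.Prime] (a : ℕ) (g : κ → ℕ)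
    (h : κ → ℤ[X]) (hm : ∀ i, (h i).Monic) (hd : ∀ i, (h i).natDegree = g i)
    (hPirr : ∀ i, Irreducible (lift ((p ^ a : ℕ) : ℤ) (g i) (h i)))
    (hord : ∀ i, ∀ z : ℂ, ((lift ((p ^ a : ℕ) : ℤ) (g i) (h i)).map (Int.castRingHom ℂ)).IsRoot z →
      ∀ n : ℕ, 0 < n → z ^ (2 * n) ≠ ((p ^ a : ℕ) : ℂ) ^ n)
    (l : ℕ) [hl : Fact l.Prime] (hl2 : l ≠ 2) (hlq : ¬ l ∣ p ^ a) (r : ℤ)
    (hr : (l : ℤ) ^ 2 ∣ r ^ 2 - 4 * (p ^ a : ℕ)) (h0 : ∀ i, (l : ℤ) ∣ (h i).eval r)
    (h1 : ∀ i, ¬ (l : ℤ) ^ 2 ∣ (h i).eval r)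
    (hsep : ∀ i, ((h i).map (Int.castRingHom (ZMod l))).Separable)
    (hnr : ∀ i, ¬ (l : ℤ) ∣ (h i).eval (-r))
    (hne : ∀ i j, i ≠ j → ∀ z w : ℂ,
      ((lift ((p ^ a : ℕ) : ℤ) (g i) (h i)).map (Int.castRingHom ℂ)).IsRoot z →
      ((lift ((p ^ a : ℕ) : ℤ) (g j) (h j)).map (Int.castRingHom ℂ)).IsRoot w → ℚ⟮z⟯ ≠ ℚ⟮w⟯)
    [DecidableEq ℂ] (R : Multiset ℂ)
    (hR : ∀ z ∈ R, ∃ i, ((lift ((p ^ a : ℕ) : ℤ) (g i) (h i)).map (Int.castRingHom ℂ)).IsRoot z)
    (m s : ℕ) (hs : 0 < s) (hprod : R.prod ^ s = (((p ^ a : ℕ) : ℂ) ^ m) ^ s) (i : κ) (z : ℂ)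
    (hz : ((lift ((p ^ a : ℕ) : ℤ) (g i) (h i)).map (Int.castRingHom ℂ)).IsRoot z) :
    R.count z = R.count (((p ^ a : ℕ) : ℂ) / z) := by
  classical
  have hq : p ^ a ≠ 0 := pow_ne_zero _ hp.out.ne_zero
  have hPm : ∀ i, (lift ((p ^ a : ℕ) : ℤ) (g i) (h i)).Monic := fun i =>
    (lift_monic _ _ _ (hm i) (hd i)).1
  set f : ℤ[X] := ∏ i, (lift ((p ^ a : ℕ) : ℤ) (g i) (h i) * h i) with hf
  have hfm : f.Monic := monic_prod_of_monic _ _ fun i _ => (hPm i).mul (hm i)
  set PQ : ℚ[X] := f.map (Int.castRingHom ℚ) with hPQ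
  have hLN : NumberField PQ.SplittingField :=
    { to_charZero := charZero_of_injective_algebraMap (algebraMap ℚ PQ.SplittingField).injective
      to_finiteDimensional := inferInstance }
  have hsf : IsSplittingField ℚ PQ.SplittingField PQ := Polynomial.IsSplittingField.splittingField PQ
  have hnormal : Normal ℚ PQ.SplittingField := Normal.of_isSplittingField PQ
  have hGal : IsGalois ℚ PQ.SplittingField := ⟨⟩
  have hsplit : (f.map (Int.castRingHom PQ.SplittingField)).Splits := by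
    have h1 := SplittingField.splits PQ
    convert h1 using 1
    rw [hPQ, Polynomial.map_map]; congr 1
  have hf0 : f.map (Int.castRingHom PQ.SplittingField) ≠ 0 := (hfm.map _).ne_zero
  have hsub : ∀ i, ((lift ((p ^ a : ℕ) : ℤ) (g i) (h i) * h i).map
      (Int.castRingHom PQ.SplittingField)).Splits := by
    intro i
    refine hsplit.of_dvd hf0 (Polynomial.map_dvd _ ?_)
    exact (Finset.dvd_prod_of_mem (fun i => lift ((p ^ a : ℕ) : ℤ) (g i) (h i) * h i)
      (Finset.mem_univ i))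
  have hPs : ∀ i, ((lift ((p ^ a : ℕ) : ℤ) (g i) (h i)).map
      (Int.castRingHom PQ.SplittingField)).Splits := fun i =>
    (hsub i).of_dvd (((hPm i).mul (hm i)).map _).ne_zero (Polynomial.map_dvd _ (dvd_mul_right _ _))
  have hhs : ∀ i, ((h i).map (Int.castRingHom PQ.SplittingField)).Splits := fun i =>
    (hsub i).of_dvd (((hPm i).mul (hm i)).map _).ne_zero (Polynomial.map_dvd _ (dvd_mul_left _ _))
  let φ : PQ.SplittingField →ₐ[ℚ] ℂ := IsAlgClosed.lift
  have hφinj : Function.Injective φ := φ.toRingHom.injective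
  have hmapφ : ∀ (i : κ) (z : PQ.SplittingField),
      ((lift ((p ^ a : ℕ) : ℤ) (g i) (h i)).map (Int.castRingHom PQ.SplittingField)).IsRoot z →
      ((lift ((p ^ a : ℕ) : ℤ) (g i) (h i)).map (Int.castRingHom ℂ)).IsRoot (φ z) := by
    intro i z hz
    have h1 : (lift ((p ^ a : ℕ) : ℤ) (g i) (h i)).map (Int.castRingHom ℂ) =
        ((lift ((p ^ a : ℕ) : ℤ) (g i) (h i)).map (Int.castRingHom PQ.SplittingField)).map
        (φ : PQ.SplittingField →+* ℂ) := by
      rw [Polynomial.map_map]; congr 1; exact RingHom.ext_int _ _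
    rw [h1]; exact hz.map
  have hpre : ∀ (i : κ) (z : ℂ),
      ((lift ((p ^ a : ℕ) : ℤ) (g i) (h i)).map (Int.castRingHom ℂ)).IsRoot z →
      ∃ x : PQ.SplittingField, ((lift ((p ^ a : ℕ) : ℤ) (g i) (h i)).map
        (Int.castRingHom PQ.SplittingField)).IsRoot x ∧ φ x = z := by
    intro i x hx
    have e1 : (lift ((p ^ a : ℕ) : ℤ) (g i) (h i)).map (Int.castRingHom ℂ) =
        ((lift ((p ^ a : ℕ) : ℤ) (g i) (h i)).map
          (Int.castRingHom PQ.SplittingField)).map (φ : PQ.SplittingField →+* ℂ) := by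
      rw [Polynomial.map_map]; congr 1; exact RingHom.ext_int _ _
    have e2 : x ∈ (((lift ((p ^ a : ℕ) : ℤ) (g i) (h i)).map
        (Int.castRingHom PQ.SplittingField)).map (φ : PQ.SplittingField →+* ℂ)).roots := by
      rw [mem_roots (((hPm i).map _).map _).ne_zero, ← e1]; exact hx
    rw [(hPs i).roots_map] at e2
    obtain ⟨x', hx', e3⟩ := Multiset.mem_map.1 e2
    exact ⟨x', (mem_roots ((hPm i).map _).ne_zero).1 hx', e3⟩
  obtain ⟨Q, hQ, hlQ, -, -⟩ := exists_frob PQ.SplittingField l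
  have hfl := fun i => inertia_flip l Q hlQ (p ^ a) hq (g i) (h i) (hm i) (hd i) (hhs i) (hPs i)
    hl2 hlq r hr (h0 i) (h1 i) (hsep i) (hnr i)
  choose π0 hroot0 hother hpair σ hσQ hσ using hfl
  obtain ⟨R', hR', hR'root⟩ := exists_lift (φ : PQ.SplittingField → ℂ)
    (fun x => ∃ i, ((lift ((p ^ a : ℕ) : ℤ) (g i) (h i)).map
        (Int.castRingHom PQ.SplittingField)).IsRoot x) R (by
      intro z hz
      obtain ⟨i, hi⟩ := hR z hz
      obtain ⟨x, hx, hxz⟩ := hpre i z hi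
      exact ⟨x, ⟨i, hx⟩, hxz⟩)
  obtain ⟨x, hx, rfl⟩ := hpre i z hz
  have hprod' : R'.prod ^ s = (((p ^ a : ℕ) : PQ.SplittingField) ^ m) ^ s := by
    apply hφinj
    rw [map_pow, map_pow, map_pow, map_natCast, ← hprod, ← hR', map_multiset_prod]
  have hnss : ∀ (k : κ) (x : PQ.SplittingField), ((lift ((p ^ a : ℕ) : ℤ) (g k) (h k)).map
        (Int.castRingHom PQ.SplittingField)).IsRoot x → ¬ SS (p ^ a) x := by
    rintro k x hx ⟨t, ht, h3⟩
    apply hord k _ (hmapφ k _ hx) t ht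
    have h4 := congrArg φ h3
    rw [map_pow, map_pow, map_pow, map_natCast, ← pow_mul] at h4
    exact h4
  have key := balanced (L := PQ.SplittingField) hq hm hd (by
      intro i
      exact (IsPrimitive.Int.irreducible_iff_irreducible_map_cast (hPm i).isPrimitive).1 (hPirr i))
    (by
      intro i j hij z hz hz'
      exact hne i j hij _ _ (hmapφ i z hz) (hmapφ j z hz') rfl) π0 hroot0 (by
      intro i
      exact ⟨σ i, hσ i, fun k => hpair k (σ i) (hσQ i), fun k π hπ hne =>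
        hother k (σ i) (hσQ i) π hπ hne⟩) (fun k => hnss k _ (hroot0 k)) (by
      intro i j hij
      exact exists_sep φ _ _ (hne i j hij _ _ (hmapφ i _ (hroot0 i)) (hmapφ j _ (hroot0 j))))
    R' (fun x hx => Or.inl (hR'root x hx)) m s hs hprod' i x hx
  have h2 := key.resolve_left (hnss i x hx)
  have h3 : (((p ^ a : ℕ) : ℂ) / φ x) = φ (((p ^ a : ℕ) : PQ.SplittingField) / x) := by
    rw [map_div₀, map_natCast]
  rw [h3, ← hR', Multiset.count_map_eq_count' _ _ hφinj, Multiset.count_map_eq_count' _ _ hφinj]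
  exact h2

/-- A set of Frobenius polynomials without exotic relations. -/
structure GoodSet (p : ℕ) [Fact p.Prime] (a : ℕ) (S : Set ℤ[X]) : Prop where
  good : ∀ P ∈ S, ∃ g, IsGoodPoly p a g P
  nss : ∀ P ∈ S, ∀ z : ℂ, (P.map (Int.castRingHom ℂ)).IsRoot z → ∀ n : ℕ, 0 < n →
    z ^ (2 * n) ≠ ((p ^ a : ℕ) : ℂ) ^ n
  sep : ∀ P ∈ S, ∀ P' ∈ S, P ≠ P' → ¬ Rel P P'
  tate : ∀ (κ : Type) [Fintype κ] (P : κ → ℤ[X]), Function.Injective P → (∀ i, P i ∈ S) →
    TateGenerated p a P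
  bal : ∀ (κ : Type) [Fintype κ] (P : κ → ℤ[X]), Function.Injective P → (∀ i, P i ∈ S) →
    ∀ [DecidableEq ℂ] (R : Multiset ℂ),
      (∀ z ∈ R, ∃ i, ((P i).map (Int.castRingHom ℂ)).IsRoot z) → ∀ m s : ℕ, 0 < s →
      R.prod ^ s = (((p ^ a : ℕ) : ℂ) ^ m) ^ s → ∀ (i : κ) (z : ℂ),
      ((P i).map (Int.castRingHom ℂ)).IsRoot z → R.count z = R.count (((p ^ a : ℕ) : ℂ) / z)

/-- **Main theorem, with the balanced relations.** -/
theorem main_good (p : ℕ) [hp : Fact p.Prime] (a : ℕ) (ha : 1 ≤ a) :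
    ∃ (C : ℝ) (g0 : ℕ) (S : ℕ → Finset ℤ[X]),
      (∀ g, ∀ P ∈ S g, IsGoodPoly p a g P) ∧
      (∀ g ≥ g0, ((p : ℝ) ^ a) ^ ((g : ℝ) ^ 2 / 4 - C * (g * Real.log g)) ≤ (S g).card) ∧
      GoodSet p a {P | ∃ g, P ∈ S g} := by
  classical
  obtain ⟨l, r, hl, hl2, hlq, hr, hfam⟩ := exists_family2 p a ha
  haveI : Fact l.Prime := ⟨hl⟩
  obtain ⟨C1, g1, hmain⟩ := main_of p a ha (Pred := fun g P => IsGoodPoly p a g P ∧
    ∃ h, FlipData (p ^ a) l r g P h) (by
      intro Q hQ1 hQ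
      have : Q = Real.sqrt ((p : ℝ) ^ a) := by
        rw [← hQ, Real.sqrt_sq (by linarith)]
      rw [this]; exact hfam)
  -- the thinned sets
  have hthin : ∀ g, ∃ S' : Finset ℤ[X], (∀ P ∈ S', IsGoodPoly p a g P ∧
      ∃ h, FlipData (p ^ a) l r g P h) ∧ (∀ P ∈ S', 1 ≤ g) ∧
      (∀ P ∈ S', ∀ P' ∈ S', P ≠ P' → ¬ Rel P P') ∧
      (max g1 3 ≤ g → ((p : ℝ) ^ a) ^ ((g : ℝ) ^ 2 / 4 - C1 * (g * Real.log g)) ≤
        S'.card * (((4 * p ^ a + 3) ^ 2) ^ (2 * g) : ℕ)) := by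
    intro g
    by_cases hg : max g1 3 ≤ g
    · have hg1 : 1 ≤ g := by omega
      obtain ⟨S0, hS0, hcard⟩ := hmain g (by omega)
      obtain ⟨S', hS', hpair, hcard'⟩ := exists_thin S0 (((4 * p ^ a + 3) ^ 2) ^ (2 * g)) (by
        intro P hP T hT hTR
        refine le_trans (Finset.card_le_card ?_) (card_rel hg1 S0 (fun P hP => (hS0 P hP).1) hP)
        intro P' hP'
        exact Finset.mem_filter.2 ⟨hT hP', hTR P' hP'⟩) (by
        intro P hP
        obtain ⟨z, hz⟩ := exists_root' hg1 (hS0 P hP).1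
        exact ⟨z, z, hz, hz, rfl⟩)
      refine ⟨S', fun P hP => hS0 P (hS' hP), fun _ _ => hg1, hpair, fun _ => ?_⟩
      refine hcard.trans ?_
      exact_mod_cast hcard'
    · exact ⟨∅, by simp, by simp, by simp, fun h => absurd h hg⟩
  choose S hSgood hS1 hSpair hScard using hthin
  have hrel : ∀ g g', ∀ P ∈ S g, ∀ P' ∈ S g', P ≠ P' → ¬ Rel P P' := by
    intro g g' P hP P' hP' hne hR
    have := rel_deg (hSgood g P hP).1 (hSgood g' P' hP').1 hR
    subst this
    exact hSpair g P hP P' hP' hne hR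
  set q : ℝ := (p : ℝ) ^ a with hqdef
  have hq1 : 1 < q := by
    have : (1 : ℝ) < p := by exact_mod_cast hp.out.one_lt
    exact one_lt_pow₀ this (by omega)
  have hq0 : 0 < q := by linarith
  have hlogq : 0 < Real.log q := Real.log_pos hq1
  set C2 : ℝ := 4 * Real.log (4 * q + 3) / Real.log q with hC2
  have hnss : ∀ P ∈ {P | ∃ g, P ∈ S g}, ∀ z : ℂ, (P.map (Int.castRingHom ℂ)).IsRoot z →
      ∀ n : ℕ, 0 < n → z ^ (2 * n) ≠ ((p ^ a : ℕ) : ℂ) ^ n := by
    rintro P ⟨g, hg⟩ z hz n hn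
    have hgood := (hSgood g P hg).1
    exact not_ss ha (hS1 g P hg) hgood.frob.monic hgood.deg hgood.irr hgood.ord hz hn
  refine ⟨C1 + C2, max g1 3, S, fun g P hP => (hSgood g P hP).1, ?_,
    fun P ⟨g, hg⟩ => ⟨g, (hSgood g P hg).1⟩, hnss, fun P ⟨g, hg⟩ P' ⟨g', hg'⟩ hne =>
      hrel g g' P hg P' hg' hne, ?_, ?_⟩
  · intro g hg
    have h1 := hScard g hg
    have hg3 : (3 : ℝ) ≤ g := by exact_mod_cast (le_trans (le_max_right _ _) hg)
    have hlog : 1 ≤ Real.log g := by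
      rw [Real.le_log_iff_exp_le (by linarith)]
      have := Real.exp_one_lt_d9
      linarith
    have h2 : ((((4 * p ^ a + 3) ^ 2) ^ (2 * g) : ℕ) : ℝ) ≤ q ^ (C2 * (g * Real.log g)) := by
      have e1 : ((((4 * p ^ a + 3) ^ 2) ^ (2 * g) : ℕ) : ℝ) = (4 * q + 3) ^ (4 * g) := by
        push_cast
        rw [← pow_mul]
        congr 1
        ring
      rw [e1, Real.rpow_def_of_pos hq0, ← Real.exp_log (show (0 : ℝ) < (4 * q + 3) ^ (4 * g) by
        positivity), Real.exp_le_exp, Real.log_pow]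
      have e2 : Real.log q * (C2 * (g * Real.log g)) =
          4 * Real.log (4 * q + 3) * (g * Real.log g) := by
        rw [hC2]; field_simp
      rw [e2]
      have e3 : 0 ≤ Real.log (4 * q + 3) := Real.log_nonneg (by linarith)
      have e4 : (g : ℝ) ≤ g * Real.log g := by nlinarith
      push_cast
      nlinarith
    have h3 : q ^ ((g : ℝ) ^ 2 / 4 - (C1 + C2) * (g * Real.log g)) =
        q ^ ((g : ℝ) ^ 2 / 4 - C1 * (g * Real.log g)) / q ^ (C2 * (g * Real.log g)) := by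
      rw [← Real.rpow_sub hq0]
      congr 1; ring
    rw [h3, div_le_iff₀ (Real.rpow_pos_of_pos hq0 _)]
    exact h1.trans (mul_le_mul_of_nonneg_left h2 (Nat.cast_nonneg _))
  · intro κ _ P hP hPS
    have hPS' := hPS
    choose g hg using hPS
    choose h hh using fun i => (hSgood (g i) (P i) (hg i)).2
    have e : P = fun i => lift ((p ^ a : ℕ) : ℤ) (g i) (h i) := funext fun i => (hh i).eq
    have key := tate_of_family p a g h (fun i => (hh i).monic) (fun i => (hh i).deg) (by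
        intro i
        rw [← (hh i).eq]
        exact (hSgood (g i) (P i) (hg i)).1.irr) (by
        intro i z hz n hn
        rw [← (hh i).eq] at hz
        exact hnss (P i) (hPS' i) z hz n hn) l hl2 hlq r hr (fun i => (hh i).flip1)
      (fun i => (hh i).flip2) (fun i => (hh i).flip3) (fun i => (hh i).flip4) (by
        intro i j hij z w hz hw hzw
        rw [← (hh i).eq] at hz
        rw [← (hh j).eq] at hw
        exact hrel (g i) (g j) (P i) (hg i) (P j) (hg j) (fun h => hij (hP h)) ⟨z, w, hz, hw, hzw⟩)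
    rw [e]; exact key
  · intro κ _ P hP hPS _ R hR m s hs hprod i z hz
    have hPS' := hPS
    choose g hg using hPS
    choose h hh using fun i => (hSgood (g i) (P i) (hg i)).2
    refine balanced_complex p a g h (fun i => (hh i).monic) (fun i => (hh i).deg) (by
        intro i
        rw [← (hh i).eq]
        exact (hSgood (g i) (P i) (hg i)).1.irr) (by
        intro i z hz n hn
        rw [← (hh i).eq] at hz
        exact hnss (P i) (hPS' i) z hz n hn) l hl2 hlq r hr (fun i => (hh i).flip1)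
      (fun i => (hh i).flip2) (fun i => (hh i).flip3) (fun i => (hh i).flip4) (by
        intro i j hij z w hz hw hzw
        rw [← (hh i).eq] at hz
        rw [← (hh j).eq] at hw
        exact hrel (g i) (g j) (P i) (hg i) (P j) (hg j) (fun h => hij (hP h)) ⟨z, w, hz, hw, hzw⟩)
      R (by
        intro w hw
        obtain ⟨j, hj⟩ := hR w hw
        rw [(hh j).eq] at hj
        exact ⟨j, hj⟩) m s hs hprod i z (by rw [← (hh i).eq]; exact hz)

end Pool.Agent.X296.Prod
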