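import Pool.Agent.X296.Count.Main

/-!
# Counting, for an arbitrary predicate, and the flip data
-/

open Polynomial

namespace Pool.Agent.X296.Prod

open Pool.Agent.W518.DN Pool.Agent.W518.TC Pool.Agent.X296.Count

/-- The predicate holds for all polynomials of the family with given residues and small
coordinates. -/
def HasFamily (p a : ℕ) (Q : ℝ) (Pred : ℕ → ℤ[X] → Prop) : Prop :=
  ∃ N0 k g0 : ℕ, 0 < N0 ∧ (∀ i > k, (N0 : ℝ) * (i * (i + 1)) ≤ Q ^ i) ∧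
    ∀ g ≥ g0, k + 2 ≤ g ∧ ∃ c0 : ℕ → ℤ, ∀ c : ℕ → ℤ,
      (∀ j < g - k, (N0 : ℤ) ∣ c j - c0 j) →
      (∑ j ∈ Finset.range (g - k), |(c j : ℝ)| * Q ^ j < Q ^ g) →
      Pred g (lift ((p ^ a : ℕ) : ℤ) g (near ((p ^ a : ℕ) : ℤ) g (g - k) c))

/-- The data of the flip. -/
structure FlipData (q l : ℕ) (r : ℤ) (g : ℕ) (P h : ℤ[X]) : Prop where
  monic : h.Monic
  deg : h.natDegree = g
  eq : P = lift (q : ℤ) g h
  flip1 : (l : ℤ) ∣ h.eval r
  flip2 : ¬ (l : ℤ) ^ 2 ∣ h.eval r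
  flip3 : (h.map (Int.castRingHom (ZMod l))).Separable
  flip4 : ¬ (l : ℤ) ∣ h.eval (-r)

/-- The family of good polynomials is large. -/
theorem exists_many_of (p : ℕ) [hp : Fact p.Prime] (a : ℕ) {Q : ℝ} (hQ1 : 1 < Q)
    {Pred : ℕ → ℤ[X] → Prop} (hfamily : HasFamily p a Q Pred) :
    ∃ N0 k g0 : ℕ, 0 < N0 ∧ ∀ g ≥ g0, k ≤ g ∧ ∃ S : Finset ℤ[X],
      (∀ P ∈ S, Pred g P) ∧
      Q ^ (∑ j ∈ Finset.range (g - k), (g - j)) ≤ (2 * N0 * ((g : ℝ) + 1) ^ 2) ^ (g - k) * S.card := by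
  classical
  obtain ⟨N0, k, g0, hN0, hgrow, hfam⟩ := hfamily
  refine ⟨N0, k, g0, hN0, fun g hg => ?_⟩
  obtain ⟨hkg, c0, hc0⟩ := hfam g hg
  refine ⟨by omega, ?_⟩
  have hQ0 : 0 < Q := by linarith
  have hN0r : (0 : ℝ) < N0 := by exact_mod_cast hN0
  have hN1 : (1 : ℝ) ≤ N0 := by exact_mod_cast hN0
  set n := g - k with hn
  set M : ℕ → ℕ := fun i => ⌊Q ^ i / (N0 * ((i : ℝ) * (i + 1)))⌋₊ with hM
  set cOf : (Fin n → ℕ) → ℕ → ℤ := fun t j =>
    if hj : j < n then (c0 j) % N0 + N0 * (t ⟨j, hj⟩ : ℤ) else 0 with hcOf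
  set F : (Fin n → ℕ) → ℤ[X] := fun t =>
    lift ((p ^ a : ℕ) : ℤ) g (near ((p ^ a : ℕ) : ℤ) g n (cOf t)) with hF
  set D : Finset (Fin n → ℕ) := Fintype.piFinset (fun j : Fin n => Finset.range (M (g - j)))
    with hD
  have hq0 : p ^ a ≠ 0 := pow_ne_zero _ hp.out.ne_zero
  have hFinj : Function.Injective F := by
    intro t t' htt
    have h1 := lift_inj hq0 (near_natDegree _ (by omega) (Nat.sub_le _ _) _).le
      (near_natDegree _ (by omega) (Nat.sub_le _ _) _).le htt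
    have h2 := near_injective _ _ _ h1
    funext j
    have h3 := h2 j j.2
    simp only [hcOf, j.2, dif_pos] at h3
    have h4 : (N0 : ℤ) * (t j : ℤ) = N0 * (t' j : ℤ) := add_left_cancel h3
    have h5 : (N0 : ℤ) ≠ 0 := by exact_mod_cast hN0.ne'
    exact_mod_cast mul_left_cancel₀ h5 h4
  refine ⟨D.image F, ?_, ?_⟩
  · intro P hP
    obtain ⟨t, ht, rfl⟩ := Finset.mem_image.1 hP
    refine hc0 (cOf t) ?_ ?_
    · intro j hj
      simp only [hcOf, hj, dif_pos]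
      have h1 : (N0 : ℤ) ∣ (c0 j) % N0 - c0 j := ⟨-(c0 j / N0), by rw [Int.emod_def]; ring⟩
      have h2 : (c0 j) % N0 + N0 * (t ⟨j, hj⟩ : ℤ) - c0 j =
          ((c0 j) % N0 - c0 j) + N0 * (t ⟨j, hj⟩ : ℤ) := by ring
      rw [h2]
      exact dvd_add h1 (dvd_mul_right _ _)
    · have hterm : ∀ j ∈ Finset.range n, |(cOf t j : ℝ)| * Q ^ j ≤
          Q ^ g * (1 / (((g - j : ℕ) : ℝ) * (((g - j : ℕ) : ℝ) + 1))) := by
        intro j hj
        have hj' := Finset.mem_range.1 hj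
        have ht' := Fintype.mem_piFinset.1 ht ⟨j, hj'⟩
        rw [Finset.mem_range] at ht'
        simp only at ht'
        have h0 : 0 ≤ (c0 j) % N0 := Int.emod_nonneg _ (by exact_mod_cast hN0.ne')
        have h1 : (c0 j) % N0 < N0 := Int.emod_lt_of_pos _ (by exact_mod_cast hN0)
        have h2 : cOf t j = (c0 j) % N0 + N0 * (t ⟨j, hj'⟩ : ℤ) := by
          simp only [hcOf, hj', dif_pos]
        have h3 : 0 ≤ cOf t j := by rw [h2]; positivity
        have h4 : cOf t j ≤ N0 * (M (g - j) : ℤ) := by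
          rw [h2]
          have h5 : ((t ⟨j, hj'⟩ : ℤ) + 1) ≤ (M (g - j) : ℤ) := by exact_mod_cast ht'
          have h6 : (N0 : ℤ) * ((t ⟨j, hj'⟩ : ℤ) + 1) ≤ N0 * (M (g - j) : ℤ) :=
            mul_le_mul_of_nonneg_left h5 (by positivity)
          linarith
        have h7 : (cOf t j : ℝ) ≤ N0 * (M (g - j) : ℝ) := by exact_mod_cast h4
        have hi0 : 0 < g - j := by omega
        have hi1 : (0 : ℝ) < ((g - j : ℕ) : ℝ) := by exact_mod_cast hi0
        have h8 : (M (g - j) : ℝ) ≤ Q ^ (g - j) /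
            (N0 * (((g - j : ℕ) : ℝ) * (((g - j : ℕ) : ℝ) + 1))) :=
          Nat.floor_le (by positivity)
        have h9 : (N0 : ℝ) * (M (g - j) : ℝ) ≤ Q ^ (g - j) /
            (((g - j : ℕ) : ℝ) * (((g - j : ℕ) : ℝ) + 1)) := by
          have := mul_le_mul_of_nonneg_left h8 hN0r.le
          refine this.trans (le_of_eq ?_)
          field_simp
        rw [abs_of_nonneg (by exact_mod_cast h3)]
        calc (cOf t j : ℝ) * Q ^ j ≤ Q ^ (g - j) /
            (((g - j : ℕ) : ℝ) * (((g - j : ℕ) : ℝ) + 1)) * Q ^ j :=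
              mul_le_mul_of_nonneg_right (h7.trans h9) (by positivity)
          _ = Q ^ g * (1 / (((g - j : ℕ) : ℝ) * (((g - j : ℕ) : ℝ) + 1))) := by
              have : Q ^ g = Q ^ (g - j) * Q ^ j := by rw [← pow_add]; congr 1; omega
              rw [this]; ring
      refine (Finset.sum_le_sum hterm).trans_lt ?_
      rw [← Finset.mul_sum, telescope (by omega)]
      have h1 : (1 : ℝ) / (((g - n : ℕ) : ℝ) + 1) ≤ 1 := by
        rw [div_le_one (by positivity)]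
        have : (0 : ℝ) ≤ ((g - n : ℕ) : ℝ) := Nat.cast_nonneg _
        linarith
      have h2 : (0 : ℝ) < 1 / ((g : ℝ) + 1) := by positivity
      have h3 : 0 < Q ^ g := by positivity
      nlinarith
  · rw [Finset.card_image_of_injective _ hFinj, hD, Fintype.card_piFinset]
    simp only [Finset.card_range]
    rw [← Finset.prod_pow_eq_pow_sum, Nat.cast_prod]
    have e1 : (2 * (N0 : ℝ) * ((g : ℝ) + 1) ^ 2) ^ n =
        ∏ j : Fin n, (2 * (N0 : ℝ) * ((g : ℝ) + 1) ^ 2) := by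
      rw [Finset.prod_const, Finset.card_univ, Fintype.card_fin]
    rw [e1, ← Finset.prod_mul_distrib, ← Fin.prod_univ_eq_prod_range (fun j => Q ^ (g - j)) n]
    refine Finset.prod_le_prod (fun j _ => by positivity) fun j _ => ?_
    have hj := j.2
    have hi : k < g - j := by omega
    have hi1 : (1 : ℝ) ≤ ((g - (j : ℕ) : ℕ) : ℝ) := by exact_mod_cast (by omega : 1 ≤ g - (j : ℕ))
    have hile : ((g - (j : ℕ) : ℕ) : ℝ) ≤ g := by exact_mod_cast Nat.sub_le _ _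
    have h1 := hgrow _ hi
    set x : ℝ := ((g - (j : ℕ) : ℕ) : ℝ) with hx
    have hpos : (0 : ℝ) < N0 * (x * (x + 1)) := by positivity
    have h2 : 1 ≤ Q ^ (g - (j : ℕ)) / (N0 * (x * (x + 1))) := by
      rw [le_div_iff₀ hpos, one_mul]; exact h1
    have h3 := Nat.div_two_lt_floor h2
    have h4 : Q ^ (g - (j : ℕ)) / (N0 * (x * (x + 1))) ≤ 2 * (M (g - j) : ℝ) := by
      have : (M (g - (j : ℕ)) : ℝ) = (⌊Q ^ (g - (j : ℕ)) / (N0 * (x * (x + 1)))⌋₊ : ℝ) := rfl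
      rw [this]; linarith
    rw [div_le_iff₀ hpos] at h4
    refine h4.trans ?_
    have h5 : x * (x + 1) ≤ ((g : ℝ) + 1) ^ 2 := by nlinarith
    have h6 : (0 : ℝ) ≤ (M (g - (j : ℕ)) : ℝ) := Nat.cast_nonneg _
    calc 2 * (M (g - (j : ℕ)) : ℝ) * (N0 * (x * (x + 1)))
        = (2 * (M (g - (j : ℕ)) : ℝ) * N0) * (x * (x + 1)) := by ring
      _ ≤ (2 * (M (g - (j : ℕ)) : ℝ) * N0) * ((g : ℝ) + 1) ^ 2 :=
          mul_le_mul_of_nonneg_left h5 (by positivity)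
      _ = 2 * N0 * ((g : ℝ) + 1) ^ 2 * (M (g - (j : ℕ)) : ℝ) := by ring

/-- **Counting theorem.** -/
theorem main_of (p : ℕ) [hp : Fact p.Prime] (a : ℕ) (ha : 1 ≤ a) {Pred : ℕ → ℤ[X] → Prop}
    (hfamily : ∀ Q : ℝ, 1 < Q → Q ^ 2 = (p : ℝ) ^ a → HasFamily p a Q Pred) :
    ∃ (C : ℝ) (g0 : ℕ), ∀ g ≥ g0, ∃ S : Finset ℤ[X], (∀ P ∈ S, Pred g P) ∧
      ((p : ℝ) ^ a) ^ ((g : ℝ) ^ 2 / 4 - C * (g * Real.log g)) ≤ S.card := by
  have hp1 : (1 : ℝ) < (p : ℝ) ^ a := by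
    have : (1 : ℝ) < p := by exact_mod_cast hp.out.one_lt
    exact one_lt_pow₀ this (by omega)
  set Q : ℝ := Real.sqrt ((p : ℝ) ^ a) with hQdef
  have hQ : Q ^ 2 = (p : ℝ) ^ a := Real.sq_sqrt (by positivity)
  have hQ1 : 1 < Q := by
    rw [hQdef]; exact (Real.lt_sqrt zero_le_one).2 (by simpa using hp1)
  have hQ0 : 0 < Q := by linarith
  obtain ⟨N0, k, g0, hN0, hmany⟩ := exists_many_of p a hQ1 (hfamily Q hQ1 hQ)
  set L : ℝ := Real.log Q with hL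
  have hL0 : 0 < L := Real.log_pos hQ1
  refine ⟨5 / (2 * L) + 1, max g0 (max (2 * N0 + 2) (k ^ 2 + k + 3)), fun g hg => ?_⟩
  have hga : g0 ≤ g := (le_max_left _ _).trans hg
  have hgb : 2 * N0 + 2 ≤ g := (le_max_left _ _).trans ((le_max_right _ _).trans hg)
  have hgc : k ^ 2 + k + 3 ≤ g := (le_max_right _ _).trans ((le_max_right _ _).trans hg)
  obtain ⟨hkg, S, hS, hcard⟩ := hmany g hga
  refine ⟨S, hS, ?_⟩
  have hgb' : 2 * (N0 : ℝ) + 2 ≤ g := by exact_mod_cast hgb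
  have hgc' : (k : ℝ) ^ 2 + k + 3 ≤ g := by exact_mod_cast hgc
  have hN1 : (1 : ℝ) ≤ N0 := by exact_mod_cast hN0
  have hk0 : (0 : ℝ) ≤ k := Nat.cast_nonneg _
  have hg4 : (4 : ℝ) ≤ g := by linarith
  have hg0 : (0 : ℝ) < g := by linarith
  have hlog1 : 1 ≤ Real.log g := by
    have h1 : Real.exp 1 ≤ g := by
      have := Real.exp_one_lt_d9
      linarith
    rwa [Real.le_log_iff_exp_le hg0]
  set s : ℕ := ∑ j ∈ Finset.range (g - k), (g - j) with hs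
  have hs1 : 4 * (s : ℝ) = 2 * ((g - k) * (g + k + 1)) := by
    have h1 := sum_sub g (g - k) (Nat.sub_le _ _)
    rw [← hs, Nat.cast_sub hkg] at h1
    linear_combination 2 * h1
  have hB : 2 * (N0 : ℝ) * ((g : ℝ) + 1) ^ 2 ≤ (g : ℝ) ^ 5 := by
    have h1 : 2 * (N0 : ℝ) ≤ g := by linarith
    have h2 : ((g : ℝ) + 1) ^ 2 ≤ (g : ℝ) ^ 4 := by
      have h3 : (g : ℝ) + 1 ≤ (g : ℝ) ^ 2 := by nlinarith
      calc ((g : ℝ) + 1) ^ 2 ≤ ((g : ℝ) ^ 2) ^ 2 := pow_le_pow_left₀ (by linarith) h3 2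
        _ = (g : ℝ) ^ 4 := by ring
    calc 2 * (N0 : ℝ) * ((g : ℝ) + 1) ^ 2 ≤ (g : ℝ) * (g : ℝ) ^ 4 :=
          mul_le_mul h1 h2 (by positivity) hg0.le
      _ = (g : ℝ) ^ 5 := by ring
  have hB1 : (1 : ℝ) ≤ 2 * (N0 : ℝ) * ((g : ℝ) + 1) ^ 2 := by nlinarith
  have hBn : (2 * (N0 : ℝ) * ((g : ℝ) + 1) ^ 2) ^ (g - k) ≤
      Real.exp (5 * (g * Real.log g)) := by
    calc (2 * (N0 : ℝ) * ((g : ℝ) + 1) ^ 2) ^ (g - k)
        ≤ (2 * (N0 : ℝ) * ((g : ℝ) + 1) ^ 2) ^ g := pow_le_pow_right₀ hB1 (Nat.sub_le _ _)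
      _ ≤ ((g : ℝ) ^ 5) ^ g := pow_le_pow_left₀ (by linarith) hB g
      _ = Real.exp (5 * (g * Real.log g)) := by
          rw [← pow_mul, ← Real.exp_log (pow_pos hg0 (5 * g)), Real.log_pow]
          push_cast; ring_nf
  have hQexp : ∀ x : ℝ, ((p : ℝ) ^ a) ^ x = Real.exp (2 * L * x) := by
    intro x
    rw [← hQ, ← Real.rpow_natCast Q 2, ← Real.rpow_mul hQ0.le, Real.rpow_def_of_pos hQ0, ← hL]
    congr 1; push_cast; ring
  have hQs : Q ^ s = Real.exp (L * s) := by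
    rw [← Real.rpow_natCast Q s, Real.rpow_def_of_pos hQ0]
  rw [hQexp]
  have h1 : Real.exp (L * s) ≤ Real.exp (5 * (g * Real.log g)) * S.card := by
    rw [← hQs]
    exact hcard.trans (mul_le_mul_of_nonneg_right hBn (Nat.cast_nonneg _))
  have h2 : 2 * L * ((g : ℝ) ^ 2 / 4 - (5 / (2 * L) + 1) * (g * Real.log g)) ≤
      L * s - 5 * (g * Real.log g) := by
    have e1 : 2 * L * ((g : ℝ) ^ 2 / 4 - (5 / (2 * L) + 1) * (g * Real.log g)) =
        L * ((g : ℝ) ^ 2 / 2 - 2 * (g * Real.log g)) - 5 * (g * Real.log g) := by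
      field_simp; ring
    rw [e1]
    have e2 : (g : ℝ) ^ 2 / 2 - 2 * (g * Real.log g) ≤ s := by
      have h3 : (g : ℝ) * 1 ≤ g * Real.log g := mul_le_mul_of_nonneg_left hlog1 hg0.le
      nlinarith
    have e3 := mul_le_mul_of_nonneg_left e2 hL0.le
    linarith
  have h3 : Real.exp (L * s - 5 * (g * Real.log g)) ≤ S.card := by
    rw [Real.exp_sub, div_le_iff₀ (Real.exp_pos _)]
    exact h1.trans_eq (mul_comm _ _)
  exact (Real.exp_le_exp.2 h2).trans h3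


/-- The parameters of the family, with the flip data. -/
theorem exists_family2 (p : ℕ) [hp : Fact p.Prime] (a : ℕ) (ha : 1 ≤ a) :
    ∃ (l : ℕ) (r : ℤ), l.Prime ∧ l ≠ 2 ∧ ¬ l ∣ p ^ a ∧ (l : ℤ) ^ 2 ∣ r ^ 2 - 4 * (p ^ a : ℕ) ∧
      HasFamily p a (Real.sqrt ((p : ℝ) ^ a))
        fun g P => IsGoodPoly p a g P ∧ ∃ h, FlipData (p ^ a) l r g P h := by
  have hp1 : (1 : ℝ) < (p : ℝ) ^ a := by
    have : (1 : ℝ) < p := by exact_mod_cast hp.out.one_lt
    exact one_lt_pow₀ this (by omega)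
  set Q : ℝ := Real.sqrt ((p : ℝ) ^ a) with hQdef
  have hQ : Q ^ 2 = (p : ℝ) ^ a := Real.sq_sqrt (by positivity)
  have hQ1 : 1 < Q := by
    rw [hQdef]; exact (Real.lt_sqrt zero_le_one).2 (by simpa using hp1)
  obtain ⟨l1, hpl1, hl1⟩ := Nat.exists_infinite_primes (p + 1)
  obtain ⟨l3, hl13, hl3⟩ := Nat.exists_infinite_primes (l1 + 1)
  obtain ⟨I, hI⟩ := exists_growth hQ1 (p * l1 ^ 2 * l3)
  have hq2 : 2 ≤ p ^ a := by
    calc 2 ≤ p := hp.out.two_le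
      _ = p ^ 1 := (pow_one p).symm
      _ ≤ p ^ a := Nat.pow_le_pow_right hp.out.pos ha
  obtain ⟨l2, hl2, hMl2, hl2q, r, hr, hlr⟩ := exists_sq_prime (M := I + 5 + l3) hq2 (by omega)
  haveI : Fact l1.Prime := ⟨hl1⟩
  haveI : Fact l2.Prime := ⟨hl2⟩
  haveI : Fact l3.Prime := ⟨hl3⟩
  obtain ⟨k, hk⟩ : ∃ k, l2 = k + 4 := ⟨l2 - 4, by omega⟩
  refine ⟨l2, r, hl2, by omega, hl2q, hr, p * l1 ^ 2 * (l2 ^ 2 * l3), k,
    k + l3 ^ k.factorial + 3, ?_, ?_, ?_⟩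
  · have := hp.out.pos
    have := hl1.pos
    have := hl2.pos
    have := hl3.pos
    positivity
  · intro i hi
    refine le_trans ?_ (hI i (by omega))
    have h1 : (l2 : ℝ) ≤ i + 4 := by
      rw [hk]; push_cast
      have : (k : ℝ) ≤ i := by exact_mod_cast hi.le
      linarith
    have h2 : (l2 : ℝ) ^ 2 ≤ ((i : ℝ) + 4) ^ 2 := pow_le_pow_left₀ (Nat.cast_nonneg _) h1 2
    push_cast
    have h3 : (0 : ℝ) ≤ (p : ℝ) * l1 ^ 2 * l3 := by positivity
    have h4 : (0 : ℝ) ≤ (i : ℝ) * (i + 1) := by positivity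
    calc (p : ℝ) * l1 ^ 2 * (l2 ^ 2 * l3) * (i * (i + 1))
        = (p * l1 ^ 2 * l3) * (l2 : ℝ) ^ 2 * (i * (i + 1)) := by ring
      _ ≤ (p * l1 ^ 2 * l3) * ((i : ℝ) + 4) ^ 2 * (i * (i + 1)) :=
          mul_le_mul_of_nonneg_right (mul_le_mul_of_nonneg_left h2 h3) h4
  · intro g hg
    have hg0 : g ≠ 0 := by omega
    refine ⟨by omega, ?_⟩
    obtain ⟨E, hE, hloc⟩ := exists_target ((p ^ a : ℕ) : ℤ) (p := p) (l1 := l1) (l2 := l2)
      (l3 := l3) (by omega) (by omega) (by omega) (by omega) (by omega) (by omega) (k := k)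
      (g := g) (by omega) (by omega) (by omega) (by omega) hlr
    obtain ⟨c0, hc0⟩ := exists_coords ((p ^ a : ℕ) : ℤ) (g - k) E hE
    refine ⟨c0, fun c hc hsum => ?_⟩
    set h : ℤ[X] := near ((p ^ a : ℕ) : ℤ) g (g - k) c with hh
    have hm : h.Monic := near_monic _ hg0 (Nat.sub_le _ _) c
    have hd : h.natDegree = g := near_natDegree _ hg0 (Nat.sub_le _ _) c
    have hL : Loc p l1 l2 l3 r (g - k) k h := by
      apply hloc
      have e1 : h - (dick ((p ^ a : ℕ) : ℤ) g + E) =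
          ∑ j ∈ Finset.range (g - k), C (c j - c0 j) * bas ((p ^ a : ℕ) : ℤ) j := by
        rw [hh, hc0, near]
        simp only [C_sub, sub_mul, Finset.sum_sub_distrib]
        ring
      rw [e1]
      refine Finset.dvd_sum fun j hj => ?_
      refine dvd_mul_of_dvd_left ?_ _
      obtain ⟨t, ht⟩ := hc j (Finset.mem_range.1 hj)
      have e2 : ((p * l1 ^ 2 * (l2 ^ 2 * l3) : ℕ) : ℤ) = (p : ℤ) * l1 ^ 2 * (l2 ^ 2 * l3) := by
        push_cast; ring
      rw [ht, e2, C_mul (a := (p : ℤ) * l1 ^ 2 * (l2 ^ 2 * l3))]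
      exact Dvd.intro _ rfl
    obtain ⟨S, hS⟩ := hL.small
    have hirrZ : Irreducible h := irreducible_of_local hm hd (by omega) (m := g - k) (k := k)
      (by omega) hL.eis hL.eis0 hS
    have hirr : Irreducible (h.map (Int.castRingHom ℚ)) :=
      (IsPrimitive.Int.irreducible_iff_irreducible_map_cast hm.isPrimitive).1 hirrZ
    obtain ⟨y, hy, hyr, hyb⟩ := near_roots (Q := Q) (by linarith) (q := ((p ^ a : ℕ) : ℤ))
      (by rw [hQ]; push_cast; rfl) (g := g) (n := g - k) (by omega) c hsum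
    have hfrob : IsFrobPoly p a (lift ((p ^ a : ℕ) : ℤ) g h) := by
      have := isFrobPoly_of_real (p := p) (a := a) hm hd hL.ord y hy hyr (by
        intro i
        have := hyb i
        push_cast at this
        exact this)
      push_cast
      exact this
    have hPirr := lift_irreducible hm hd (by omega) hirr hfrob
    have hord := lift_coeff_mid (p := p) ha hd hL.ord
    exact ⟨⟨hfrob, (lift_monic _ _ _ hm hd).2, hPirr, hord,
      tate_of_flip p a g h hm hd hirr l2 (by omega) hl2q r hr hL.flip1 hL.flip2 hL.flip3 hL.flip4,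
      fun n hn z w hz hw hzw => pow_inj p a g ha (by omega) h hm hd hirr hPirr hord l2 (by omega)
        hl2q r hr hL.flip1 hL.flip2 hL.flip3 hL.flip4 n hn z w hz hw hzw,
      gtc_of_flip p a g ha h hm hd hirr hL.ord l2 (by omega) hl2q r hr hL.flip1 hL.flip2 hL.flip3
        hL.flip4⟩, h, hm, hd, rfl, hL.flip1, hL.flip2, hL.flip3, hL.flip4⟩

end Pool.Agent.X296.Prod
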