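import Pool.Agent.X296.Prod.MembersDefs
import Pool.Agent.X296.Count.Abs
import Pool.Agent.W547.LD.Field
import Pool.Agent.W902.TB.Gen
import Pool.Agent.W518.TC.Defs

/-!
# The simple ordinary abelian varieties as reductions of abelian varieties of CM type
-/

open Polynomial NumberField IntermediateField

namespace Pool.Agent.X296.Prod

open Pool.Agent.W518.TC Pool.Agent.W495.TA Pool.Agent.W547.KB Pool.Agent.W547.LD
  Pool.Agent.H204R3.CM

section ordinary

variable {p : ℕ} [hp : Fact p.Prime]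

lemma norm_sum_lt_one (M : Multiset (PadicAlgCl p)) (h : ∀ x ∈ M, ‖x‖ < 1) : ‖M.sum‖ < 1 := by
  induction M using Multiset.induction_on with
  | empty => simp
  | cons x M ih =>
    rw [Multiset.sum_cons]
    exact lt_of_le_of_lt (PadicAlgCl.isNonarchimedean p x M.sum)
      (max_lt (h x (Multiset.mem_cons_self _ _))
        (ih fun y hy => h y (Multiset.mem_cons_of_mem hy)))

lemma norm_q_lt {a : ℕ} (ha : 1 ≤ a) : ‖((p ^ a : ℕ) : PadicAlgCl p)‖ < 1 := by
  push_cast
  rw [norm_pow]
  exact pow_lt_one₀ (norm_nonneg _) W902.TB.norm_p (by omega)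

lemma norm_q_pos {a : ℕ} : 0 < ‖((p ^ a : ℕ) : PadicAlgCl p)‖ := by
  rw [norm_pos_iff]
  exact Nat.cast_ne_zero.2 (pow_ne_zero _ hp.out.ne_zero)

lemma dvd_of_norm_lt {n : ℤ} (h : ‖((n : ℤ) : PadicAlgCl p)‖ < 1) : (p : ℤ) ∣ n := by
  have h2 : ((n : ℤ) : PadicAlgCl p) = (((n : ℤ) : ℚ_[p]) : PadicAlgCl p) := by
    rw [map_intCast]
  rw [h2, PadicAlgCl.norm_extends] at h
  exact Padic.norm_intCast_lt_one_iff.1 h

/-- The roots of an ordinary polynomial are units or `q` times units. -/
theorem norm_root_ordinary {a g : ℕ} (ha : 1 ≤ a) {P : ℤ[X]} (hPm : P.Monic)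
    (hPd : P.natDegree = 2 * g) (hsep : (P.map (Int.castRingHom (PadicAlgCl p))).Separable)
    (hinv : ∀ x : PadicAlgCl p, (P.map (Int.castRingHom (PadicAlgCl p))).IsRoot x → x ≠ 0 ∧
      (P.map (Int.castRingHom (PadicAlgCl p))).IsRoot (((p ^ a : ℕ) : PadicAlgCl p) / x))
    (hord : ¬ (p : ℤ) ∣ P.coeff g) {x : PadicAlgCl p}
    (hx : (P.map (Int.castRingHom (PadicAlgCl p))).IsRoot x) :
    ‖x‖ = 1 ∨ ‖x‖ = ‖((p ^ a : ℕ) : PadicAlgCl p)‖ := by
  classical
  set Q := P.map (Int.castRingHom (PadicAlgCl p)) with hQ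
  have hQm : Q.Monic := hPm.map _
  have hQ0 : Q ≠ 0 := hQm.ne_zero
  have hQd : Q.natDegree = 2 * g := by rw [hQ, hPm.natDegree_map, hPd]
  have hcard : Q.roots.card = Q.natDegree := splits_iff_card_roots.1 (IsAlgClosed.splits Q)
  have hnodup : Q.roots.Nodup := nodup_roots hsep
  have hle : ∀ y, Q.IsRoot y → ‖y‖ ≤ 1 := by
    intro y hy
    refine W902.TB.norm_le_one_of_isIntegral y ⟨P, hPm, ?_⟩
    rw [IsRoot.def, hQ, eval_map] at hy
    exact hy
  set A := Q.roots.toFinset.filter (fun y => ‖y‖ = 1) with hA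
  set B := Q.roots.toFinset.filter (fun y => ¬ ‖y‖ = 1) with hB
  have hAB : A.card + B.card = 2 * g := by
    rw [hA, hB, Finset.card_filter_add_card_filter_not, Multiset.toFinset_card_of_nodup hnodup,
      hcard, hQd]
  set q : PadicAlgCl p := ((p ^ a : ℕ) : PadicAlgCl p) with hq
  have hmem : ∀ y, y ∈ Q.roots.toFinset ↔ Q.IsRoot y := fun y => by
    rw [Multiset.mem_toFinset, mem_roots hQ0]
  have hq1 : ‖q‖ < 1 := norm_q_lt ha
  have hq0 : q ≠ 0 := norm_pos_iff.1 norm_q_pos
  have hmap : ∀ y ∈ A, q / y ∈ B := by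
    intro y hy
    rw [hA, Finset.mem_filter, hmem] at hy
    rw [hB, Finset.mem_filter, hmem]
    refine ⟨(hinv y hy.1).2, ?_⟩
    rw [norm_div, hy.2, div_one]
    exact hq1.ne
  have hinj : ∀ y ∈ A, ∀ y' ∈ A, q / y = q / y' → y = y' := by
    intro y hy y' hy' h
    rw [hA, Finset.mem_filter, hmem] at hy hy'
    have h1 := (hinv y hy.1).1
    have h2 := (hinv y' hy'.1).1
    rw [div_eq_div_iff h1 h2] at h
    exact (mul_left_cancel₀ hq0 h).symm
  have hAleB : A.card ≤ B.card :=
    Finset.card_le_card_of_injOn (fun y => q / y) hmap (fun y hy y' hy' => hinj y hy y' hy')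
  have hgA : g ≤ A.card := by
    by_contra hlt
    push Not at hlt
    apply hord
    apply dvd_of_norm_lt (p := p)
    have h1 : Q.coeff g = (-1) ^ (Q.natDegree - g) * Q.roots.esymm (Q.natDegree - g) := by
      rw [coeff_eq_esymm_roots_of_card hcard (by omega), hQm.leadingCoeff, one_mul]
    have h2 : Q.coeff g = ((P.coeff g : ℤ) : PadicAlgCl p) := by
      rw [hQ, coeff_map]; rfl
    rw [← h2, h1, norm_mul, norm_pow, norm_neg, norm_one, one_pow, one_mul, Multiset.esymm]
    apply norm_sum_lt_one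
    intro y hy
    rw [Multiset.mem_map] at hy
    obtain ⟨T, hT, rfl⟩ := hy
    rw [Multiset.mem_powersetCard] at hT
    have hTnd : T.Nodup := Multiset.nodup_of_le hT.1 hnodup
    have hTg : T.card = g := by rw [hT.2, hQd]; omega
    have hex : ∃ t ∈ T, ‖t‖ < 1 := by
      by_contra hno
      push Not at hno
      have h3 : T.toFinset ⊆ A := by
        intro t ht
        rw [Multiset.mem_toFinset] at ht
        have h4 : t ∈ Q.roots := Multiset.mem_of_le hT.1 ht
        rw [hA, Finset.mem_filter, Multiset.mem_toFinset]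
        exact ⟨h4, le_antisymm (hle t ((mem_roots hQ0).1 h4)) (hno t ht)⟩
      have h5 := Finset.card_le_card h3
      rw [Multiset.toFinset_card_of_nodup hTnd, hTg] at h5
      omega
    obtain ⟨t, ht, ht1⟩ := hex
    obtain ⟨T', hT'⟩ := Multiset.exists_cons_of_mem ht
    rw [hT', Multiset.prod_cons, norm_mul]
    have h6 : ‖T'.prod‖ ≤ 1 := by
      have h7 : ∀ t ∈ T', ‖t‖ ≤ 1 := by
        intro s hs
        exact hle s ((mem_roots hQ0).1 (Multiset.mem_of_le hT.1 (by
          rw [hT']; exact Multiset.mem_cons_of_mem hs)))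
      clear hT' ht hTg hTnd hT
      induction T' using Multiset.induction_on with
      | empty => simp
      | cons s T' ih =>
        rw [Multiset.prod_cons, norm_mul]
        exact mul_le_one₀ (h7 s (Multiset.mem_cons_self _ _)) (norm_nonneg _)
          (ih fun u hu => h7 u (Multiset.mem_cons_of_mem hu))
    calc ‖t‖ * ‖T'.prod‖ ≤ ‖t‖ * 1 := mul_le_mul_of_nonneg_left h6 (norm_nonneg _)
      _ < 1 := by rw [mul_one]; exact ht1
  by_cases hx1 : ‖x‖ = 1
  · exact Or.inl hx1
  · right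
    have hxB : x ∈ B := by
      rw [hB, Finset.mem_filter, hmem]
      exact ⟨hx, hx1⟩
    have himg : A.image (fun y => q / y) = B := by
      apply Finset.eq_of_subset_of_card_le
      · intro y hy
        rw [Finset.mem_image] at hy
        obtain ⟨u, hu, rfl⟩ := hy
        exact hmap u hu
      · rw [Finset.card_image_of_injOn (fun y hy y' hy' => hinj y hy y' hy')]
        omega
    rw [← himg, Finset.mem_image] at hxB
    obtain ⟨y, hy, rfl⟩ := hxB
    rw [hA, Finset.mem_filter] at hy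
    rw [norm_div, hy.2, div_one]

end ordinary

end Pool.Agent.X296.Prod
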