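import Mathlib
import Pool.Agent.W518.TC.Defs
import Pool.Agent.X296.Prod.MembersDefs

/-!
# Large families of simple abelian varieties over a fixed finite field
-/

namespace Pool.Agent.X296.Prod

open Polynomial IntermediateField Pool.Agent.W518.TC Pool.Agent.W495.TA

/-- `P` is the characteristic polynomial of the Frobenius endomorphism of an absolutely simple
ordinary abelian variety of dimension `g` over the field with `p ^ a` elements (by Honda and Tate
it corresponds to one isogeny class): it satisfies the conditions of Honda and Tate, has degree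
`2 g`, is irreducible, its middle coefficient is prime to `p`, and the `n`-th powers of its
different complex roots are different, for all `n > 0`. -/
structure IsMember (p : ℕ) [Fact p.Prime] (a g : ℕ) (P : ℤ[X]) : Prop where
  frob : IsFrobPoly p a P
  deg : P.natDegree = 2 * g
  irr : Irreducible P
  ord : ¬ (p : ℤ) ∣ P.coeff g
  abs : ∀ n : ℕ, 0 < n → ∀ z w : ℂ, (P.map (Int.castRingHom ℂ)).IsRoot z →
    (P.map (Int.castRingHom ℂ)).IsRoot w → z ^ n = w ^ n → z = w

/-- The sets `S g` consist of Frobenius polynomials of absolutely simple ordinary abelian varieties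
of dimension `g` over the field with `q = p ^ a` elements (so of isogeny classes of such abelian
varieties); the number of elements of `S g` is at least `q ^ (g ^ 2 / 4 - C g log g)` for
`g ≥ g0`; roots of different members of these sets (also of different dimensions) generate different
fields, so the CM fields of different members are not isomorphic; and each member `P` of `S g` is
the Frobenius polynomial of an abelian variety `Y` (in the sense of `RedAV`: the reduction of an
abelian variety of CM type) over the field with `p ^ a` elements, with one factor, whose CM field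
has degree `2 g`. -/
structure IsLargeFamily (p : ℕ) [Fact p.Prime] (a : ℕ) (C : ℝ) (g0 : ℕ)
    (S : ℕ → Finset ℤ[X]) : Prop where
  member : ∀ g, ∀ P ∈ S g, IsMember p a g P
  card : ∀ g ≥ g0, ((p : ℝ) ^ a) ^ ((g : ℝ) ^ 2 / 4 - C * (g * Real.log g)) ≤ (S g).card
  field : ∀ g g', ∀ P ∈ S g, ∀ P' ∈ S g', P ≠ P' →
    ∀ z w : ℂ, (P.map (Int.castRingHom ℂ)).IsRoot z →
      (P'.map (Int.castRingHom ℂ)).IsRoot w → ℚ⟮z⟯ ≠ ℚ⟮w⟯
  exists_av : ∀ (ν : PadicAlgCl p ≃+* ℂ) (g : ℕ), ∀ P ∈ S g, ∃ (Y : RedAV p ν) (i : Y.X.I)
    (φ : (Y.X.factor i).E →+* ℂ), Y.a = a ∧ (∀ k, k = i) ∧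
      (P.map (Int.castRingHom ℂ)).IsRoot (φ (Y.π i)) ∧
      Module.finrank ℚ (Y.X.factor i).E = 2 * g

end Pool.Agent.X296.Prod
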