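import Pool.Agent.X296.Prod.Family

/-!
# The large family, with the Tate classes
-/

open Polynomial NumberField

namespace Pool.Agent.X296.Prod

open Pool.Agent.W518.DN Pool.Agent.W518.TC Pool.Agent.X296.Count Pool.Agent.W495.TA
  Pool.Agent.TH117

/-- **The large family**: all Tate classes on products of powers of members are generated by Tate
classes of degree two, and the relations between Frobenius eigenvalues are elementary. -/
theorem exists_largeFamily_tate (p : ℕ) [hp : Fact p.Prime] (a : ℕ) (ha : 1 ≤ a) :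
    ∃ (C : ℝ) (g0 : ℕ) (S : ℕ → Finset ℤ[X]), IsLargeFamily p a C g0 S ∧
      (∀ (κ : Type) [Fintype κ] (P : κ → ℤ[X]), Function.Injective P →
        (∀ i, ∃ g, P i ∈ S g) → TateGenerated p a P) ∧
      ∀ (ν : PadicAlgCl p ≃+* ℂ) (Y : RedAV p ν), OfMembers a {P | ∃ g, P ∈ S g} Y →
        BL.HasElementaryRelations Y := by
  obtain ⟨C, g0, S, h1, h2, h3⟩ := main_good p a ha
  have hg : ∀ g, ∀ P ∈ S g, 1 ≤ g := by
    intro g P hP
    by_contra h
    have h4 := h1 g P hP
    have h5 : P.natDegree = 0 := by rw [h4.deg]; omega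
    have h6 : P = 1 := eq_one_of_monic_natDegree_zero h4.frob.monic h5
    exact h4.irr.not_isUnit (by rw [h6]; exact isUnit_one)
  refine ⟨C, g0, S, ⟨fun g P hP => ⟨(h1 g P hP).frob, (h1 g P hP).deg, (h1 g P hP).irr,
    (h1 g P hP).ord, (h1 g P hP).abs⟩, h2, fun g g' P hP P' hP' hne z w hz hw hzw =>
      h3.sep P ⟨g, hP⟩ P' ⟨g', hP'⟩ hne ⟨z, w, hz, hw, hzw⟩, fun ν g P hP => ?_⟩,
    fun κ _ P hP hPS => h3.tate κ P hP hPS, fun ν Y hY => elementary_of_members ha h3 hY⟩
  have h4 := h1 g P hP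
  obtain ⟨z, hz⟩ := exists_root' (hg g P hP) h4
  obtain ⟨Y, i, φ, e1, e2, e3, e4⟩ := exists_redAV ν ha (hg g P hP) h4.frob h4.deg h4.irr h4.ord hz
  exact ⟨Y, i, φ, e1, e2, by rw [e3]; exact hz, e4⟩

end Pool.Agent.X296.Prod
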