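import Pool.Agent.X296.Prod.Count2

/-!
# Few Frobenius polynomials belong to one field
-/

open Polynomial IntermediateField

namespace Pool.Agent.X296.Prod

open Pool.Agent.W518.DN Pool.Agent.W518.TC Pool.Agent.X296.Count

/-- An integer all of whose conjugates have absolute value less than one is zero. -/
lemma eq_zero_of_small {K : Type} [Field K] [NumberField K] {x : K} (hx : IsIntegral ℤ x)
    (h : ∀ φ : K →+* ℂ, ‖φ x‖ < 1) : x = 0 := by
  by_contra h0
  obtain ⟨n, hn, h1⟩ := NumberField.Embeddings.pow_eq_one_of_norm_le_one K ℂ h0 hx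
    fun φ => (h φ).le
  obtain ⟨φ⟩ : Nonempty (K →+* ℂ) := inferInstance
  have h2 := congrArg (fun y => ‖φ y‖) h1
  simp only [map_pow, norm_pow, map_one, norm_one] at h2
  have h3 := pow_lt_one₀ (norm_nonneg _) (h φ) hn.ne'
  linarith

/-- The cell of a complex number. -/
noncomputable def cell (z : ℂ) : ℤ × ℤ := (⌊2 * z.re⌋, ⌊2 * z.im⌋)

lemma cell_close {z w : ℂ} (h : cell z = cell w) : ‖z - w‖ < 1 := by
  have h1 : ⌊2 * z.re⌋ = ⌊2 * w.re⌋ := congrArg Prod.fst h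
  have h2 : ⌊2 * z.im⌋ = ⌊2 * w.im⌋ := congrArg Prod.snd h
  have key : ∀ x y : ℝ, ⌊2 * x⌋ = ⌊2 * y⌋ → (x - y) ^ 2 < 1 / 4 := by
    intro x y hxy
    have := Int.abs_sub_lt_one_of_floor_eq_floor hxy
    have h3 : |x - y| < 1 / 2 := by
      have h4 : |2 * x - 2 * y| = 2 * |x - y| := by
        rw [← mul_sub, abs_mul]; norm_num
      rw [h4] at this; linarith
    have h5 := sq_lt_sq' (by linarith [neg_abs_le (x - y), abs_nonneg (x - y)]) h3
    rw [sq_abs] at h5
    linarith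
  have h3 := key _ _ h1
  have h4 := key _ _ h2
  have h5 : ‖z - w‖ ^ 2 < 1 := by
    rw [← Complex.normSq_eq_norm_sq, Complex.normSq_apply, Complex.sub_re, Complex.sub_im]
    nlinarith
  exact lt_of_pow_lt_pow_left₀ 2 zero_le_one (by simpa using h5)

lemma cell_mem {z : ℂ} {q : ℕ} (h : ‖z‖ ^ 2 = q) :
    cell z ∈ (Finset.Icc (-(2 * q + 1 : ℤ)) (2 * q + 1)) ×ˢ
      (Finset.Icc (-(2 * q + 1 : ℤ)) (2 * q + 1)) := by
  have hn : ‖z‖ ≤ q := by
    rcases Nat.eq_zero_or_pos q with h0 | h0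
    · subst h0
      have : ‖z‖ = 0 := by simpa using h
      simp [this]
    · have h1 : (1 : ℝ) ≤ q := by exact_mod_cast h0
      have h2 : ‖z‖ ^ 2 ≤ (q : ℝ) ^ 2 := by rw [h]; nlinarith
      exact (sq_le_sq₀ (norm_nonneg _) (by linarith)).1 h2
  have key : ∀ x : ℝ, |x| ≤ ‖z‖ → ⌊2 * x⌋ ∈ Finset.Icc (-(2 * q + 1 : ℤ)) (2 * q + 1) := by
    intro x hx
    have h1 := abs_le.1 (hx.trans hn)
    rw [Finset.mem_Icc]
    constructor
    · rw [Int.le_floor]; push_cast; linarith [h1.1]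
    · have h2 : (⌊2 * x⌋ : ℝ) ≤ 2 * q + 1 := (Int.floor_le _).trans (by linarith [h1.2])
      exact_mod_cast h2
  rw [Finset.mem_product]
  exact ⟨key _ (Complex.abs_re_le_norm z), key _ (Complex.abs_im_le_norm z)⟩

/-- Two polynomials define the same field. -/
def Rel (P P' : ℤ[X]) : Prop := ∃ z w : ℂ, (P.map (Int.castRingHom ℂ)).IsRoot z ∧
  (P'.map (Int.castRingHom ℂ)).IsRoot w ∧ ℚ⟮z⟯ = ℚ⟮w⟯

lemma Rel.symm {P P' : ℤ[X]} (h : Rel P P') : Rel P' P := by
  obtain ⟨z, w, h1, h2, h3⟩ := h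
  exact ⟨w, z, h2, h1, h3.symm⟩

lemma min_eq {P : ℤ[X]} (hm : P.Monic) (hirr : Irreducible P) {z : ℂ}
    (hz : (P.map (Int.castRingHom ℂ)).IsRoot z) : minpoly ℚ z = P.map (Int.castRingHom ℚ) := by
  have hcomp : (algebraMap ℚ ℂ).comp (Int.castRingHom ℚ) = Int.castRingHom ℂ :=
    RingHom.ext_int _ _
  refine (minpoly.eq_of_irreducible_of_monic
    ((IsPrimitive.Int.irreducible_iff_irreducible_map_cast hm.isPrimitive).1 hirr) ?_
    (hm.map _)).symm
  rw [← eval_map_algebraMap, Polynomial.map_map, hcomp]; exact hz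

lemma int_of_root {P : ℤ[X]} (hm : P.Monic) {z : ℂ}
    (hz : (P.map (Int.castRingHom ℂ)).IsRoot z) : IsIntegral ℤ z := by
  refine ⟨P, hm, ?_⟩
  rw [IsRoot.def, eval_map] at hz
  have h0 : algebraMap ℤ ℂ = Int.castRingHom ℂ := RingHom.ext_int _ _
  rw [h0]; exact hz

/-- Roots move along conjugation. -/
lemma transfer {P P' : ℤ[X]} (hm : P.Monic) (hirr : Irreducible P) {z z0 w : ℂ}
    (hz : (P.map (Int.castRingHom ℂ)).IsRoot z) (hz0 : (P.map (Int.castRingHom ℂ)).IsRoot z0)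
    (hw : (P'.map (Int.castRingHom ℂ)).IsRoot w) (hwz : w ∈ ℚ⟮z⟯) :
    ∃ w0 ∈ ℚ⟮z0⟯, (P'.map (Int.castRingHom ℂ)).IsRoot w0 := by
  have hcomp : (algebraMap ℚ ℂ).comp (Int.castRingHom ℚ) = Int.castRingHom ℂ :=
    RingHom.ext_int _ _
  have halg : IsAlgebraic ℚ z := ((int_of_root hm hz).tower_top (A := ℚ)).isAlgebraic
  have h1 : w ∈ Algebra.adjoin ℚ {z} := by
    rw [← adjoin_simple_toSubalgebra_of_isAlgebraic halg]
    exact hwz
  rw [Algebra.adjoin_singleton_eq_range_aeval] at h1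
  obtain ⟨f, hf⟩ := h1
  refine ⟨aeval z0 f, ?_, ?_⟩
  · exact IntermediateField.algebra_adjoin_le_adjoin ℚ {z0} (aeval_mem_adjoin_singleton ℚ z0)
  · have h2 : aeval z ((P'.map (Int.castRingHom ℚ)).comp f) = 0 := by
      rw [aeval_comp]
      change aeval ((aeval z) f) _ = 0
      rw [show (aeval z) f = w from hf, ← eval_map_algebraMap, Polynomial.map_map, hcomp]
      exact hw
    have h3 : aeval z0 ((P'.map (Int.castRingHom ℚ)).comp f) = 0 := by
      obtain ⟨c, hc⟩ := minpoly.dvd ℚ z h2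
      rw [hc, map_mul, min_eq hm hirr hz, ← min_eq hm hirr hz0, minpoly.aeval, zero_mul]
    rw [aeval_comp, ← eval_map_algebraMap, Polynomial.map_map, hcomp] at h3
    exact h3

lemma exists_root' {p a g : ℕ} [hp : Fact p.Prime] (hg : 1 ≤ g) {P : ℤ[X]}
    (hgood : IsGoodPoly p a g P) : ∃ z0 : ℂ, (P.map (Int.castRingHom ℂ)).IsRoot z0 := by
  apply IsAlgClosed.exists_root
  intro h
  have h1 : (P.map (Int.castRingHom ℂ)).natDegree = 2 * g := by
    rw [hgood.frob.monic.natDegree_map, hgood.deg]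
  rw [natDegree_eq_zero_iff_degree_le_zero.2 h.le] at h1
  omega

/-- **Few polynomials belong to one field.** -/
theorem card_rel {p a g : ℕ} [hp : Fact p.Prime] (hg : 1 ≤ g) (S : Finset ℤ[X])
    (hS : ∀ P ∈ S, IsGoodPoly p a g P) {P : ℤ[X]} (hP : P ∈ S) [DecidablePred (Rel P)] :
    (S.filter (Rel P)).card ≤ ((4 * p ^ a + 3) ^ 2) ^ (2 * g) := by
  classical
  have hgood := hS P hP
  have hPm := hgood.frob.monic
  obtain ⟨z0, hz0⟩ := exists_root' hg hgood
  have hint : IsIntegral ℚ z0 := (int_of_root hPm hz0).tower_top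
  have hfd : FiniteDimensional ℚ ℚ⟮z0⟯ := IntermediateField.adjoin.finiteDimensional hint
  have hNF : NumberField ℚ⟮z0⟯ := ⟨⟩
  have hrank : Module.finrank ℚ ℚ⟮z0⟯ = 2 * g := by
    rw [IntermediateField.adjoin.finrank hint, min_eq hPm hgood.irr hz0, hPm.natDegree_map,
      hgood.deg]
  have hemb : Fintype.card (ℚ⟮z0⟯ →+* ℂ) = 2 * g := by
    rw [NumberField.Embeddings.card, hrank]
  have hex : ∀ P' : ℤ[X], ∃ w : ℚ⟮z0⟯, P' ∈ S.filter (Rel P) →
      (P'.map (Int.castRingHom ℂ)).IsRoot (w : ℂ) := by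
    intro P'
    by_cases h : P' ∈ S.filter (Rel P)
    · obtain ⟨-, z, w, hz, hw, hzw⟩ := Finset.mem_filter.1 h
      obtain ⟨w0, hw0, hroot⟩ := transfer hPm hgood.irr hz hz0 hw
        (by rw [hzw]; exact IntermediateField.mem_adjoin_simple_self ℚ w)
      exact ⟨⟨w0, hw0⟩, fun _ => hroot⟩
    · exact ⟨0, fun h' => absurd h' h⟩
  choose W hW using hex
  have hrootφ : ∀ P' ∈ S.filter (Rel P), ∀ φ : ℚ⟮z0⟯ →+* ℂ,
      (P'.map (Int.castRingHom ℂ)).IsRoot (φ (W P')) := by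
    intro P' hP' φ
    have h1 : (P'.map (Int.castRingHom ℚ⟮z0⟯)).IsRoot (W P') := by
      have h2 := hW P' hP'
      have h3 : P'.map (Int.castRingHom ℂ) =
          (P'.map (Int.castRingHom ℚ⟮z0⟯)).map (algebraMap ℚ⟮z0⟯ ℂ) := by
        rw [Polynomial.map_map]; congr 1
      rw [h3] at h2
      exact h2.of_map (algebraMap ℚ⟮z0⟯ ℂ).injective
    have h3 : P'.map (Int.castRingHom ℂ) = (P'.map (Int.castRingHom ℚ⟮z0⟯)).map φ := by
      rw [Polynomial.map_map]; congr 1; exact RingHom.ext_int _ _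
    rw [h3]
    exact h1.map
  set box : Finset (ℤ × ℤ) := (Finset.Icc (-(2 * (p ^ a : ℕ) + 1 : ℤ)) (2 * (p ^ a : ℕ) + 1)) ×ˢ
      (Finset.Icc (-(2 * (p ^ a : ℕ) + 1 : ℤ)) (2 * (p ^ a : ℕ) + 1)) with hbox
  have hboxcard : box.card = (4 * p ^ a + 3) ^ 2 := by
    rw [hbox, Finset.card_product, Int.card_Icc, ← sq]
    congr 1
    omega
  have hcard : (Fintype.piFinset fun _ : ℚ⟮z0⟯ →+* ℂ => box).card =
      ((4 * p ^ a + 3) ^ 2) ^ (2 * g) := by
    rw [Fintype.card_piFinset, Finset.prod_const, Finset.card_univ, hemb, hboxcard]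
  rw [← hcard]
  refine Finset.card_le_card_of_injOn (fun P' φ => cell (φ (W P'))) ?_ ?_
  · intro P' hP'
    rw [Finset.mem_coe] at hP'
    rw [Finset.mem_coe, Fintype.mem_piFinset]
    intro φ
    apply cell_mem
    have h1 := (hS P' (Finset.mem_filter.1 hP').1).frob.weil _ (hrootφ P' hP' φ)
    rw [h1]; push_cast; rfl
  · intro P1 h1 P2 h2 h12
    rw [Finset.mem_coe] at h1 h2
    have h3 : W P1 - W P2 = 0 := by
      apply eq_zero_of_small
      · have key : ∀ P' ∈ S.filter (Rel P), IsIntegral ℤ (W P') := by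
          intro P' hP'
          have h4 := int_of_root (hS P' (Finset.mem_filter.1 hP').1).frob.monic (hW P' hP')
          exact (isIntegral_algHom_iff ((algebraMap ℚ⟮z0⟯ ℂ).toIntAlgHom)
            (algebraMap ℚ⟮z0⟯ ℂ).injective).1 h4
        exact (key P1 h1).sub (key P2 h2)
      · intro φ
        rw [map_sub]
        exact cell_close (congrFun h12 φ)
    have h4 : W P1 = W P2 := sub_eq_zero.1 h3
    have h5 := min_eq (hS P1 (Finset.mem_filter.1 h1).1).frob.monic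
      (hS P1 (Finset.mem_filter.1 h1).1).irr (hW P1 h1)
    have h6 := min_eq (hS P2 (Finset.mem_filter.1 h2).1).frob.monic
      (hS P2 (Finset.mem_filter.1 h2).1).irr (hW P2 h2)
    rw [h4, h6] at h5
    exact (map_injective (Int.castRingHom ℚ) Int.cast_injective h5).symm

/-- A large subset without related elements. -/
theorem exists_thin (S : Finset ℤ[X]) (B : ℕ) (hB : ∀ P ∈ S, ∀ T : Finset ℤ[X], T ⊆ S →
    (∀ P' ∈ T, Rel P P') → T.card ≤ B) (hrefl : ∀ P ∈ S, Rel P P) :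
    ∃ S' ⊆ S, (∀ P ∈ S', ∀ P' ∈ S', P ≠ P' → ¬ Rel P P') ∧ S.card ≤ S'.card * B := by
  classical
  obtain ⟨S', hS', hmax⟩ := Finset.exists_max_image
    (S.powerset.filter fun T => ∀ P ∈ T, ∀ P' ∈ T, P ≠ P' → ¬ Rel P P') Finset.card
    ⟨∅, by simp⟩
  simp only [Finset.mem_filter, Finset.mem_powerset] at hS' hmax
  refine ⟨S', hS'.1, hS'.2, ?_⟩
  have hcov : S ⊆ S'.biUnion fun P => S.filter (Rel P) := by
    intro P hP
    rw [Finset.mem_biUnion]
    by_contra hcon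
    push Not at hcon
    have hno : ∀ P' ∈ S', ¬ Rel P' P := fun P' hP' h =>
      hcon P' hP' (Finset.mem_filter.2 ⟨hP, h⟩)
    have hPS' : P ∉ S' := fun h => hno P h (hrefl P hP)
    have h1 := hmax (insert P S') ⟨Finset.insert_subset hP hS'.1, ?_⟩
    · rw [Finset.card_insert_of_notMem hPS'] at h1
      omega
    · intro P1 h1 P2 h2 h12
      rcases Finset.mem_insert.1 h1 with h3 | h3
      · rcases Finset.mem_insert.1 h2 with h4 | h4
        · exact absurd (h3.trans h4.symm) h12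
        · rw [h3]; exact fun h => hno P2 h4 h.symm
      · rcases Finset.mem_insert.1 h2 with h4 | h4
        · rw [h4]; exact hno P1 h3
        · exact hS'.2 P1 h3 P2 h4 h12
  calc S.card ≤ (S'.biUnion fun P => S.filter (Rel P)).card := Finset.card_le_card hcov
    _ ≤ ∑ P ∈ S', (S.filter (Rel P)).card := Finset.card_biUnion_le
    _ ≤ ∑ _P ∈ S', B := Finset.sum_le_sum fun P hP =>
        hB P (hS'.1 hP) _ (Finset.filter_subset _ _) fun P' hP' => (Finset.mem_filter.1 hP').2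
    _ = S'.card * B := by rw [Finset.sum_const, smul_eq_mul]

end Pool.Agent.X296.Prod
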