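import Pool.Agent.X296.Prod.Balanced

/-!
# Tate classes on products
-/

set_option linter.unusedSectionVars false

open Polynomial NumberField Pool.Agent.W518.TC Pool.Agent.W518.DN Pool.Agent.X296.Count

namespace Pool.Agent.X296.Prod

section flips

variable {κ : Type} {q : ℕ} {g : κ → ℕ} {h : κ → ℤ[X]} {L : Type} [Field L] [NumberField L]
  [IsGalois ℚ L]

/-- Balanced relations imply that every Tate class is generated in degree two. -/
theorem good_of_balanced [Fintype κ] (hq : q ≠ 0) (hm : ∀ i, (h i).Monic)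
    (hd : ∀ i, (h i).natDegree = g i)
    (hPs : ∀ i, ((lift (q : ℤ) (g i) (h i)).map (Int.castRingHom L)).Splits)
    (hbalance : ∀ [DecidableEq L] (R : Multiset L),
      (∀ π ∈ R, (∃ i, ((lift (q : ℤ) (g i) (h i)).map (Int.castRingHom L)).IsRoot π) ∨
        (π ≠ 0 ∧ SS q π)) → ∀ m s : ℕ, 0 < s → R.prod ^ s = ((q : L) ^ m) ^ s →
      ∀ (i : κ) (π : L), ((lift (q : ℤ) (g i) (h i)).map (Int.castRingHom L)).IsRoot π →
      SS q π ∨ R.count π = R.count (q / π))
    {Ω : Type*} [Field Ω] [IsAlgClosed Ω] [CharZero Ω]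
    {V : Type*} [AddCommGroup V] [Module Ω V] (F : Module.End Ω V) (n : κ → ℕ)
    (T : ℤ[X]) (hTm : T.Monic) (hTs : (T.map (Int.castRingHom L)).Splits)
    (hTss : ∀ z : L, (T.map (Int.castRingHom L)).IsRoot z → z ≠ 0 ∧ SS q z)
    (hV : IsH1 (T * ∏ i, lift (q : ℤ) (g i) (h i) ^ n i) V F) (m : ℕ) (x : ExteriorAlgebra Ω V)
    (hx : IsTateClass F q m x) : x ∈ Algebra.adjoin Ω {y | IsTateClass F q 1 y} := by
  classical
  have := hV.fin
  let ψ : L →ₐ[ℚ] Ω := IsAlgClosed.lift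
  have hψinj : Function.Injective ψ := ψ.toRingHom.injective
  have hqΩ : (q : Ω) ≠ 0 := by exact_mod_cast hq
  have hψq : ψ (q : L) = q := map_natCast ψ q
  obtain ⟨b, ν, hν, hνr⟩ := exists_eigenbasis F hV.semisimple
  obtain ⟨hxV, s, hs, hxF⟩ := hx
  rw [hV.charpoly] at hνr
  -- eigenvalues come from `L`
  have hPm : ∀ i, (lift (q : ℤ) (g i) (h i)).Monic := fun i =>
    (lift_monic _ _ _ (hm i) (hd i)).1
  have heig : ∀ j, ∃ π : L, ((∃ i, ((lift (q : ℤ) (g i) (h i)).map (Int.castRingHom L)).IsRoot π) ∨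
      (π ≠ 0 ∧ SS q π)) ∧ ψ π = ν j := by
    intro j
    have h1 : ν j ∈ ((T * ∏ i, lift (q : ℤ) (g i) (h i) ^ n i).map
        (Int.castRingHom Ω)).roots := by
      rw [← hνr]; exact Multiset.mem_map_of_mem _ (Finset.mem_univ j)
    have h2 := (mem_roots'.1 h1).2
    rw [Polynomial.map_mul, IsRoot.def, eval_mul, mul_eq_zero] at h2
    rcases h2 with h2 | h2
    · have h4 : T.map (Int.castRingHom Ω) = (T.map (Int.castRingHom L)).map (ψ : L →+* Ω) := by
        rw [Polynomial.map_map]; congr 1; exact RingHom.ext_int _ _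
      have h5 : ν j ∈ ((T.map (Int.castRingHom L)).map (ψ : L →+* Ω)).roots := by
        rw [mem_roots ((hTm.map _).map _).ne_zero, ← h4]; exact h2
      rw [hTs.roots_map] at h5
      obtain ⟨π, hπ, hπν⟩ := Multiset.mem_map.1 h5
      exact ⟨π, Or.inr (hTss π ((mem_roots (hTm.map _).ne_zero).1 hπ)), hπν⟩
    rw [Polynomial.map_prod, eval_prod, Finset.prod_eq_zero_iff] at h2
    obtain ⟨i, _, hi⟩ := h2
    rw [Polynomial.map_pow, eval_pow] at hi
    have h3 := eq_zero_of_pow_eq_zero hi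
    have h4 : (lift (q : ℤ) (g i) (h i)).map (Int.castRingHom Ω)
        = ((lift (q : ℤ) (g i) (h i)).map (Int.castRingHom L)).map (ψ : L →+* Ω) := by
      rw [Polynomial.map_map]; congr 1; exact RingHom.ext_int _ _
    have h5 : ν j ∈ (((lift (q : ℤ) (g i) (h i)).map (Int.castRingHom L)).map
        (ψ : L →+* Ω)).roots := by
      rw [mem_roots (((hPm i).map _).map _).ne_zero, ← h4]; exact h3
    rw [(hPs i).roots_map] at h5
    obtain ⟨π, hπ, hπν⟩ := Multiset.mem_map.1 h5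
    exact ⟨π, Or.inl ⟨i, (mem_roots ((hPm i).map _).ne_zero).1 hπ⟩, hπν⟩
  -- the class is a combination of monomials
  have hspan := tate_span F (Set.range b) b.span_eq (by
    rintro _ ⟨j, rfl⟩; exact ⟨ν j, hν j⟩) (2 * m) s (((q : Ω) ^ m) ^ s) x hxV hxF
  refine Submodule.span_le (p := Subalgebra.toSubmodule (Algebra.adjoin Ω
    {y | IsTateClass F q 1 y})) |>.2 ?_ hspan
  rintro t ⟨v, μ, hvS, hvF, hμ, rfl⟩
  rw [SetLike.mem_coe, Subalgebra.mem_toSubmodule]
  -- roots in `L`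
  have hex : ∀ i, ∃ π : L, ((∃ j, ((lift (q : ℤ) (g j) (h j)).map
      (Int.castRingHom L)).IsRoot π) ∨ (π ≠ 0 ∧ SS q π)) ∧ ψ π = μ i := by
    intro i
    obtain ⟨j, hj⟩ := hvS i
    obtain ⟨π, hπ, hπν⟩ := heig j
    refine ⟨π, hπ, ?_⟩
    have h1 := hvF i
    rw [← hj, hν j] at h1
    have h2 := smul_left_injective Ω (b.ne_zero j) h1
    rw [hπν, h2]
  choose π hπ hπμ using hex
  set R : Multiset L := Finset.univ.val.map π with hRdef
  have hRprod : R.prod ^ s = ((q : L) ^ m) ^ s := by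
    apply hψinj
    rw [map_pow, map_pow, map_pow, hψq, ← hμ]
    congr 1
    rw [hRdef, Finset.prod_map_val, map_prod]
    exact Finset.prod_congr rfl fun i _ => hπμ i
  have hRroot : ∀ z ∈ R, (∃ i, ((lift (q : ℤ) (g i) (h i)).map (Int.castRingHom L)).IsRoot z) ∨
      (z ≠ 0 ∧ SS q z) := by
    intro z hz
    obtain ⟨i, _, rfl⟩ := Multiset.mem_map.1 hz
    exact hπ i
  have hbal := hbalance R hRroot m s hs hRprod
  -- the list
  have hlist : v = fun i => (fun i => (μ i, v i)) i |>.2 := rfl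
  have h1 : mono (Ω := Ω) (List.ofFn v)
      = mono (Ω := Ω) ((List.ofFn fun i => (μ i, v i)).map Prod.snd) := by
    rw [List.map_ofFn]; rfl
  rw [h1]
  have hμ0 : ∀ i, μ i ≠ 0 := by
    intro i
    rw [← hπμ i]
    intro h0
    have h1 : π i = 0 := hψinj (by rw [h0, map_zero])
    rcases hπ i with ⟨j, hj⟩ | ⟨h2, -⟩
    · exact (root_symm (hm j) (hd j) hq hj).1 h1
    · exact h2 h1
  have hcount : ∀ a : L, (List.ofFn μ).count (ψ a) = R.count a := by
    intro a
    have h2 : ((List.ofFn μ : List Ω) : Multiset Ω) = R.map ψ := by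
      rw [hRdef, Multiset.map_map]
      rw [show (⇑ψ ∘ π) = μ from funext hπμ]
      simp [Fin.univ_val_map]
    rw [← Multiset.coe_count, h2, Multiset.count_map_eq_count' _ _ hψinj]
  refine mono_mem_adjoin F q hqΩ (2 * m) _ (by simp) (even_two_mul m) ?_ ?_ ?_
  · intro e he
    obtain ⟨i, rfl⟩ := (List.mem_ofFn' _ _).1 he
    exact hvF i
  · intro e he
    obtain ⟨i, rfl⟩ := (List.mem_ofFn' _ _).1 he
    exact hμ0 i
  · intro a ha hss
    rw [List.map_ofFn]
    change (List.ofFn μ).count a = (List.ofFn μ).count ((q : Ω) / a)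
    by_cases hrange : ∃ c : L, ψ c = a
    · obtain ⟨c, rfl⟩ := hrange
      have hqc : (q : Ω) / ψ c = ψ (q / c) := by rw [map_div₀, hψq]
      rw [hqc, hcount, hcount]
      by_cases hc : ∃ i, ((lift (q : ℤ) (g i) (h i)).map (Int.castRingHom L)).IsRoot c
      · obtain ⟨i, hi⟩ := hc
        rcases hbal i c hi with h2 | h2
        · exfalso
          apply hss
          obtain ⟨t, ht, h3⟩ := h2
          refine ⟨t, ht, ?_⟩
          have := congrArg ψ h3
          rwa [map_pow, map_pow, map_pow, hψq] at this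
        · exact h2
      · have hq0 : (q : L) ≠ 0 := by exact_mod_cast hq
        have hc0 : c ≠ 0 := by rintro rfl; exact ha (map_zero ψ)
        have hss' : ¬ SS q c := by
          rintro ⟨t, ht, h3⟩
          apply hss
          refine ⟨t, ht, ?_⟩
          have := congrArg ψ h3
          rwa [map_pow, map_pow, map_pow, hψq] at this
        have h2 : c ∉ R := by
          intro h
          rcases hRroot c h with h3 | ⟨-, h3⟩
          · exact hc h3
          · exact hss' h3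
        have h3 : (q : L) / c ∉ R := by
          intro h
          rcases hRroot _ h with ⟨i, hi⟩ | ⟨-, h3⟩
          · apply hc
            have h4 := (root_symm (hm i) (hd i) hq hi).2.1
            rw [div_div_cancel₀ hq0] at h4
            exact ⟨i, h4⟩
          · exact hss' (SS.of_div hq0 hc0 h3)
        rw [Multiset.count_eq_zero_of_notMem h2, Multiset.count_eq_zero_of_notMem h3]
    · have h2 : a ∉ List.ofFn μ := by
        intro h
        obtain ⟨i, rfl⟩ := (List.mem_ofFn' _ _).1 h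
        exact hrange ⟨π i, hπμ i⟩
      have h3 : (q : Ω) / a ∉ List.ofFn μ := by
        intro h
        obtain ⟨i, hi⟩ := (List.mem_ofFn' _ _).1 h
        apply hrange
        refine ⟨q / π i, ?_⟩
        rw [map_div₀, hψq, hπμ i, hi, div_div_cancel₀ hqΩ]
      rw [List.count_eq_zero_of_not_mem h2, List.count_eq_zero_of_not_mem h3]

end flips


open IntermediateField in
/-- Two elements which generate different fields are separated by the Galois group. -/
theorem exists_sep {L : Type} [Field L] [NumberField L] [IsGalois ℚ L] (φ : L →ₐ[ℚ] ℂ) (x y : L)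
    (hxy : ℚ⟮φ x⟯ ≠ ℚ⟮φ y⟯) :
    (∃ γ : L ≃ₐ[ℚ] L, γ x = x ∧ γ y ≠ y) ∨ ∃ γ : L ≃ₐ[ℚ] L, γ y = y ∧ γ x ≠ x := by
  by_contra hcon
  push Not at hcon
  obtain ⟨h1, h2⟩ := hcon
  have key : ∀ u v : L, (∀ γ : L ≃ₐ[ℚ] L, γ u = u → γ v = v) → ℚ⟮v⟯ ≤ ℚ⟮u⟯ := by
    intro u v h
    rw [IntermediateField.adjoin_simple_le_iff, ← IsGalois.fixedField_fixingSubgroup ℚ⟮u⟯,
      IntermediateField.mem_fixedField_iff]
    intro γ hγ
    apply h
    rw [IntermediateField.mem_fixingSubgroup_iff] at hγ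
    exact hγ u (IntermediateField.mem_adjoin_simple_self ℚ u)
  have h3 : ℚ⟮x⟯ = ℚ⟮y⟯ := le_antisymm (key y x h2) (key x y h1)
  apply hxy
  have h4 := congrArg (IntermediateField.map φ) h3
  rw [IntermediateField.adjoin_map, IntermediateField.adjoin_map, Set.image_singleton,
    Set.image_singleton] at h4
  exact h4

open IntermediateField in
/-- **Products of abelian varieties with common flips.** -/
theorem tate_of_family {κ : Type} [Fintype κ] (p : ℕ) [hp : Fact p.Prime] (a : ℕ) (g : κ → ℕ)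
    (h : κ → ℤ[X]) (hm : ∀ i, (h i).Monic) (hd : ∀ i, (h i).natDegree = g i)
    (hPirr : ∀ i, Irreducible (lift ((p ^ a : ℕ) : ℤ) (g i) (h i)))
    (hord : ∀ i, ∀ z : ℂ, ((lift ((p ^ a : ℕ) : ℤ) (g i) (h i)).map (Int.castRingHom ℂ)).IsRoot z →
      ∀ n : ℕ, 0 < n → z ^ (2 * n) ≠ ((p ^ a : ℕ) : ℂ) ^ n)
    (l : ℕ) [hl : Fact l.Prime] (hl2 : l ≠ 2) (hlq : ¬ l ∣ p ^ a) (r : ℤ)
    (hr : (l : ℤ) ^ 2 ∣ r ^ 2 - 4 * (p ^ a : ℕ)) (h0 : ∀ i, (l : ℤ) ∣ (h i).eval r)
    (h1 : ∀ i, ¬ (l : ℤ) ^ 2 ∣ (h i).eval r)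
    (hsep : ∀ i, ((h i).map (Int.castRingHom (ZMod l))).Separable)
    (hnr : ∀ i, ¬ (l : ℤ) ∣ (h i).eval (-r))
    (hne : ∀ i j, i ≠ j → ∀ z w : ℂ,
      ((lift ((p ^ a : ℕ) : ℤ) (g i) (h i)).map (Int.castRingHom ℂ)).IsRoot z →
      ((lift ((p ^ a : ℕ) : ℤ) (g j) (h j)).map (Int.castRingHom ℂ)).IsRoot w → ℚ⟮z⟯ ≠ ℚ⟮w⟯) :
    TateGenerated p a fun i => lift ((p ^ a : ℕ) : ℤ) (g i) (h i) := by
  classical
  have hq : p ^ a ≠ 0 := pow_ne_zero _ hp.out.ne_zero
  have hPm : ∀ i, (lift ((p ^ a : ℕ) : ℤ) (g i) (h i)).Monic := fun i =>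
    (lift_monic _ _ _ (hm i) (hd i)).1
  intro n T hT Ω _ _ _ V _ _ F hV m x hx
  set f : ℤ[X] := T * ∏ i, (lift ((p ^ a : ℕ) : ℤ) (g i) (h i) * h i) with hf
  have hfm : f.Monic := hT.frob.monic.mul (monic_prod_of_monic _ _ fun i _ => (hPm i).mul (hm i))
  set PQ : ℚ[X] := f.map (Int.castRingHom ℚ) with hPQ
  have hLN : NumberField PQ.SplittingField :=
    { to_charZero := charZero_of_injective_algebraMap (algebraMap ℚ PQ.SplittingField).injective
      to_finiteDimensional := inferInstance }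
  have hsf : IsSplittingField ℚ PQ.SplittingField PQ := Polynomial.IsSplittingField.splittingField PQ
  have hnormal : Normal ℚ PQ.SplittingField := Normal.of_isSplittingField PQ
  have hGal : IsGalois ℚ PQ.SplittingField := ⟨⟩
  have hsplit : (f.map (Int.castRingHom PQ.SplittingField)).Splits := by
    have h1 := SplittingField.splits PQ
    convert h1 using 1
    rw [hPQ, Polynomial.map_map]; congr 1
  have hf0 : f.map (Int.castRingHom PQ.SplittingField) ≠ 0 := (hfm.map _).ne_zero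
  have hTs : (T.map (Int.castRingHom PQ.SplittingField)).Splits :=
    hsplit.of_dvd hf0 (Polynomial.map_dvd _ (dvd_mul_right _ _))
  have hsub : ∀ i, ((lift ((p ^ a : ℕ) : ℤ) (g i) (h i) * h i).map
      (Int.castRingHom PQ.SplittingField)).Splits := by
    intro i
    refine hsplit.of_dvd hf0 (Polynomial.map_dvd _ ?_)
    exact (Finset.dvd_prod_of_mem (fun i => lift ((p ^ a : ℕ) : ℤ) (g i) (h i) * h i)
      (Finset.mem_univ i)).trans (dvd_mul_left _ _)
  have hPs : ∀ i, ((lift ((p ^ a : ℕ) : ℤ) (g i) (h i)).map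
      (Int.castRingHom PQ.SplittingField)).Splits := fun i =>
    (hsub i).of_dvd (((hPm i).mul (hm i)).map _).ne_zero (Polynomial.map_dvd _ (dvd_mul_right _ _))
  have hhs : ∀ i, ((h i).map (Int.castRingHom PQ.SplittingField)).Splits := fun i =>
    (hsub i).of_dvd (((hPm i).mul (hm i)).map _).ne_zero (Polynomial.map_dvd _ (dvd_mul_left _ _))
  let φ : PQ.SplittingField →ₐ[ℚ] ℂ := IsAlgClosed.lift
  have hTss : ∀ z : PQ.SplittingField, (T.map (Int.castRingHom PQ.SplittingField)).IsRoot z →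
      z ≠ 0 ∧ SS (p ^ a) z := by
    intro z hz
    have h1 : T.map (Int.castRingHom ℂ) = (T.map (Int.castRingHom PQ.SplittingField)).map
        (φ : PQ.SplittingField →+* ℂ) := by
      rw [Polynomial.map_map]; congr 1; exact RingHom.ext_int _ _
    have h2 : (T.map (Int.castRingHom ℂ)).IsRoot (φ z) := by rw [h1]; exact hz.map
    obtain ⟨t, ht, h3⟩ := hT.root _ h2
    have h4 : (z ^ 2) ^ t = (((p ^ a : ℕ) : ℕ) : PQ.SplittingField) ^ t := by
      have h5 : φ ((z ^ 2) ^ t) = φ ((((p ^ a : ℕ) : ℕ) : PQ.SplittingField) ^ t) := by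
        rw [map_pow, map_pow, h3, map_pow, map_natCast]; push_cast; rfl
      exact φ.toRingHom.injective h5
    refine ⟨?_, t, ht, h4⟩
    rintro rfl
    rw [zero_pow two_ne_zero, zero_pow ht.ne'] at h4
    exact pow_ne_zero t (by exact_mod_cast hq) h4.symm
  have hmapφ : ∀ (i : κ) (z : PQ.SplittingField),
      ((lift ((p ^ a : ℕ) : ℤ) (g i) (h i)).map (Int.castRingHom PQ.SplittingField)).IsRoot z →
      ((lift ((p ^ a : ℕ) : ℤ) (g i) (h i)).map (Int.castRingHom ℂ)).IsRoot (φ z) := by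
    intro i z hz
    have h1 : (lift ((p ^ a : ℕ) : ℤ) (g i) (h i)).map (Int.castRingHom ℂ) =
        ((lift ((p ^ a : ℕ) : ℤ) (g i) (h i)).map (Int.castRingHom PQ.SplittingField)).map
        (φ : PQ.SplittingField →+* ℂ) := by
      rw [Polynomial.map_map]; congr 1; exact RingHom.ext_int _ _
    rw [h1]; exact hz.map
  obtain ⟨Q, hQ, hlQ, -, -⟩ := exists_frob PQ.SplittingField l
  have hfl := fun i => inertia_flip l Q hlQ (p ^ a) hq (g i) (h i) (hm i) (hd i) (hhs i) (hPs i)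
    hl2 hlq r hr (h0 i) (h1 i) (hsep i) (hnr i)
  choose π0 hroot0 hother hpair σ hσQ hσ using hfl
  refine good_of_balanced (κ := κ) (g := g) (h := h) (L := PQ.SplittingField) hq hm hd hPs ?_ F n T
    hT.frob.monic hTs hTss hV m x hx
  intro _ R hR m s hs hprod i π hπ
  refine balanced hq hm hd ?_ ?_ π0 hroot0 ?_ ?_ ?_ R hR m s hs hprod i π hπ
  · intro i
    exact (IsPrimitive.Int.irreducible_iff_irreducible_map_cast (hPm i).isPrimitive).1 (hPirr i)
  · intro i j hij z hz hz'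
    exact hne i j hij _ _ (hmapφ i z hz) (hmapφ j z hz') rfl
  · intro i
    exact ⟨σ i, hσ i, fun k => hpair k (σ i) (hσQ i), fun k π hπ hne =>
      hother k (σ i) (hσQ i) π hπ hne⟩
  · rintro k ⟨t, ht, h3⟩
    apply hord k _ (hmapφ k _ (hroot0 k)) t ht
    have h4 := congrArg φ h3
    rw [map_pow, map_pow, map_pow, map_natCast, ← pow_mul] at h4
    exact h4
  · intro i j hij
    exact exists_sep φ _ _ (hne i j hij _ _ (hmapφ i _ (hroot0 i)) (hmapφ j _ (hroot0 j)))

end Pool.Agent.X296.Prod
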