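import Mathlib

/-!
# Independence from flips which are not independent

Let the elements `σ` of a Galois group act on the pairs `{π_k, q / π_k}` by simultaneous flips. If
the fields generated by the `π_k` are pairwise different, then the `π_k ^ 2 / q` are
multiplicatively independent.
-/

namespace Pool.Agent.X296.Prod

variable {L : Type} [Field L]

/-- Roots of unity. -/
def Tor (x : L) : Prop := ∃ n : ℕ, 0 < n ∧ x ^ n = 1

lemma Tor.mul {x y : L} (hx : Tor x) (hy : Tor y) : Tor (x * y) := by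
  obtain ⟨n, hn, h1⟩ := hx
  obtain ⟨m, hm, h2⟩ := hy
  refine ⟨n * m, Nat.mul_pos hn hm, ?_⟩
  rw [mul_pow, pow_mul, h1, one_pow, mul_comm n m, pow_mul, h2, one_pow, one_mul]

lemma Tor.inv {x : L} (hx : Tor x) : Tor x⁻¹ := by
  obtain ⟨n, hn, h1⟩ := hx
  exact ⟨n, hn, by rw [inv_pow, h1, inv_one]⟩

lemma Tor.div {x y : L} (hx : Tor x) (hy : Tor y) : Tor (x / y) := by
  rw [div_eq_mul_inv]; exact hx.mul hy.inv

lemma Tor.map {x : L} (hx : Tor x) (σ : L →+* L) : Tor (σ x) := by
  obtain ⟨n, hn, h1⟩ := hx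
  exact ⟨n, hn, by rw [← map_pow, h1, map_one]⟩

lemma Tor.one : Tor (1 : L) := ⟨1, one_pos, one_pow _⟩

lemma Tor.of_zpow {x : L} {c : ℤ} (hc : c ≠ 0) (h : Tor (x ^ c)) : Tor x := by
  obtain ⟨n, hn, h1⟩ := h
  have h2 : x ^ (c * n) = 1 := by rw [zpow_mul, zpow_natCast]; exact h1
  refine ⟨(c * n).natAbs, ?_, ?_⟩
  · rw [Int.natAbs_pos]
    exact mul_ne_zero hc (by exact_mod_cast hn.ne')
  · rcases Int.natAbs_eq (c * n) with h3 | h3
    · rw [h3, zpow_natCast] at h2; exact h2
    · rw [h3, zpow_neg, zpow_natCast, inv_eq_one] at h2; exact h2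

variable [Algebra ℚ L] {κ : Type} [Fintype κ]

/-- **Independence.** -/
theorem indep (q : ℕ) (hq : (q : L) ≠ 0) (π0 : κ → L) (h0 : ∀ k, π0 k ≠ 0)
    (hflip : ∀ i, ∃ σ : L ≃ₐ[ℚ] L, σ (π0 i) = q / π0 i ∧
      (∀ k, σ (π0 k) = π0 k ∨ σ (π0 k) = q / π0 k) ∧
      ∀ k (γ : L ≃ₐ[ℚ] L), γ (π0 k) = π0 k ∨ γ (π0 k) = q / π0 k ∨ σ (γ (π0 k)) = γ (π0 k))
    (hss : ∀ k, ¬ Tor (π0 k ^ 2 / q))
    (hne : ∀ i j, i ≠ j → (∃ γ : L ≃ₐ[ℚ] L, γ (π0 i) = π0 i ∧ γ (π0 j) ≠ π0 j) ∨
      ∃ γ : L ≃ₐ[ℚ] L, γ (π0 j) = π0 j ∧ γ (π0 i) ≠ π0 i) :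
    ∀ (N : ℕ) (c : κ → ℤ), (Finset.univ.filter fun k => c k ≠ 0).card = N →
      Tor (∏ k, (π0 k ^ 2 / q) ^ c k) → c = 0 := by
  classical
  have hmapq : ∀ σ : L ≃ₐ[ℚ] L, σ (q : L) = q := fun σ => map_natCast σ q
  have hu0 : ∀ k, π0 k ^ 2 / (q : L) ≠ 0 := fun k => div_ne_zero (pow_ne_zero _ (h0 k)) hq
  have hne0 : ∀ k, (q : L) / π0 k ≠ π0 k := by
    intro k h
    apply hss k
    refine ⟨1, one_pos, ?_⟩
    rw [pow_one, div_eq_one_iff_eq hq]
    rw [div_eq_iff (h0 k)] at h
    rw [h]; ring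
  intro N
  induction N using Nat.strong_induction_on with
  | _ N IH =>
    intro c hcard hT
    by_contra hc
    -- smaller supports
    have hsmall : ∀ c' : κ → ℤ, (∀ k, c' k ≠ 0 → c k ≠ 0) → (∃ k, c k ≠ 0 ∧ c' k = 0) →
        Tor (∏ k, (π0 k ^ 2 / q) ^ c' k) → c' = 0 := by
      intro c' h1 ⟨k, h2, h3⟩ h4
      refine IH _ ?_ c' rfl h4
      rw [← hcard]
      apply Finset.card_lt_card
      rw [Finset.ssubset_iff_of_subset]
      · exact ⟨k, by simp [h2], by simp [h3]⟩
      · intro j hj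
        simp only [Finset.mem_filter, Finset.mem_univ, true_and] at hj ⊢
        exact h1 j hj
    have hprodmap : ∀ (σ : L ≃ₐ[ℚ] L) (u : κ → L), σ (∏ k, u k ^ c k) = ∏ k, (σ (u k)) ^ c k := by
      intro σ u
      rw [map_prod]
      exact Finset.prod_congr rfl fun k _ => map_zpow₀ σ _ _
    have hσu : ∀ (σ : L ≃ₐ[ℚ] L) (k : κ), σ (π0 k) = q / π0 k →
        σ (π0 k ^ 2 / q) = (π0 k ^ 2 / q)⁻¹ := by
      intro σ k h
      have := h0 k
      rw [map_div₀, map_pow, hmapq, h]
      field_simp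
    have hσu1 : ∀ (σ : L ≃ₐ[ℚ] L) (k : κ), σ (π0 k) = π0 k →
        σ (π0 k ^ 2 / q) = π0 k ^ 2 / q := by
      intro σ k h
      rw [map_div₀, map_pow, hmapq, h]
    -- all pairs of the support are flipped
    have hall : ∀ i, c i ≠ 0 → ∀ σ : L ≃ₐ[ℚ] L, σ (π0 i) = q / π0 i →
        (∀ k, σ (π0 k) = π0 k ∨ σ (π0 k) = q / π0 k) → ∀ k, c k ≠ 0 → σ (π0 k) = q / π0 k := by
      intro i hi σ hσi hσ k hk
      by_contra hcon
      have hk1 : σ (π0 k) = π0 k := (hσ k).resolve_right hcon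
      have h1 := hsmall (fun k => if σ (π0 k) = π0 k then 0 else 2 * c k) (by
        intro j hj
        split_ifs at hj with h
        · exact absurd rfl hj
        · intro h2; apply hj; rw [h2, mul_zero]) ⟨k, hk, by simp [hk1]⟩ (by
        have h2 := hT.div (hT.map (σ : L →+* L))
        have h3 : (∏ k, (π0 k ^ 2 / (q : L)) ^ c k) / (σ : L →+* L) (∏ k, (π0 k ^ 2 / q) ^ c k) =
            ∏ k, (π0 k ^ 2 / q) ^ (if σ (π0 k) = π0 k then 0 else 2 * c k) := by
          change _ / σ _ = _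
          rw [hprodmap, ← Finset.prod_div_distrib]
          refine Finset.prod_congr rfl fun j _ => ?_
          split_ifs with h4
          · rw [hσu1 σ j h4, zpow_zero, div_self (zpow_ne_zero _ (hu0 j))]
          · rw [hσu σ j ((hσ j).resolve_left h4), inv_zpow', two_mul, zpow_add₀ (hu0 j),
              zpow_neg, div_inv_eq_mul]
        rwa [h3] at h2)
      have h2 := congrFun h1 i
      simp only [hσi, hne0 i, if_false, Pi.zero_apply] at h2
      omega
    -- elements fixing one member of the support fix the others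
    have hfix : ∀ i, c i ≠ 0 → ∀ γ : L ≃ₐ[ℚ] L, γ (π0 i) = π0 i → ∀ k, c k ≠ 0 →
        γ (π0 k) = π0 k := by
      intro i hi γ hγ k hk
      by_contra hcon
      obtain ⟨σ, hσi, hσ, hσγ⟩ := hflip i
      have hflips := hall i hi σ hσi hσ
      have h1 := hsmall (fun k => if γ (π0 k) = π0 k then 0 else
          if γ (π0 k) = q / π0 k then 4 * c k else 2 * c k) (by
        intro j hj
        split_ifs at hj with h h'
        · exact absurd rfl hj
        · intro h2; apply hj; rw [h2, mul_zero]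
        · intro h2; apply hj; rw [h2, mul_zero]) ⟨i, hi, by simp [hγ]⟩ (by
        have h2 := hT.div (hT.map (γ : L →+* L))
        have h2' := h2.div (h2.map (σ : L →+* L))
        have h3 : (∏ k, (π0 k ^ 2 / (q : L)) ^ c k) / (γ : L →+* L) (∏ k, (π0 k ^ 2 / q) ^ c k) /
            (σ : L →+* L) ((∏ k, (π0 k ^ 2 / (q : L)) ^ c k) /
              (γ : L →+* L) (∏ k, (π0 k ^ 2 / q) ^ c k)) =
            ∏ k, (π0 k ^ 2 / q) ^ (if γ (π0 k) = π0 k then 0 else
              if γ (π0 k) = q / π0 k then 4 * c k else 2 * c k) := by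
          change _ / γ _ / σ (_ / γ _) = _
          rw [hprodmap, map_div₀, hprodmap, hprodmap, ← Finset.prod_div_distrib,
            ← Finset.prod_div_distrib, ← Finset.prod_div_distrib]
          refine Finset.prod_congr rfl fun j _ => ?_
          by_cases hcj : c j = 0
          · simp [hcj]
          have hσj := hσu σ j (hflips j hcj)
          rw [hσj]
          by_cases h4 : γ (π0 j) = π0 j
          · rw [if_pos h4, hσu1 γ j h4, hσj, zpow_zero, div_self (zpow_ne_zero _ (hu0 j)),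
              div_self (zpow_ne_zero _ (inv_ne_zero (hu0 j))), div_one]
          by_cases h5 : γ (π0 j) = q / π0 j
          · rw [if_neg h4, if_pos h5, hσu γ j h5, map_inv₀, hσj, inv_inv, inv_zpow']
            have h6 : (4 : ℤ) * c j = c j + c j + (c j + c j) := by ring
            rw [h6, zpow_add₀ (hu0 j), zpow_add₀ (hu0 j), zpow_neg]
            have := zpow_ne_zero (c j) (hu0 j)
            field_simp
          · rw [if_neg h4, if_neg h5]
            have h6 : σ (γ (π0 j ^ 2 / q)) = γ (π0 j ^ 2 / q) := by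
              rw [map_div₀, map_div₀, map_pow, map_pow, hmapq, hmapq,
                ((hσγ j γ).resolve_left h4).resolve_left h5]
            have h7 : γ (π0 j ^ 2 / q) ≠ 0 := (map_ne_zero γ).2 (hu0 j)
            rw [h6, inv_zpow', two_mul, zpow_add₀ (hu0 j), zpow_neg]
            have := zpow_ne_zero (c j) (hu0 j)
            have := zpow_ne_zero (c j) h7
            field_simp
        rwa [h3] at h2')
      have h2 := congrFun h1 k
      simp only [hcon, if_false, Pi.zero_apply] at h2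
      split_ifs at h2 <;> omega
    -- the support has one element
    obtain ⟨i, hi⟩ : ∃ i, c i ≠ 0 := by
      by_contra hcon
      push Not at hcon
      exact hc (funext hcon)
    have hone : ∀ j, c j ≠ 0 → j = i := by
      intro j hj
      by_contra hji
      rcases hne i j (Ne.symm hji) with ⟨γ, h1, h2⟩ | ⟨γ, h1, h2⟩
      · exact h2 (hfix i hi γ h1 j hj)
      · exact h2 (hfix j hj γ h1 i hi)
    apply hss i
    have h1 : ∏ k, (π0 k ^ 2 / (q : L)) ^ c k = (π0 i ^ 2 / q) ^ c i := by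
      refine Finset.prod_eq_single i (fun j _ hj => ?_) (fun h => absurd (Finset.mem_univ i) h)
      have : c j = 0 := by
        by_contra h
        exact hj (hone j h)
      rw [this, zpow_zero]
    rw [h1] at hT
    exact hT.of_zpow hi

end Pool.Agent.X296.Prod
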