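import Pool.Agent.X296.Prod.Field
import Pool.Agent.X296.Prod.Good

/-!
# The Tate conjecture for all products of the members of a large family
-/

open Polynomial IntermediateField

namespace Pool.Agent.X296.Prod

open Pool.Agent.W518.DN Pool.Agent.W518.TC Pool.Agent.X296.Count

lemma rel_deg {p a g g' : ℕ} [hp : Fact p.Prime] {P P' : ℤ[X]}
    (h : IsGoodPoly p a g P) (h' : IsGoodPoly p a g' P') (hR : Rel P P') : g = g' := by
  obtain ⟨z, w, hz, hw, hzw⟩ := hR
  have h1 := IntermediateField.adjoin.finrank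
    (K := ℚ) ((int_of_root h.frob.monic hz).tower_top (A := ℚ))
  have h2 := IntermediateField.adjoin.finrank
    (K := ℚ) ((int_of_root h'.frob.monic hw).tower_top (A := ℚ))
  rw [min_eq h.frob.monic h.irr hz, h.frob.monic.natDegree_map, h.deg] at h1
  rw [min_eq h'.frob.monic h'.irr hw, h'.frob.monic.natDegree_map, h'.deg] at h2
  rw [hzw, h2] at h1
  omega

/-- **Main theorem.** -/
theorem main (p : ℕ) [hp : Fact p.Prime] (a : ℕ) (ha : 1 ≤ a) :
    ∃ (C : ℝ) (g0 : ℕ) (S : ℕ → Finset ℤ[X]),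
      (∀ g, ∀ P ∈ S g, IsGoodPoly p a g P) ∧
      (∀ g ≥ g0, ((p : ℝ) ^ a) ^ ((g : ℝ) ^ 2 / 4 - C * (g * Real.log g)) ≤ (S g).card) ∧
      (∀ g g', ∀ P ∈ S g, ∀ P' ∈ S g', P ≠ P' → ¬ Rel P P') ∧
      ∀ (κ : Type) [Fintype κ] (P : κ → ℤ[X]), Function.Injective P →
        (∀ i, ∃ g, P i ∈ S g) → TateGenerated p a P := by
  classical
  obtain ⟨l, r, hl, hl2, hlq, hr, hfam⟩ := exists_family2 p a ha
  haveI : Fact l.Prime := ⟨hl⟩
  obtain ⟨C1, g1, hmain⟩ := main_of p a ha (Pred := fun g P => IsGoodPoly p a g P ∧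
    ∃ h, FlipData (p ^ a) l r g P h) (by
      intro Q hQ1 hQ
      have : Q = Real.sqrt ((p : ℝ) ^ a) := by
        rw [← hQ, Real.sqrt_sq (by linarith)]
      rw [this]; exact hfam)
  -- the thinned sets
  have hthin : ∀ g, ∃ S' : Finset ℤ[X], (∀ P ∈ S', IsGoodPoly p a g P ∧
      ∃ h, FlipData (p ^ a) l r g P h) ∧ (∀ P ∈ S', 1 ≤ g) ∧
      (∀ P ∈ S', ∀ P' ∈ S', P ≠ P' → ¬ Rel P P') ∧
      (max g1 3 ≤ g → ((p : ℝ) ^ a) ^ ((g : ℝ) ^ 2 / 4 - C1 * (g * Real.log g)) ≤
        S'.card * (((4 * p ^ a + 3) ^ 2) ^ (2 * g) : ℕ)) := by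
    intro g
    by_cases hg : max g1 3 ≤ g
    · have hg1 : 1 ≤ g := by omega
      obtain ⟨S0, hS0, hcard⟩ := hmain g (by omega)
      obtain ⟨S', hS', hpair, hcard'⟩ := exists_thin S0 (((4 * p ^ a + 3) ^ 2) ^ (2 * g)) (by
        intro P hP T hT hTR
        refine le_trans (Finset.card_le_card ?_) (card_rel hg1 S0 (fun P hP => (hS0 P hP).1) hP)
        intro P' hP'
        exact Finset.mem_filter.2 ⟨hT hP', hTR P' hP'⟩) (by
        intro P hP
        obtain ⟨z, hz⟩ := exists_root' hg1 (hS0 P hP).1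
        exact ⟨z, z, hz, hz, rfl⟩)
      refine ⟨S', fun P hP => hS0 P (hS' hP), fun _ _ => hg1, hpair, fun _ => ?_⟩
      refine hcard.trans ?_
      exact_mod_cast hcard'
    · exact ⟨∅, by simp, by simp, by simp, fun h => absurd h hg⟩
  choose S hSgood hS1 hSpair hScard using hthin
  have hrel : ∀ g g', ∀ P ∈ S g, ∀ P' ∈ S g', P ≠ P' → ¬ Rel P P' := by
    intro g g' P hP P' hP' hne hR
    have := rel_deg (hSgood g P hP).1 (hSgood g' P' hP').1 hR
    subst this
    exact hSpair g P hP P' hP' hne hR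
  set q : ℝ := (p : ℝ) ^ a with hqdef
  have hq1 : 1 < q := by
    have : (1 : ℝ) < p := by exact_mod_cast hp.out.one_lt
    exact one_lt_pow₀ this (by omega)
  have hq0 : 0 < q := by linarith
  have hlogq : 0 < Real.log q := Real.log_pos hq1
  set C2 : ℝ := 4 * Real.log (4 * q + 3) / Real.log q with hC2
  refine ⟨C1 + C2, max g1 3, S, fun g P hP => (hSgood g P hP).1, ?_, hrel, ?_⟩
  · intro g hg
    have h1 := hScard g hg
    have hg3 : (3 : ℝ) ≤ g := by exact_mod_cast (le_trans (le_max_right _ _) hg)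
    have hlog : 1 ≤ Real.log g := by
      rw [Real.le_log_iff_exp_le (by linarith)]
      have := Real.exp_one_lt_d9
      linarith
    have h2 : ((((4 * p ^ a + 3) ^ 2) ^ (2 * g) : ℕ) : ℝ) ≤ q ^ (C2 * (g * Real.log g)) := by
      have e1 : ((((4 * p ^ a + 3) ^ 2) ^ (2 * g) : ℕ) : ℝ) = (4 * q + 3) ^ (4 * g) := by
        push_cast
        rw [← pow_mul]
        congr 1
        ring
      rw [e1, Real.rpow_def_of_pos hq0, ← Real.exp_log (show (0 : ℝ) < (4 * q + 3) ^ (4 * g) by
        positivity), Real.exp_le_exp, Real.log_pow]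
      have e2 : Real.log q * (C2 * (g * Real.log g)) =
          4 * Real.log (4 * q + 3) * (g * Real.log g) := by
        rw [hC2]; field_simp
      rw [e2]
      have e3 : 0 ≤ Real.log (4 * q + 3) := Real.log_nonneg (by linarith)
      have e4 : (g : ℝ) ≤ g * Real.log g := by nlinarith
      push_cast
      nlinarith
    have h3 : q ^ ((g : ℝ) ^ 2 / 4 - (C1 + C2) * (g * Real.log g)) =
        q ^ ((g : ℝ) ^ 2 / 4 - C1 * (g * Real.log g)) / q ^ (C2 * (g * Real.log g)) := by
      rw [← Real.rpow_sub hq0]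
      congr 1; ring
    rw [h3, div_le_iff₀ (Real.rpow_pos_of_pos hq0 _)]
    exact h1.trans (mul_le_mul_of_nonneg_left h2 (Nat.cast_nonneg _))
  · intro κ _ P hP hPS
    choose g hg using hPS
    choose h hh using fun i => (hSgood (g i) (P i) (hg i)).2
    have e : P = fun i => lift ((p ^ a : ℕ) : ℤ) (g i) (h i) := funext fun i => (hh i).eq
    have key := tate_of_family p a g h (fun i => (hh i).monic) (fun i => (hh i).deg) (by
        intro i
        rw [← (hh i).eq]
        exact (hSgood (g i) (P i) (hg i)).1.irr) (by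
        intro i z hz n hn
        rw [← (hh i).eq] at hz
        have hgood := (hSgood (g i) (P i) (hg i)).1
        exact not_ss ha (hS1 (g i) (P i) (hg i)) hgood.frob.monic hgood.deg hgood.irr hgood.ord
          hz hn) l hl2 hlq r hr (fun i => (hh i).flip1)
      (fun i => (hh i).flip2) (fun i => (hh i).flip3) (fun i => (hh i).flip4) (by
        intro i j hij z w hz hw hzw
        rw [← (hh i).eq] at hz
        rw [← (hh j).eq] at hw
        exact hrel (g i) (g j) (P i) (hg i) (P j) (hg j) (fun h => hij (hP h)) ⟨z, w, hz, hw, hzw⟩)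
    rw [e]; exact key

end Pool.Agent.X296.Prod
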